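import Mathlib

/-!
# Choosing the killed lines

PROOF. `exists_bits`: binary expansion, induction on `j` (`Fin.sum_univ_castSucc`: the last bit is
`2 ^ j ≤ m`).
`comb_odd`: choose an injection `e` of `Fin j ⊕ Fin j ⊕ Fin 3` into `Φ` (cardinality `2 j + 3 ≤ s`), `Y` its
image, `b (e (inl i)) = 2 ^ (i + 1) - 1`, `b (e (inr (inl i))) = -1`, `b (e (inr (inr l))) = 1, 1, -1`
(`l = 0, 1, 2`), `b c = 1` elsewhere. For `m = ∑ β i 2 ^ i`: the set kept, `Y \ Z`, consists of
`e (inl i)` (if `β i`) or `e (inr (inl i))` (if not `β i`) for each `i`; in the first case `Z` contains the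
three points `e (inr (inr l))`, in the second it does not. The sum over `Y \ Z` is
`∑ i, (if β i then 2 ^ (i + 1) - 1 else - 1) (+ 1) = 2 m - j (+ 1)`.
`comb_even`: the same with `Fin j ⊕ Fin j`, `b (e (inl i)) = 2 ^ (i + 1)`, `b (e (inr i)) = 0`, `b c = 0`
elsewhere. (`2 ^ (i + 1) ≤ 2 ^ j ≤ s` for `i < j`.)
-/

namespace Pool.Agent.H45.VS

open Finset

theorem exists_bits (j m : ℕ) (hm : m < 2 ^ j) :
    ∃ β : Fin j → Bool, (∑ i : Fin j, if β i then 2 ^ (i : ℕ) else 0) = m := by
  induction j generalizing m with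
  | zero =>
    refine ⟨fun _ => false, ?_⟩
    simp at hm
    simp [hm]
  | succ j ih =>
    by_cases h : 2 ^ j ≤ m
    · have h2 : m - 2 ^ j < 2 ^ j := by
        rw [pow_succ] at hm
        omega
      obtain ⟨β, hβ⟩ := ih (m - 2 ^ j) h2
      refine ⟨Fin.snoc (α := fun _ => Bool) β true, ?_⟩
      rw [Fin.sum_univ_castSucc]
      simp only [Fin.snoc_castSucc, Fin.snoc_last, Fin.val_castSucc, Fin.val_last, if_true]
      rw [hβ]
      omega
    · obtain ⟨β, hβ⟩ := ih m (by omega)
      refine ⟨Fin.snoc (α := fun _ => Bool) β false, ?_⟩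
      rw [Fin.sum_univ_castSucc]
      simp only [Fin.snoc_castSucc, Fin.snoc_last, Fin.val_castSucc, Fin.val_last]
      rw [hβ]
      simp

private theorem slots {k : Type} [DecidableEq k] {I : Type} [Fintype I] (e : I ↪ k) (b : k → ℤ) (p : I → Bool) :
    (Finset.univ.filter fun x => p x = false).map e ⊆ Finset.univ.map e ∧
      ((Finset.univ.filter fun x => p x = false).map e).card = ∑ x : I, (if p x then 0 else 1) ∧
      ∑ c ∈ Finset.univ.map e \ (Finset.univ.filter fun x => p x = false).map e, b c =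
        ∑ x : I, if p x then b (e x) else 0 := by
  classical
  refine ⟨Finset.map_subset_map.mpr (Finset.filter_subset _ _), ?_, ?_⟩
  · rw [Finset.card_map, Finset.card_filter]
    exact Finset.sum_congr rfl fun x _ => by cases p x <;> rfl
  · have h : Finset.univ.map e \ (Finset.univ.filter fun x => p x = false).map e =
        (Finset.univ.filter fun x => p x = true).map e := by
      ext c
      simp only [Finset.mem_sdiff, Finset.mem_map, Finset.mem_filter, Finset.mem_univ, true_and, not_exists,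
        not_and]
      constructor
      · rintro ⟨⟨x, rfl⟩, h2⟩
        refine ⟨x, ?_, rfl⟩
        by_contra hx
        exact h2 x (by simpa using hx) rfl
      · rintro ⟨x, hx, rfl⟩
        refine ⟨⟨x, rfl⟩, ?_⟩
        intro y hy hyx
        have : y = x := e.injective hyx
        rw [this, hx] at hy
        exact absurd hy (by decide)
    rw [h, Finset.sum_map, Finset.sum_filter]

theorem comb_odd {k : Type} [DecidableEq k] (s j : ℕ) (Φ : Finset k) (hΦ : Φ.card = s)
    (hj : 2 * j + 3 ≤ s) (h2 : 2 ^ j ≤ s) :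
    ∃ (Y : Finset k) (b : k → ℤ), Y ⊆ Φ ∧ Y.card = 2 * j + 3 ∧ (∀ c, Odd (b c)) ∧
      (∀ c, |b c| ≤ s) ∧ ∀ m : ℕ, m < 2 ^ j →
        (∃ Z, Z ⊆ Y ∧ Z.card = j + 3 ∧ ∑ c ∈ Y \ Z, b c = 2 * m - j) ∧
        (∃ Z, Z ⊆ Y ∧ Z.card = j ∧ ∑ c ∈ Y \ Z, b c = 2 * m - j + 1) := by
  classical
  have hcard : Fintype.card (Fin j ⊕ (Fin j ⊕ Fin 3)) = 2 * j + 3 := by
    simp only [Fintype.card_sum, Fintype.card_fin]
    ring
  obtain ⟨e, he⟩ := Function.Embedding.exists_of_card_le_finset (α := Fin j ⊕ (Fin j ⊕ Fin 3)) (s := Φ)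
    (by rw [hcard, hΦ]; exact hj)
  set val : Fin j ⊕ (Fin j ⊕ Fin 3) → ℤ :=
    Sum.elim (fun i => 2 ^ ((i : ℕ) + 1) - 1) (Sum.elim (fun _ => -1) (fun l => if l = 2 then -1 else 1)) with hval
  have hb : ∀ x, Function.extend e val (fun _ => 1) (e x) = val x := fun x => e.injective.extend_apply _ _ _
  have hodd : ∀ x, Odd (val x) := by
    rintro (i | i | l)
    · simp only [hval, Sum.elim_inl]
      rw [pow_succ]
      exact ⟨2 ^ (i : ℕ) - 1, by ring⟩
    · simp only [hval, Sum.elim_inl, Sum.elim_inr]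
      decide
    · simp only [hval, Sum.elim_inr]
      split_ifs
      · decide
      · decide
  have hbd : ∀ x, |val x| ≤ s := by
    have hs1 : (1 : ℤ) ≤ s := by exact_mod_cast (by omega : 1 ≤ s)
    rintro (i | i | l)
    · simp only [hval, Sum.elim_inl]
      have h3 : (2 : ℤ) ^ ((i : ℕ) + 1) ≤ 2 ^ j := pow_le_pow_right₀ (by norm_num) (Nat.succ_le_of_lt i.2)
      have h4 : (1 : ℤ) ≤ 2 ^ ((i : ℕ) + 1) := one_le_pow₀ (by norm_num)
      have h5 : (2 : ℤ) ^ j ≤ s := by exact_mod_cast h2
      rw [abs_of_nonneg (by linarith)]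
      linarith
    · simp only [hval, Sum.elim_inl, Sum.elim_inr]
      simpa using hs1
    · simp only [hval, Sum.elim_inr]
      split_ifs <;> simpa using hs1
  refine ⟨Finset.univ.map e, Function.extend e val (fun _ => 1), ?_, ?_, ?_, ?_, ?_⟩
  · intro c hc
    rw [Finset.mem_map] at hc
    obtain ⟨x, _, rfl⟩ := hc
    exact he ⟨x, rfl⟩
  · rw [Finset.card_map, Finset.card_univ, hcard]
  · intro c
    by_cases h : ∃ x, e x = c
    · obtain ⟨x, rfl⟩ := h
      rw [hb]
      exact hodd x
    · rw [Function.extend_apply' _ _ _ h]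
      decide
  · intro c
    by_cases h : ∃ x, e x = c
    · obtain ⟨x, rfl⟩ := h
      rw [hb]
      exact hbd x
    · rw [Function.extend_apply' _ _ _ h]
      have hs1 : (1 : ℤ) ≤ s := by exact_mod_cast (by omega : 1 ≤ s)
      simpa using hs1
  · intro m hm
    obtain ⟨β, hβ⟩ := exists_bits j m hm
    have hβ' : (∑ i : Fin j, if β i then (2 : ℤ) ^ (i : ℕ) else 0) = m := by
      have := congrArg (Nat.cast : ℕ → ℤ) hβ
      rw [← this, Nat.cast_sum]
      exact Finset.sum_congr rfl fun i _ => by split_ifs <;> simp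
    have hmain : (∑ i : Fin j, if β i then (2 : ℤ) ^ ((i : ℕ) + 1) - 1 else 0) +
        (∑ i : Fin j, if (!β i) = true then (-1 : ℤ) else 0) = 2 * m - j := by
      rw [← Finset.sum_add_distrib]
      have : ∀ i : Fin j, ((if β i then (2 : ℤ) ^ ((i : ℕ) + 1) - 1 else 0) +
          (if (!β i) = true then (-1 : ℤ) else 0)) = 2 * (if β i then (2 : ℤ) ^ (i : ℕ) else 0) - 1 := by
        intro i
        cases β i
        · simp
        · simp [pow_succ]
          ring
      rw [Finset.sum_congr rfl fun i _ => this i, Finset.sum_sub_distrib, ← Finset.mul_sum, hβ']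
      simp
    have hcnt : (∑ i : Fin j, if β i then 0 else 1) + (∑ i : Fin j, if (!β i) = true then 0 else 1) = j := by
      rw [← Finset.sum_add_distrib]
      rw [Finset.sum_congr rfl (g := fun _ => 1) fun i _ => by cases β i <;> simp]
      simp
    constructor
    · obtain ⟨h1, h3, h4⟩ := slots e (Function.extend e val (fun _ => 1))
        (Sum.elim β (Sum.elim (fun i => !β i) (fun _ : Fin 3 => false)))
      refine ⟨_, h1, ?_, ?_⟩
      · rw [h3, Fintype.sum_sum_type, Fintype.sum_sum_type]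
        show (∑ i : Fin j, if β i then 0 else 1) + ((∑ i : Fin j, if (!β i) = true then 0 else 1) +
          ∑ _l : Fin 3, if (false : Bool) = true then 0 else 1) = j + 3
        rw [← add_assoc, hcnt]
        simp
      · rw [h4, Fintype.sum_sum_type, Fintype.sum_sum_type]
        simp only [hb]
        show (∑ i : Fin j, if β i then (2 : ℤ) ^ ((i : ℕ) + 1) - 1 else 0) +
          ((∑ i : Fin j, if (!β i) = true then (-1 : ℤ) else 0) +
            ∑ l : Fin 3, if (false : Bool) = true then (if l = 2 then (-1 : ℤ) else 1) else 0) = 2 * m - j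
        rw [← add_assoc, hmain]
        simp
    · obtain ⟨h1, h3, h4⟩ := slots e (Function.extend e val (fun _ => 1))
        (Sum.elim β (Sum.elim (fun i => !β i) (fun _ : Fin 3 => true)))
      refine ⟨_, h1, ?_, ?_⟩
      · rw [h3, Fintype.sum_sum_type, Fintype.sum_sum_type]
        show (∑ i : Fin j, if β i then 0 else 1) + ((∑ i : Fin j, if (!β i) = true then 0 else 1) +
          ∑ _l : Fin 3, if (true : Bool) = true then 0 else 1) = j
        rw [← add_assoc, hcnt]
        simp
      · rw [h4, Fintype.sum_sum_type, Fintype.sum_sum_type]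
        simp only [hb]
        show (∑ i : Fin j, if β i then (2 : ℤ) ^ ((i : ℕ) + 1) - 1 else 0) +
          ((∑ i : Fin j, if (!β i) = true then (-1 : ℤ) else 0) +
            ∑ l : Fin 3, if (true : Bool) = true then (if l = 2 then (-1 : ℤ) else 1) else 0) = 2 * m - j + 1
        rw [← add_assoc, hmain]
        rfl

theorem comb_even {k : Type} [DecidableEq k] (s j : ℕ) (Φ : Finset k) (hj : 2 * j ≤ Φ.card)
    (h2 : 2 ^ j ≤ s) :
    ∃ (Y : Finset k) (b : k → ℤ), Y ⊆ Φ ∧ Y.card = 2 * j ∧ (∀ c, Even (b c)) ∧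
      (∀ c, |b c| ≤ s) ∧ ∀ m : ℕ, m < 2 ^ j →
        ∃ Z, Z ⊆ Y ∧ Z.card = j ∧ ∑ c ∈ Y \ Z, b c = 2 * m := by
  classical
  have hcard : Fintype.card (Fin j ⊕ Fin j) = 2 * j := by
    simp only [Fintype.card_sum, Fintype.card_fin]
    ring
  obtain ⟨e, he⟩ := Function.Embedding.exists_of_card_le_finset (α := Fin j ⊕ Fin j) (s := Φ)
    (by rw [hcard]; exact hj)
  set val : Fin j ⊕ Fin j → ℤ := Sum.elim (fun i => 2 ^ ((i : ℕ) + 1)) (fun _ => 0) with hval
  have hb : ∀ x, Function.extend e val (fun _ => 0) (e x) = val x := fun x => e.injective.extend_apply _ _ _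
  have heven : ∀ x, Even (val x) := by
    rintro (i | i)
    · simp only [hval, Sum.elim_inl]
      rw [pow_succ]
      exact ⟨2 ^ (i : ℕ), by ring⟩
    · simp only [hval, Sum.elim_inr]
      exact Even.zero
  have hs0 : (0 : ℤ) ≤ s := Int.natCast_nonneg s
  have hbd : ∀ x, |val x| ≤ s := by
    rintro (i | i)
    · simp only [hval, Sum.elim_inl]
      have h3 : (2 : ℤ) ^ ((i : ℕ) + 1) ≤ 2 ^ j := pow_le_pow_right₀ (by norm_num) (Nat.succ_le_of_lt i.2)
      have h4 : (1 : ℤ) ≤ 2 ^ ((i : ℕ) + 1) := one_le_pow₀ (by norm_num)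
      have h5 : (2 : ℤ) ^ j ≤ s := by exact_mod_cast h2
      rw [abs_of_nonneg (by linarith)]
      linarith
    · simp only [hval, Sum.elim_inr]
      simp
  refine ⟨Finset.univ.map e, Function.extend e val (fun _ => 0), ?_, ?_, ?_, ?_, ?_⟩
  · intro c hc
    rw [Finset.mem_map] at hc
    obtain ⟨x, _, rfl⟩ := hc
    exact he ⟨x, rfl⟩
  · rw [Finset.card_map, Finset.card_univ, hcard]
  · intro c
    by_cases h : ∃ x, e x = c
    · obtain ⟨x, rfl⟩ := h
      rw [hb]
      exact heven x
    · rw [Function.extend_apply' _ _ _ h]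
      exact Even.zero
  · intro c
    by_cases h : ∃ x, e x = c
    · obtain ⟨x, rfl⟩ := h
      rw [hb]
      exact hbd x
    · rw [Function.extend_apply' _ _ _ h]
      simp
  · intro m hm
    obtain ⟨β, hβ⟩ := exists_bits j m hm
    have hβ' : (∑ i : Fin j, if β i then (2 : ℤ) ^ (i : ℕ) else 0) = m := by
      have := congrArg (Nat.cast : ℕ → ℤ) hβ
      rw [← this, Nat.cast_sum]
      exact Finset.sum_congr rfl fun i _ => by split_ifs <;> simp
    have hmain : (∑ i : Fin j, if β i then (2 : ℤ) ^ ((i : ℕ) + 1) else 0) = 2 * m := by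
      have : ∀ i : Fin j, (if β i then (2 : ℤ) ^ ((i : ℕ) + 1) else 0) =
          2 * (if β i then (2 : ℤ) ^ (i : ℕ) else 0) := by
        intro i
        cases β i
        · simp
        · simp [pow_succ]
          ring
      rw [Finset.sum_congr rfl fun i _ => this i, ← Finset.mul_sum, hβ']
    have hcnt : (∑ i : Fin j, if β i then 0 else 1) + (∑ i : Fin j, if (!β i) = true then 0 else 1) = j := by
      rw [← Finset.sum_add_distrib]
      rw [Finset.sum_congr rfl (g := fun _ => 1) fun i _ => by cases β i <;> simp]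
      simp
    obtain ⟨h1, h3, h4⟩ := slots e (Function.extend e val (fun _ => 0)) (Sum.elim β (fun i => !β i))
    refine ⟨_, h1, ?_, ?_⟩
    · rw [h3, Fintype.sum_sum_type]
      exact hcnt
    · rw [h4, Fintype.sum_sum_type]
      simp only [hb]
      show (∑ i : Fin j, if β i then (2 : ℤ) ^ ((i : ℕ) + 1) else 0) +
          (∑ i : Fin j, if (!β i) = true then (0 : ℤ) else 0) = 2 * m
      rw [hmain]
      simp

end Pool.Agent.H45.VS
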