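import Pool.Agent.H45.VS.Frob

/-!
# The nonzero elements of the subfield are squares, and have trace zero in characteristic two

PROOF. `chi_Fx`: `s` is odd (`card k = s ^ 2` is odd), `z ^ (s - 1) = 1` (cancel `z` in `z ^ s = z`), so
`z ^ (q / 2) = (z ^ (s - 1)) ^ ((s + 1) / 2) = 1` since `q / 2 = (s ^ 2 - 1) / 2 = (s - 1) ((s + 1) / 2)`; hence `z` is a
square (`FiniteField.isSquare_iff`), and `quadraticChar_one_iff_isSquare`.
`tau_Fx`: `tau` is a character: `tau_add` in `H35/VQ/Goppa`; `tau (w ^ 2) = tau w` because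
`tau (w ^ 2 + w) = 1` (`mem_range_wp`, `tau_eq`) ; so `tau (w ^ (2 ^ j)) = tau w` and, as `s = 2 ^ j`
(`exists_p`; the characteristic is `2`), `tau (w ^ s) = tau w`; every `z ∈ Fx` is `w ^ s + w`
(`exists_tr`), so `tau z = tau (w ^ s) * tau w = tau w ^ 2 = 1` (`tau_sq`).
-/

namespace Pool.Agent.H45.VS

open Finset Polynomial Pool.Agent.H35.VQ

variable {k : Type} [Field k] [Fintype k] [DecidableEq k]

private lemma odd_s' (hk : (2 : k) ≠ 0) (s : ℕ) (hs : Fintype.card k = s ^ 2) : Odd s := by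
  obtain ⟨p, j, hp, hc, rfl, hj⟩ := exists_p s hs
  refine Odd.pow ?_
  rcases hp.eq_two_or_odd' with h | h
  · exfalso
    subst h
    exact hk (by exact_mod_cast CharP.cast_eq_zero k 2)
  · exact h

theorem chi_Fx (hk : (2 : k) ≠ 0) (s : ℕ) (hs : Fintype.card k = s ^ 2) (z : k) (hz : z ∈ Fx k s)
    (h0 : z ≠ 0) : chi z = 1 := by
  have hodd := odd_s' hk s hs
  obtain ⟨m, hm⟩ := hodd
  rw [mem_Fx] at hz
  have h1 : z ^ (2 * m) = 1 := by
    have h2 : z ^ (2 * m) * z = 1 * z := by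
      rw [← pow_succ, ← hm, hz, one_mul]
    exact mul_right_cancel₀ h0 h2
  have hch : ringChar k ≠ 2 := by
    intro h
    apply hk
    have := ringChar.Nat.cast_ringChar (R := k)
    rw [h] at this
    exact_mod_cast this
  have hsq : IsSquare z := by
    rw [FiniteField.isSquare_iff hch h0]
    have h3 : Fintype.card k / 2 = 2 * m * (m + 1) := by
      rw [hs, hm]
      have : (2 * m + 1) ^ 2 = 2 * (2 * m * (m + 1)) + 1 := by ring
      rw [this]
      omega
    rw [h3, pow_mul, h1, one_pow]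
  have h4 := (quadraticChar_one_iff_isSquare (F := k) h0).2 hsq
  unfold chi
  rw [h4]
  norm_num

theorem chi_mul (a b : k) : chi (a * b) = chi a * chi b := by
  unfold chi
  rw [map_mul]
  push_cast
  rfl

private lemma tau_sq2 (h2 : (2 : k) = 0) (a : k) : tau (a ^ 2) = tau a := by
  have h3 : tau (a ^ 2 + a) = 1 := by
    rw [← mem_range_wp h2]
    exact ⟨a, rfl⟩
  rw [tau_add h2] at h3
  rcases tau_eq h2 a with h | h <;> rw [h] at h3 ⊢ <;> linarith

private lemma tau_pow2 (h2 : (2 : k) = 0) (a : k) (j : ℕ) : tau (a ^ (2 ^ j)) = tau a := by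
  induction j with
  | zero => simp
  | succ j ih => rw [pow_succ, pow_mul, tau_sq2 h2, ih]

private lemma even_form (h2 : (2 : k) = 0) (s : ℕ) (hs : Fintype.card k = s ^ 2) :
    ∃ j, 1 ≤ j ∧ s = 2 ^ j := by
  obtain ⟨p, j, hp, hc, rfl, hj⟩ := exists_p s hs
  have h3 : p ∣ 2 := (CharP.cast_eq_zero_iff k p 2).1 (by exact_mod_cast h2)
  have h4 : p = 2 := (Nat.prime_dvd_prime_iff_eq hp Nat.prime_two).1 h3
  exact ⟨j, hj, by rw [h4]⟩

theorem tau_Fx (h2 : (2 : k) = 0) (s : ℕ) (hs : Fintype.card k = s ^ 2) (z : k) (hz : z ∈ Fx k s) :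
    tau z = 1 := by
  obtain ⟨w, hw⟩ := exists_tr s hs z hz
  obtain ⟨j, hj, hsj⟩ := even_form h2 s hs
  rw [← hw, tau_add h2, hsj, tau_pow2 h2, ← pow_two, tau_sq h2]

theorem odd_s (hk : (2 : k) ≠ 0) (s : ℕ) (hs : Fintype.card k = s ^ 2) : Odd s :=
  odd_s' hk s hs

theorem even_s (h2 : (2 : k) = 0) (s : ℕ) (hs : Fintype.card k = s ^ 2) : Even s := by
  obtain ⟨j, hj, rfl⟩ := even_form h2 s hs
  exact (Nat.even_pow.2 ⟨even_two, by omega⟩)

end Pool.Agent.H45.VS
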