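import Pool.Agent.H45.VS.Defs

/-!
# The models `y² + h y = h² f₀ + h h'` in characteristic two

PROOF. `g = g₀ + deg h`, `f = h ^ 2 * f₀ + h * derivative h`: `h ^ 2 * f₀` is monic of degree
`2 deg h + 2 g₀ + 1 = 2 g + 1` and `h * derivative h` has smaller degree, so `natDegree f = 2 g + 1`, monic.
Smooth at affine points: in characteristic two `2 y + h(x) = h(x)`. If it is zero, the equation gives
`y ^ 2 = f(x) = 0`, so `y = 0`, and `derivative f = h ^ 2 * derivative f₀ + (derivative h) ^ 2 +
h * derivative (derivative h)` (char 2) takes the value `(derivative h (x)) ^ 2 ≠ 0` at `x`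
(`IsCoprime h (derivative h)`), while `derivative h (x) * y = 0`. At infinity: `h.coeff (g + 1) = 0`,
`f.coeff (2 g + 2) = 0`, so `w = 0`, and `f.coeff (2 g + 1) = 1 ≠ 0 = h.coeff g * 0`.
Points: one point at infinity. Over `x` with `h(x) = 0`: `y ^ 2 = f(x) = 0`, one point. Over `x` with
`b = h(x) ≠ 0`: `y ^ 2 + b y = b ^ 2 (f₀(x) + h'(x) / b)`, `y = b z`, `card_twist` of `H35/VQ/Exact3`: `tau (..) + 1`.
So `N = 1 + #{h = 0} + ∑_{h ≠ 0} (tau + 1) = q + 1 + ∑_{h ≠ 0} tau`. Use `card_affine` of `H35/VQ/Model`, and see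
`evenHyp_numPoints` there and `exact_two` in `H35/VQ/Exact4`.
-/

namespace Pool.Agent.H45.VS

open Finset Polynomial Pool.Agent.H35.VQ

variable {k : Type} [Field k] [Fintype k] [DecidableEq k]

theorem even_model (h2 : (2 : k) = 0) (g0 g : ℕ) (hg : 1 ≤ g) (f0 : k[X]) (hm : f0.Monic)
    (hd : f0.natDegree = 2 * g0 + 1) (h : k[X]) (hhm : h.Monic) (hhd : g0 + h.natDegree = g)
    (hc : IsCoprime h (derivative h)) :
    ∃ C : Hyp k g, (C.numPoints : ℝ) = Fintype.card k + 1 +
      ∑ x ∈ Finset.univ.filter (fun x : k => h.eval x ≠ 0),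
        tau (f0.eval x + (derivative h).eval x / h.eval x) := by
  have h2K : (2 : AlgebraicClosure k) = 0 := by
    rw [← map_ofNat (algebraMap k (AlgebraicClosure k)) 2, h2, map_zero]
  set f : k[X] := h * (h * f0 + derivative h) with hf
  have hf' : f = h ^ 2 * f0 + h * derivative h := by rw [hf]; ring
  have hmon : (h ^ 2 * f0).Monic := (hhm.pow 2).mul hm
  have hdeg1 : (h ^ 2 * f0).natDegree = 2 * g + 1 := by
    rw [(hhm.pow 2).natDegree_mul hm, hhm.natDegree_pow, hd]
    omega
  have hdeg2 : (h * derivative h).natDegree < 2 * g + 1 := by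
    have e1 := Polynomial.natDegree_mul_le (p := h) (q := derivative h)
    have e2 := Polynomial.natDegree_derivative_le h
    omega
  have hfdeg : f.natDegree = 2 * g + 1 := by
    rw [hf', Polynomial.natDegree_add_eq_left_of_natDegree_lt (by rw [hdeg1]; exact hdeg2), hdeg1]
  have hc1 : f.coeff (2 * g + 1) = 1 := by
    rw [hf', Polynomial.coeff_add, Polynomial.coeff_eq_zero_of_natDegree_lt hdeg2, add_zero, ← hdeg1]
    exact hmon.coeff_natDegree
  have hc2 : f.coeff (2 * g + 2) = 0 := Polynomial.coeff_eq_zero_of_natDegree_lt (by omega)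
  have hh1 : h.coeff (g + 1) = 0 := Polynomial.coeff_eq_zero_of_natDegree_lt (by omega)
  let CC : Hyp k g :=
    { h := h
      f := f
      deg_h := by omega
      deg_f := by omega
      smooth := by
        intro x y hxy
        by_contra hcon
        push Not at hcon
        obtain ⟨h3, h4⟩ := hcon
        rw [h2K, zero_mul, zero_add] at h3
        rw [hf, map_mul, h3, zero_mul, zero_mul, add_zero] at hxy
        have hy : y = 0 := eq_zero_of_pow_eq_zero hxy
        rw [hy, mul_zero, hf, Polynomial.derivative_mul, map_add, map_mul, map_mul, map_add, map_mul,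
          h3, zero_mul, zero_mul, add_zero, zero_add] at h4
        have h5 : aeval x (derivative h) = 0 := by
          rcases mul_eq_zero.1 h4.symm with h5 | h5 <;> exact h5
        obtain ⟨a, b, hab⟩ := hc
        have h6 := congrArg (aeval x) hab
        rw [map_add, map_mul, map_mul, h5, h3] at h6
        simp at h6
      smooth_infty := by
        intro w hw
        right
        rw [hh1, hc2, map_zero, zero_mul, add_zero] at hw
        have hw0 : w = 0 := eq_zero_of_pow_eq_zero hw
        rw [hw0, mul_zero, hc1, map_one]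
        exact zero_ne_one }
  refine ⟨CC, ?_⟩
  unfold Hyp.numPoints
  rw [card_affine]
  have h1 : Nat.card {w : k // w ^ 2 + CC.h.coeff (g + 1) * w = CC.f.coeff (2 * g + 2)} = 1 := by
    rw [Nat.card_eq_one_iff_unique]
    constructor
    · constructor
      rintro ⟨w, hw⟩ ⟨w', hw'⟩
      have e1 : w ^ 2 + h.coeff (g + 1) * w = f.coeff (2 * g + 2) := hw
      have e2 : w' ^ 2 + h.coeff (g + 1) * w' = f.coeff (2 * g + 2) := hw'
      rw [hh1, hc2, zero_mul, add_zero] at e1 e2
      rw [Subtype.mk.injEq, eq_zero_of_pow_eq_zero e1, eq_zero_of_pow_eq_zero e2]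
    · refine ⟨⟨0, ?_⟩⟩
      change (0 : k) ^ 2 + h.coeff (g + 1) * 0 = f.coeff (2 * g + 2)
      rw [hc2]
      simp
  rw [h1]
  push_cast
  have h5 : ∀ x : k, ((Finset.univ.filter fun y : k =>
      y ^ 2 + CC.h.eval x * y = CC.f.eval x).card : ℝ) =
      1 + if h.eval x ≠ 0 then tau (f0.eval x + (derivative h).eval x / h.eval x) else 0 := by
    intro x
    have hev : f.eval x = h.eval x * (h.eval x * f0.eval x + (derivative h).eval x) := by
      rw [hf]
      simp
    by_cases hx : h.eval x = 0
    · rw [if_neg (by simpa using hx), add_zero]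
      have h6 : (Finset.univ.filter fun y : k => y ^ 2 + CC.h.eval x * y = CC.f.eval x) = {0} := by
        ext y
        rw [Finset.mem_filter, Finset.mem_singleton]
        change (y ∈ Finset.univ ∧ y ^ 2 + h.eval x * y = f.eval x) ↔ _
        rw [hev, hx, zero_mul, zero_mul, add_zero]
        constructor
        · rintro ⟨_, h7⟩
          exact eq_zero_of_pow_eq_zero h7
        · rintro rfl
          exact ⟨Finset.mem_univ _, by simp⟩
      rw [h6]
      simp
    · rw [if_pos hx, add_comm, ← card_twist (h.eval x) _ hx]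
      congr 2
      refine Finset.filter_congr fun y _ => ?_
      have h7 : f.eval x = h.eval x ^ 2 * (f0.eval x + (derivative h).eval x / h.eval x) := by
        rw [hev]
        field_simp
      change (y ^ 2 + h.eval x * y = f.eval x) ↔ _
      rw [h7]
  rw [Finset.sum_congr rfl fun x _ => h5 x, Finset.sum_add_distrib, ← Finset.sum_filter]
  simp only [Finset.sum_const, Finset.card_univ, nsmul_eq_mul, mul_one]
  ring

end Pool.Agent.H45.VS
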