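import Pool.Agent.H45.VS.Sq
import Pool.Agent.H45.VS.ModE

/-!
# Assembling the curve, characteristic two

PROOF. `h = (∏ c ∈ Z, lp s c) * (if e then X else 1)`, monic of degree `|Z| s + [e]`, equal to `mS W`,
`W` the set of the `x` with `x ^ s + x ∈ Z`, together with `0` if `e` (by `lp_eq`; `0 ∉ Z` if `e`, and
`0 ^ s + 0 = 0`, so `0` is not on a line of `Z`). So `h` is a product of distinct linear factors and coprime to
its derivative. `even_model` applies; `h.eval x ≠ 0` iff `x ^ s + x ∉ Z` and (if `e`) `x ≠ 0`.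
Logarithmic derivative: `derivative h / h = ∑ c ∈ Z, 1 / lp s c (+ 1 / X)` since `derivative (lp s c) = 1`
(`lp_derivative`; `Polynomial.derivative_prod`, or induction on `Z`). The elements
`1 / (lp s c).eval x` are in `Fx` (`lp_eval_mem`, `Fx_inv`), so their sum `u` has `tau u = 1` (`tau_Fx`, `tau_add`
of `H35/VQ/Goppa`: induction on `Z`), and `tau (f₀ x + u (+ x⁻¹)) = tau (f₀ x (+ x⁻¹))` by `tau_add`.
-/

namespace Pool.Agent.H45.VS

open Finset Polynomial Pool.Agent.H35.VQ

variable {k : Type} [Field k] [Fintype k] [DecidableEq k]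

private theorem logd (s : ℕ) (hs : Fintype.card k = s ^ 2) (Z : Finset k) (x : k)
    (hx : ∀ c ∈ Z, (lp s c).eval x ≠ 0) :
    (derivative (∏ c ∈ Z, lp s c)).eval x =
      (∏ c ∈ Z, lp s c).eval x * ∑ c ∈ Z, ((lp s c).eval x)⁻¹ := by
  induction Z using Finset.induction_on with
  | empty => simp
  | insert c Z hc ih =>
    rw [Finset.prod_insert hc, Finset.sum_insert hc, derivative_mul, lp_derivative s hs, eval_add,
      eval_mul, eval_mul, eval_mul, ih (fun d hd => hx d (Finset.mem_insert_of_mem hd)), eval_one]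
    have := hx c (Finset.mem_insert_self _ _)
    field_simp

private theorem lp_sep (s : ℕ) (hs : Fintype.card k = s ^ 2) (c : k) : (lp s c).Separable := by
  unfold Polynomial.Separable
  rw [lp_derivative s hs]
  exact isCoprime_one_right

omit [Fintype k] [DecidableEq k] in
private theorem lp_cop (s : ℕ) {c d : k} (hcd : c ≠ d) : IsCoprime (lp s c) (lp s d) := by
  have h0 : d - c ≠ 0 := fun h => hcd (sub_eq_zero.1 h).symm
  refine ⟨C (d - c)⁻¹, -C (d - c)⁻¹, ?_⟩
  have h1 : C (d - c)⁻¹ * (C d - C c) = (1 : k[X]) := by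
    rw [← C_sub, ← C_mul, inv_mul_cancel₀ h0, C_1]
  unfold lp
  linear_combination h1

omit [Fintype k] [DecidableEq k] in
private theorem lp_cop_X (s : ℕ) (hs : 1 ≤ s) {c : k} (hc : c ≠ 0) : IsCoprime (lp s c) X := by
  obtain ⟨m, rfl⟩ := Nat.exists_eq_add_of_le' hs
  refine ⟨-C c⁻¹, C c⁻¹ * (X ^ m + 1), ?_⟩
  have h1 : C c⁻¹ * C c = (1 : k[X]) := by
    rw [← C_mul, inv_mul_cancel₀ hc, C_1]
  unfold lp
  rw [pow_succ]
  linear_combination h1

theorem even_assemble (h2 : (2 : k) = 0) (s : ℕ) (hs : Fintype.card k = s ^ 2) (g0 g : ℕ)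
    (hg : 1 ≤ g) (f0 : k[X]) (hm : f0.Monic) (hd : f0.natDegree = 2 * g0 + 1) (Z : Finset k)
    (hZ : Z ⊆ Fx k s) (e : Bool) (he : e = true → (0 : k) ∉ Z)
    (hdeg : g0 + Z.card * s + (if e then 1 else 0) = g) :
    ∃ C : Hyp k g, (C.numPoints : ℝ) = Fintype.card k + 1 +
      ∑ x ∈ Finset.univ.filter (fun x : k => x ^ s + x ∉ Z ∧ (e = true → x ≠ 0)),
        tau (f0.eval x + if e then x⁻¹ else 0) := by
  have hs1 : 1 ≤ s := le_trans (by norm_num) (two_le_s s hs)
  set P : k[X] := ∏ c ∈ Z, lp s c with hP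
  set E : k[X] := if e then X else 1 with hE
  have hPm : P.Monic := Polynomial.monic_prod_of_monic _ _ fun c _ => lp_monic s hs c
  have hEm : E.Monic := by
    rw [hE]
    cases e
    · simp
    · simp [Polynomial.monic_X]
  have hPd : P.natDegree = Z.card * s := by
    rw [hP, Polynomial.natDegree_prod_of_monic _ _ (fun c _ => lp_monic s hs c),
      Finset.sum_congr rfl fun c _ => lp_natDegree s hs c, Finset.sum_const, smul_eq_mul]
  have hEd : E.natDegree = if e then 1 else 0 := by
    rw [hE]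
    cases e <;> simp
  have hPsep : P.Separable := Polynomial.separable_prod' (fun c _ d _ hcd => lp_cop s hcd)
    (fun c _ => lp_sep s hs c)
  have hEsep : E.Separable := by
    rw [hE]
    cases e
    · simp [Polynomial.separable_one]
    · simp [Polynomial.separable_X]
  have hPE : IsCoprime P E := by
    rw [hE]
    cases e
    · rw [if_neg (by simp)]
      exact isCoprime_one_right
    · have h0 := he rfl
      simp only [if_true]
      refine IsCoprime.prod_left fun c hc => lp_cop_X s hs1 ?_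
      rintro rfl
      exact h0 hc
  have hhm : (P * E).Monic := hPm.mul hEm
  have hhd : g0 + (P * E).natDegree = g := by
    rw [hPm.natDegree_mul hEm, hPd, hEd, ← add_assoc]
    exact hdeg
  have hc : IsCoprime (P * E) (derivative (P * E)) := hPsep.mul hEsep hPE
  obtain ⟨CC, hCC⟩ := even_model h2 g0 g hg f0 hm hd (P * E) hhm hhd hc
  refine ⟨CC, ?_⟩
  rw [hCC]
  have hPe : ∀ x : k, P.eval x ≠ 0 ↔ x ^ s + x ∉ Z := by
    intro x
    rw [hP, Polynomial.eval_prod, Finset.prod_ne_zero_iff]
    constructor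
    · intro h hx
      apply h _ hx
      rw [lp_eval]
      ring
    · intro h c hc h0
      rw [lp_eval, sub_eq_zero] at h0
      rw [h0] at h
      exact h hc
  have hEe : ∀ x : k, E.eval x ≠ 0 ↔ (e = true → x ≠ 0) := by
    intro x
    rw [hE]
    cases e <;> simp
  have hfil : (Finset.univ.filter fun x : k => (P * E).eval x ≠ 0) =
      Finset.univ.filter (fun x : k => x ^ s + x ∉ Z ∧ (e = true → x ≠ 0)) := by
    ext x
    rw [Finset.mem_filter, Finset.mem_filter, Polynomial.eval_mul, mul_ne_zero_iff, hPe, hEe]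
  rw [hfil]
  congr 1
  refine Finset.sum_congr rfl fun x hx => ?_
  rw [Finset.mem_filter] at hx
  obtain ⟨-, hx1, hx2⟩ := hx
  have hP0 : P.eval x ≠ 0 := (hPe x).2 hx1
  have hE0 : E.eval x ≠ 0 := (hEe x).2 hx2
  have hl : ∀ c ∈ Z, (lp s c).eval x ≠ 0 := by
    have := hP0
    rw [hP, Polynomial.eval_prod, Finset.prod_ne_zero_iff] at this
    exact this
  have h3 : (derivative P).eval x = P.eval x * ∑ c ∈ Z, ((lp s c).eval x)⁻¹ := logd s hs Z x hl
  have h4 : (derivative E).eval x / E.eval x = if e then x⁻¹ else 0 := by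
    rw [hE]
    cases e <;> simp
  have h5 : f0.eval x + (derivative (P * E)).eval x / (P * E).eval x =
      (f0.eval x + if e then x⁻¹ else 0) + ∑ c ∈ Z, ((lp s c).eval x)⁻¹ := by
    rw [← h4, derivative_mul, eval_add, eval_mul, eval_mul, eval_mul, h3]
    field_simp
    ring
  rw [h5, tau_add h2, tau_sum h2, Finset.prod_eq_one, mul_one]
  intro c hcZ
  exact tau_Fx h2 s hs _ (Fx_inv s (lp_eval_mem s hs c (hZ hcZ) x))

end Pool.Agent.H45.VS
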