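import Mathlib

/-!
# The choice of the parameters

PROOF. `choose_j`: let `j` be the least odd number with `s ≤ 4 ^ j` (`Nat.find`, or take
`j₀ = (log₂ s) / 2 + 1` and `j = j₀` or `j₀ + 1`, whichever is odd: with `ℓ = Nat.log 2 s`,
`2 ^ ℓ ≤ s < 2 ^ (ℓ + 1)`: `4 ^ j₀ ≥ 2 ^ (ℓ + 1) > s`, and `2 j ≤ 2 j₀ + 2 ≤ ℓ + 4`; `2 ^ j ≤ s` because
`j ≤ ℓ / 2 + 2 ≤ ℓ` for `ℓ ≥ 4`). `s ≥ 300000` gives `ℓ ≥ 18`, so `j ≥ 3`.
`num_base`: put `ℓ = Nat.log 2 s`. From `300000 s (ℓ + 1) ≤ g ≤ s ^ 2` (and `s > 0`): `300000 (ℓ + 1) ≤ s`.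
`K ≤ (2 j + 3) s ≤ (ℓ + 7) s ≤ 7 (ℓ + 1) s`, `(j + 3) s ≤ 5 (ℓ + 1) s`. So `g₀ - K ≥ g - 12 (ℓ + 1) s ≥ 0.999 g`,
`s ^ 2 - K ≥ 0.999 s ^ 2`, the minimum is at least `0.999 g ≥ 299700 s`, and
`241 ^ 2 (s ^ 2 - K) / min ≤ 58081 s ^ 2 / (299700 s) ≤ 0.2 s ≤ s / 4`. For the last claim:
`√(min (s ^ 2 - K)) / 3 ≥ 0.999 √(g s ^ 2) / 3 ≥ √(g s ^ 2) / 4 + √s`, since `0.08 √(g s ^ 2) = 0.08 s √g ≥ √s`.
-/

namespace Pool.Agent.H45.VS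

theorem choose_j (s : ℕ) (hs : 300000 ≤ s) :
    ∃ j : ℕ, Odd j ∧ 3 ≤ j ∧ s ≤ 4 ^ j ∧ 2 ^ j ≤ s ∧ 2 * j ≤ Nat.log 2 s + 4 := by
  have hs0 : s ≠ 0 := by omega
  have h1 : s < 2 ^ (Nat.log 2 s + 1) := Nat.lt_pow_succ_log_self (by norm_num) s
  have h2 : 2 ^ Nat.log 2 s ≤ s := Nat.pow_log_le_self 2 hs0
  have h3 : 18 ≤ Nat.log 2 s :=
    Nat.le_log_of_pow_le (by norm_num) (le_trans (by norm_num) hs)
  obtain ⟨l, hl⟩ : ∃ l, l = Nat.log 2 s := ⟨_, rfl⟩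
  rw [← hl] at h1 h2 h3 ⊢
  have key : ∀ j : ℕ, l / 2 + 1 ≤ j → j ≤ l / 2 + 2 →
      3 ≤ j ∧ s ≤ 4 ^ j ∧ 2 ^ j ≤ s ∧ 2 * j ≤ l + 4 := by
    intro j hj1 hj2
    refine ⟨by omega, ?_, ?_, by omega⟩
    · have h4 : (4 : ℕ) ^ j = 2 ^ (2 * j) := by rw [pow_mul]; norm_num
      rw [h4]
      exact h1.le.trans (Nat.pow_le_pow_right (by norm_num) (by omega))
    · exact (Nat.pow_le_pow_right (by norm_num) (by omega)).trans h2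
  rcases Nat.even_or_odd (l / 2 + 1) with he | ho
  · exact ⟨l / 2 + 2, he.add_one, key _ (by omega) le_rfl⟩
  · exact ⟨l / 2 + 1, ho, key _ le_rfl (by omega)⟩

theorem num_base (s g j g0 K : ℕ) (hs0 : 0 < s) (hs : 300000 * s * (Nat.log 2 s + 1) ≤ g)
    (hgq : g ≤ s ^ 2) (hj : 2 * j ≤ Nat.log 2 s + 4) (hK : K ≤ (2 * j + 3) * s)
    (hg0 : g ≤ g0 + (j + 3) * s) (hg0' : g0 ≤ g) :
    300000 ≤ s ∧ 2 * j + 4 ≤ s ∧ K + 1 ≤ g0 ∧ K + 2 ≤ s ^ 2 ∧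
      241 * √(((s ^ 2 - K : ℕ) : ℝ) / (min (g0 - K) (s ^ 2 - K) : ℕ)) ≤ √s / 2 ∧
      ∀ T0 t : ℝ, |T0| ≤ √((g : ℝ) * s ^ 2) / 4 → |t - T0| ≤ √s →
        |t| ≤ √((min (g0 - K) (s ^ 2 - K) : ℕ) * ((s ^ 2 - K : ℕ) : ℝ)) / 3 := by
  obtain ⟨l, hl⟩ : ∃ l, l = Nat.log 2 s := ⟨_, rfl⟩
  rw [← hl] at hs hj
  have h1 : 300000 * (l + 1) ≤ s := by
    have h2 : s * (300000 * (l + 1)) ≤ s * s := by
      calc s * (300000 * (l + 1)) = 300000 * s * (l + 1) := by ring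
        _ ≤ g := hs
        _ ≤ s ^ 2 := hgq
        _ = s * s := by ring
    exact Nat.le_of_mul_le_mul_left h2 hs0
  obtain ⟨M, hM⟩ : ∃ M, M = s * (l + 1) := ⟨_, rfl⟩
  obtain ⟨S, hS⟩ : ∃ S, S = s ^ 2 := ⟨_, rfl⟩
  have hM0 : s ≤ M := by rw [hM]; exact Nat.le_mul_of_pos_right s (by omega)
  have h3 : 300000 * M ≤ g := by
    calc 300000 * M = 300000 * s * (l + 1) := by rw [hM]; ring
      _ ≤ g := hs
  have h4 : K ≤ 7 * M := by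
    calc K ≤ (2 * j + 3) * s := hK
      _ ≤ (7 * (l + 1)) * s := Nat.mul_le_mul_right s (by omega)
      _ = 7 * M := by rw [hM]; ring
  have h5 : (j + 3) * s ≤ 5 * M := by
    calc (j + 3) * s ≤ (5 * (l + 1)) * s := Nat.mul_le_mul_right s (by omega)
      _ = 5 * M := by rw [hM]; ring
  rw [← hS] at hgq ⊢
  have hSR : (S : ℝ) = (s : ℝ) ^ 2 := by rw [hS]; push_cast; ring
  obtain ⟨m, hm⟩ : ∃ m, m = min (g0 - K) (S - K) := ⟨_, rfl⟩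
  obtain ⟨a, ha⟩ : ∃ a, a = S - K := ⟨_, rfl⟩
  have h6 : 999 * g ≤ 1000 * m := by
    rcases min_choice (g0 - K) (S - K) with h | h <;> rw [hm, h] <;> omega
  have h7 : 999 * S ≤ 1000 * a := by omega
  have h8 : a ≤ S := by omega
  rw [← hm, ← ha]
  have hsR : (300000 : ℝ) ≤ s := by exact_mod_cast (by omega : 300000 ≤ s)
  have h6R : (999 : ℝ) * g ≤ 1000 * m := by exact_mod_cast h6
  have h7R : (999 : ℝ) * s ^ 2 ≤ 1000 * a := by rw [← hSR]; exact_mod_cast h7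
  have h8R : (a : ℝ) ≤ s ^ 2 := by rw [← hSR]; exact_mod_cast h8
  have h3R : (300000 : ℝ) * s ≤ g := by exact_mod_cast (by omega : 300000 * s ≤ g)
  have hsq : √(s : ℝ) ^ 2 = s := Real.sq_sqrt (by positivity)
  have hm0 : (0 : ℝ) < m := by nlinarith
  refine ⟨by omega, by omega, by omega, by omega, ?_, ?_⟩
  · have h9 : √((a : ℝ) / m) ≤ √(s : ℝ) / 482 := by
      refine Real.sqrt_le_iff.2 ⟨by positivity, ?_⟩
      rw [div_pow, hsq, div_le_iff₀ hm0]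
      have h10 : (299700 : ℝ) * s ≤ m := by linarith
      have h11 : (s : ℝ) * (299700 * s) ≤ s * m := mul_le_mul_of_nonneg_left h10 (by positivity)
      nlinarith
    linarith
  · intro T0 t hT0 ht
    have hg0R : (0 : ℝ) ≤ (g : ℝ) * s ^ 2 := by positivity
    have hR := Real.sq_sqrt hg0R
    have h12 : √(s : ℝ) ≤ 0.08 * √((g : ℝ) * s ^ 2) := by
      refine Real.sqrt_le_iff.2 ⟨by positivity, ?_⟩
      rw [mul_pow, hR]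
      have h13 : (300000 * s : ℝ) * (s ^ 2) ≤ g * s ^ 2 :=
        mul_le_mul_of_nonneg_right h3R (by positivity)
      have h14 : (300000 : ℝ) * 1 ≤ s * s := by nlinarith
      nlinarith [mul_le_mul_of_nonneg_left h14 (by positivity : (0 : ℝ) ≤ s)]
    have h15 : 0.999 * √((g : ℝ) * s ^ 2) ≤ √((m : ℝ) * a) := by
      refine Real.le_sqrt_of_sq_le ?_
      rw [mul_pow, hR]
      have h16 : (999 * g : ℝ) * (999 * s ^ 2) ≤ (1000 * m) * (1000 * a) :=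
        mul_le_mul h6R h7R (by positivity) (by positivity)
      nlinarith
    have h17 : |t| ≤ |T0| + |t - T0| := by
      calc |t| = |T0 + (t - T0)| := by ring_nf
        _ ≤ |T0| + |t - T0| := abs_add_le _ _
    have h18 : 0 ≤ √((g : ℝ) * s ^ 2) := Real.sqrt_nonneg _
    linarith

end Pool.Agent.H45.VS
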