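import Pool.Agent.H45.VS.Frob

/-!
# Values with prescribed line sums

PROOF. For `c ∈ Fx k s` the line `ln s c` has `s` elements (`card_ln`). Choose a subset `A c` of it with
`(s + b c) / 2` elements (an integer between `0` and `s`), and let `v x = u` if `x ∈ A (x ^ s + x)` and
`v x = w` otherwise. The sum over the line is `|A c| - (s - |A c|) = b c`. (If `c ∉ Fx k s` take `A c = ∅`.)
-/

namespace Pool.Agent.H45.VS

open Finset Polynomial Pool.Agent.H35.VQ

variable {k : Type} [Field k] [Fintype k] [DecidableEq k]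

theorem exists_pat (s : ℕ) (hs : Fintype.card k = s ^ 2) (F : k → ℝ) (u w : k) (hu : F u = 1)
    (hw : F w = -1) (b : k → ℤ) (hb : ∀ c ∈ Fx k s, |b c| ≤ s) (hb2 : ∀ c ∈ Fx k s, Even (b c + s)) :
    ∃ v : k → k, (∀ x, v x = u ∨ v x = w) ∧
      ∀ c ∈ Fx k s, ∑ x ∈ ln s c, F (v x) = (b c : ℝ) := by
  classical
  have hA : ∀ c : k, ∃ A : Finset k, c ∈ Fx k s → A ⊆ ln s c ∧ (2 * (A.card : ℤ) = s + b c) := by
    intro c
    by_cases hc : c ∈ Fx k s
    · have h1 := hb c hc
      rw [abs_le] at h1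
      obtain ⟨r, hr⟩ := hb2 c hc
      have h2 : r.toNat ≤ (ln s c).card := by
        rw [card_ln s hs c hc]
        omega
      obtain ⟨A, hA, hAc⟩ := Finset.exists_subset_card_eq h2
      refine ⟨A, fun _ => ⟨hA, ?_⟩⟩
      rw [hAc]
      omega
    · exact ⟨∅, fun h => absurd h hc⟩
  choose A hA using hA
  refine ⟨fun x => if x ∈ A (x ^ s + x) then u else w, ?_, ?_⟩
  · intro x
    dsimp only
    split_ifs
    · exact Or.inl rfl
    · exact Or.inr rfl
  · intro c hc
    obtain ⟨h1, h2⟩ := hA c hc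
    have h3 : ∑ x ∈ ln s c, F (if x ∈ A (x ^ s + x) then u else w) =
        ∑ x ∈ ln s c, (2 * (if x ∈ A c then (1 : ℝ) else 0) - 1) := by
      refine Finset.sum_congr rfl fun x hx => ?_
      rw [(mem_ln s c x).1 hx]
      split_ifs
      · rw [hu]; norm_num
      · rw [hw]; norm_num
    rw [h3, Finset.sum_sub_distrib, ← Finset.mul_sum, Finset.sum_ite_mem, Finset.sum_const,
      Finset.sum_const, Finset.inter_eq_right.2 h1, card_ln s hs c hc]
    have h4 : (2 * (A c).card : ℝ) = s + b c := by exact_mod_cast h2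
    simp only [nsmul_eq_mul, mul_one]
    linarith

/-- splitting the sum over the points outside the killed lines `Z ⊆ Y`: the points of the lines of `Y`
are those with `x ^ s + x ∈ Y` -/
theorem sum_split (s : ℕ) (F : k → ℝ) (Y Z : Finset k) (hZ : Z ⊆ Y) :
    ∑ x ∈ Finset.univ.filter (fun x : k => x ^ s + x ∉ Z), F x =
      ∑ x ∈ (Finset.univ.filter (fun x : k => x ^ s + x ∈ Y))ᶜ, F x +
        ∑ c ∈ Y \ Z, ∑ x ∈ ln s c, F x := by
  have h1 : Finset.univ.filter (fun x : k => x ^ s + x ∉ Z) =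
      (Finset.univ.filter (fun x : k => x ^ s + x ∈ Y))ᶜ ∪
        Finset.univ.filter (fun x : k => x ^ s + x ∈ Y \ Z) := by
    ext x
    simp only [Finset.mem_filter, Finset.mem_univ, true_and, Finset.mem_union, Finset.mem_compl,
      Finset.mem_sdiff]
    constructor
    · intro h
      by_cases hy : x ^ s + x ∈ Y
      · exact Or.inr ⟨hy, h⟩
      · exact Or.inl hy
    · rintro (h | h)
      · exact fun hz => h (hZ hz)
      · exact h.2
  have h2 : Disjoint ((Finset.univ.filter (fun x : k => x ^ s + x ∈ Y))ᶜ)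
      (Finset.univ.filter (fun x : k => x ^ s + x ∈ Y \ Z)) := by
    rw [Finset.disjoint_left]
    intro x hx hx'
    simp only [Finset.mem_filter, Finset.mem_univ, true_and, Finset.mem_compl,
      Finset.mem_sdiff] at hx hx'
    exact hx hx'.1
  rw [h1, Finset.sum_union h2]
  congr 1
  rw [← Finset.sum_fiberwise_of_maps_to (s := Finset.univ.filter (fun x : k => x ^ s + x ∈ Y \ Z))
    (t := Y \ Z) (g := fun x => x ^ s + x) (fun x hx => (Finset.mem_filter.1 hx).2)]
  refine Finset.sum_congr rfl fun c hc => ?_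
  refine Finset.sum_congr ?_ fun _ _ => rfl
  ext x
  rw [Finset.mem_filter, Finset.mem_filter, mem_ln]
  constructor
  · exact fun h => h.2
  · intro h
    exact ⟨⟨Finset.mem_univ _, by rw [h]; exact hc⟩, h⟩

theorem card_lines (s : ℕ) (hs : Fintype.card k = s ^ 2) (Y : Finset k) (hY : Y ⊆ Fx k s) :
    (Finset.univ.filter (fun x : k => x ^ s + x ∈ Y)).card = Y.card * s := by
  have h1 := Finset.card_eq_sum_card_fiberwise
    (s := Finset.univ.filter (fun x : k => x ^ s + x ∈ Y)) (t := Y)
    (f := fun x => x ^ s + x) (fun x hx => (Finset.mem_filter.1 hx).2)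
  rw [h1, Finset.sum_congr rfl (g := fun _ => s), Finset.sum_const, smul_eq_mul]
  intro c hc
  refine Eq.trans ?_ (card_ln s hs c (hY hc))
  congr 1
  ext x
  rw [Finset.mem_filter, Finset.mem_filter, mem_ln]
  constructor
  · exact fun h => h.2
  · intro h
    exact ⟨⟨Finset.mem_univ _, by rw [h]; exact hc⟩, h⟩

end Pool.Agent.H45.VS
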