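import Pool.Agent.H45.VS.Base
import Pool.Agent.H45.VS.Pat
import Pool.Agent.H45.VS.Comb
import Pool.Agent.H45.VS.AsmE
import Pool.Agent.H45.VS.Num

/-!
# Characteristic two

PROOF. As in `FinO`. `e = true` if `N` is even, `e = false` if `N` is odd. `j` from `choose_j`,
`g₀ = g - j * s - [e]`, `Φ = (Fx k s).erase 0` (`s - 1 ≥ 2 j` elements), `Y`, `b` from `comb_even`, `T` the set of the
`x` with `x ^ s + x ∈ Y`, `|T| = K = 2 j s`, `v` from `exists_pat` with `F = tau`, `u = 0` (`tau_zero` of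
`H35/VQ/Exact3`), `w` with `tau w = -1` (`exists_tau_neg`), `b` even and `s` even (`even_s`).
`sf x = if e then x⁻¹ else 0`; apply `exists_pat` and then give `base_even` the values `v x - sf x` on `T`, so that
`f₀ x + sf x = v x` on `T`. `T₀ = N - (s ^ 2 + 1)`, `t = T₀ - √s / 2 - 1`, `|S - t| ≤ √s / 2`,
`S = ∑ x ∈ Tᶜ, tau (f₀ x + sf x)`. Put `S' = S` if `e = false`, and `S' = S - tau (f₀ 0 + sf 0)` if `e = true`
(`0 ∈ Tᶜ` because `0 ∉ Y`). `Δ = T₀ - S'` is an integer with `0 ≤ Δ ≤ √s + 2`.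
Parity: `S'` is a sum of `q - K - [e]` signs, `q` and `K` even, so `S' ≡ [e]`, and `T₀ = N - q - 1 ≡ N + 1 ≡ [e]` mod 2;
so `Δ = 2 m`, `0 ≤ m ≤ √s / 2 + 1 < 2 ^ j` (`2 ^ j ≥ √s ≥ 500`). `Z` from `comb_even`, `even_assemble` (`0 ∉ Z`),
`g₀ + j s + [e] = g`. The sum over the `x` with `x ^ s + x ∉ Z` and (if `e`) `x ≠ 0` is
`S' + ∑ c ∈ Y \ Z, b c = S' + 2 m = T₀` by `sum_split` (remove the term `x = 0` if `e`).
-/

namespace Pool.Agent.H45.VS

open Finset Polynomial Pool.Agent.H35.VQ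

variable {k : Type} [Field k] [Fintype k] [DecidableEq k]

private theorem tau_int (h2 : (2 : k) = 0) (a : k) : ∃ z : ℤ, tau a = 2 * z - 1 := by
  rcases tau_eq h2 a with h | h
  · exact ⟨1, by rw [h]; norm_num⟩
  · exact ⟨0, by rw [h]; norm_num⟩

private theorem tau_sum_int (h2 : (2 : k) = 0) (S : Finset k) (F : k → k) :
    ∃ z : ℤ, ∑ x ∈ S, tau (F x) = 2 * z - S.card := by
  choose z hz using fun x => tau_int h2 (F x)
  refine ⟨∑ x ∈ S, z x, ?_⟩
  rw [Finset.sum_congr rfl fun x _ => hz x, Finset.sum_sub_distrib, ← Finset.mul_sum]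
  push_cast
  simp

/-- the sum with the term at `0` removed if `e` -/
private theorem sum_rem (h2 : (2 : k) = 0) (S : Finset k) (h0 : (0 : k) ∈ S) (F : k → k) (e : Bool)
    (ε : ℕ) (hε : ε = if e then 1 else 0) (hS : Even S.card) :
    |∑ x ∈ S, tau (F x) - ∑ x ∈ S, (if e = true ∧ x = 0 then 0 else tau (F x))| ≤ 1 ∧
      ∃ z : ℤ, ∑ x ∈ S, (if e = true ∧ x = 0 then 0 else tau (F x)) = 2 * z + ε := by
  obtain ⟨z, hz⟩ := tau_sum_int h2 S F
  obtain ⟨r, hr⟩ := hS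
  rw [hr] at hz
  push_cast at hz
  cases e with
  | false =>
    simp only [Bool.false_eq_true, false_and, if_false] at hε ⊢
    refine ⟨by rw [sub_self, abs_zero]; exact zero_le_one, z - r, ?_⟩
    rw [hz, hε]
    push_cast
    ring
  | true =>
    simp only [true_and, if_true] at hε ⊢
    have h1 : ∑ x ∈ S, (if x = 0 then 0 else tau (F x)) = ∑ x ∈ S, tau (F x) - tau (F 0) := by
      rw [← Finset.sum_erase_add _ _ h0, if_pos rfl, add_zero,
        ← Finset.sum_erase_add S (fun x => tau (F x)) h0, add_sub_cancel_right]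
      refine Finset.sum_congr rfl fun x hx => ?_
      rw [if_neg (Finset.ne_of_mem_erase hx)]
    rw [h1, sub_sub_cancel]
    rcases tau_eq h2 (F 0) with h | h
    · refine ⟨by rw [h, abs_one], z - r - 1, ?_⟩
      rw [h, hz, hε]
      push_cast
      ring
    · refine ⟨by rw [h, abs_neg, abs_one], z - r, ?_⟩
      rw [h, hz, hε]
      push_cast
      ring

theorem final_even (h2 : (2 : k) = 0) (s : ℕ) (hs : Fintype.card k = s ^ 2) (g : ℕ)
    (hg : 300000 * s * (Nat.log 2 s + 1) ≤ g) (hgq : g < s ^ 2) (N : ℕ)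
    (hN : |(N : ℝ) - (s ^ 2 + 1)| ≤ √((g : ℝ) * s ^ 2) / 4) : ∃ C : Hyp k g, C.numPoints = N := by
  have hs2 := two_le_s s hs
  have hs3 : 300000 ≤ s := by
    have h1 : 300000 * s ≤ 300000 * s * (Nat.log 2 s + 1) := Nat.le_mul_of_pos_right _ (by omega)
    have h3 : 300000 * s < s * s := by rw [← pow_two]; omega
    exact (lt_of_mul_lt_mul_right h3 (Nat.zero_le s)).le
  obtain ⟨j, hjo, hj3, hj4, hj2, hjl⟩ := choose_j s hs3
  obtain ⟨e, ε, hε, hεN⟩ : ∃ (e : Bool) (ε : ℕ), (ε = if e then 1 else 0) ∧ Even (N + 1 + ε) := by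
    by_cases h : Even N
    · refine ⟨true, 1, rfl, ?_⟩
      rw [Nat.even_iff] at h ⊢
      omega
    · refine ⟨false, 0, rfl, ?_⟩
      rw [Nat.even_iff] at h ⊢
      omega
  have hε1 : ε ≤ 1 := by
    rw [hε]
    split_ifs <;> omega
  obtain ⟨g0, hg0⟩ : ∃ g0, g0 = g - j * s - ε := ⟨_, rfl⟩
  have hjs : j * s + 3 * s = (j + 3) * s := by ring
  obtain ⟨-, h24, hK1, hK2, hR, hT⟩ := num_base s g j g0 (2 * j * s) (by omega) hg hgq.le hjl
    (Nat.mul_le_mul_right s (by omega)) (by rw [← hjs]; omega) (by omega)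
  have hg0' : g0 + j * s + ε = g := by omega
  -- the killed lines
  have hΦ : ((Fx k s).erase 0).card = s - 1 := by
    rw [Finset.card_erase_of_mem (zero_mem_Fx s hs), card_Fx s hs]
  obtain ⟨Y, b, hY, hYc, hbe, hbs, hZ⟩ := comb_even s j ((Fx k s).erase 0) (by rw [hΦ]; omega) hj2
  have hY0 : (0 : k) ∉ Y := fun h => Finset.notMem_erase _ _ (hY h)
  have hYF : Y ⊆ Fx k s := hY.trans (Finset.erase_subset _ _)
  obtain ⟨T, hTd⟩ : ∃ T, T = Finset.univ.filter (fun x : k => x ^ s + x ∈ Y) := ⟨_, rfl⟩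
  have hTc : T.card = 2 * j * s := by
    rw [hTd, card_lines s hs Y hYF, hYc]
  obtain ⟨w, hw⟩ := exists_tau_neg h2
  obtain ⟨v, -, hv⟩ := exists_pat s hs tau 0 w (tau_zero h2) hw b (fun c _ => hbs c)
    (fun c _ => (hbe c).add ((Int.even_coe_nat s).2 (even_s h2 s hs)))
  have h0s : (0 : k) ^ s + 0 = 0 := by rw [zero_pow (by omega), add_zero]
  have h0T : (0 : k) ∈ Tᶜ := by
    rw [Finset.mem_compl, hTd, Finset.mem_filter, h0s]
    exact fun h => hY0 h.2
  have hTev : Even (Tᶜ).card := by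
    rw [Finset.card_compl, hTc, hs]
    have h5 := even_s h2 s hs
    exact (Nat.even_sub (by omega)).2 (by
      constructor
      · intro _
        exact h5.mul_left _
      · intro _
        rw [pow_two]
        exact h5.mul_left _)
  -- the base polynomial
  have hsq : (4 : ℝ) ≤ √s := by
    rw [show (4 : ℝ) = √(4 ^ 2) by rw [Real.sqrt_sq (by norm_num)]]
    apply Real.sqrt_le_sqrt
    have : (300000 : ℝ) ≤ s := by exact_mod_cast hs3
    linarith
  have hsj : √(s : ℝ) ≤ 2 ^ j := by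
    rw [show (2 : ℝ) ^ j = √((2 ^ j) ^ 2) by rw [Real.sqrt_sq (by positivity)]]
    apply Real.sqrt_le_sqrt
    have h5 : ((2 : ℝ) ^ j) ^ 2 = 4 ^ j := by
      rw [← pow_mul, mul_comm, pow_mul]
      norm_num
    rw [h5]
    exact_mod_cast hj4
  obtain ⟨f0, hm, hd, hf, hb⟩ := base_even h2 T (fun x => v x - if e then x⁻¹ else 0)
    (fun x => if e then x⁻¹ else 0) g0 (by rw [hTc]; exact hK1) (by rw [hTc, hs]; exact hK2)
    ((N : ℝ) - (s ^ 2 + 1) - √s / 2 - 1) (by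
      rw [hTc, hs]
      refine hT _ _ hN ?_
      rw [show (N : ℝ) - (s ^ 2 + 1) - √s / 2 - 1 - ((N : ℝ) - (s ^ 2 + 1)) = -(√s / 2 + 1) by ring,
        abs_neg, abs_of_nonneg (by positivity)]
      linarith)
  rw [hTc, hs] at hb
  have hb2 := abs_le.1 (hb.trans hR)
  obtain ⟨hrem, z, hz⟩ := sum_rem h2 Tᶜ h0T (fun x => f0.eval x + if e then x⁻¹ else 0) e ε hε hTev
  have hrem2 := abs_le.1 hrem
  -- parity
  obtain ⟨a, ha⟩ : ∃ a : ℤ, (N : ℝ) - (s ^ 2 + 1) = 2 * a + ε := by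
    obtain ⟨r, hr⟩ := hεN
    obtain ⟨u, hu⟩ := even_s h2 s hs
    refine ⟨r - 1 - ε - 2 * u ^ 2, ?_⟩
    have h5 : (N : ℝ) + 1 + ε = r + r := by exact_mod_cast hr
    have h6 : (s : ℝ) = u + u := by exact_mod_cast hu
    push_cast
    rw [h6]
    linear_combination h5
  obtain ⟨m, hmz⟩ : ∃ m : ℕ, (m : ℤ) = a - z := by
    refine ⟨(a - z).toNat, Int.toNat_of_nonneg ?_⟩
    have h5 : (0 : ℝ) ≤ 2 * ((a : ℝ) - z) := by
      linarith
    have h6 : (0 : ℝ) ≤ ((a - z : ℤ) : ℝ) := by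
      push_cast
      linarith
    exact_mod_cast h6
  have hmz2 : (m : ℝ) = a - z := by exact_mod_cast hmz
  have hm2 : m < 2 ^ j := by
    have h5 : (m : ℝ) < 2 ^ j := by
      rw [hmz2]
      linarith
    exact_mod_cast h5
  obtain ⟨Z, hZY, hZc, hZs⟩ := hZ m hm2
  obtain ⟨C, hC⟩ := even_assemble h2 s hs g0 g (by omega) f0 hm hd Z (hZY.trans hYF) e
    (fun _ h => hY0 (hZY h)) (by rw [hZc, ← hε]; exact hg0')
  refine ⟨C, ?_⟩
  have hsum : ∑ x ∈ Finset.univ.filter (fun x : k => x ^ s + x ∉ Z ∧ (e = true → x ≠ 0)),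
      tau (f0.eval x + if e then x⁻¹ else 0) =
      ∑ x ∈ Finset.univ.filter (fun x : k => x ^ s + x ∉ Z),
        (if e = true ∧ x = 0 then 0 else tau (f0.eval x + if e then x⁻¹ else 0)) := by
    rw [Finset.sum_filter, Finset.sum_filter]
    refine Finset.sum_congr rfl fun x _ => ?_
    by_cases h1 : x ^ s + x ∉ Z
    · by_cases h3 : e = true ∧ x = 0
      · rw [if_neg (fun h => h.2 h3.1 h3.2), if_pos h1, if_pos h3]
      · rw [if_pos ⟨h1, fun h4 h5 => h3 ⟨h4, h5⟩⟩, if_pos h1, if_neg h3]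
    · rw [if_neg (fun h => h1 h.1), if_neg h1]
  rw [hsum, sum_split s _ Y Z hZY, ← hTd, hz] at hC
  have hlines : ∑ c ∈ Y \ Z, ∑ x ∈ ln s c,
      (if e = true ∧ x = 0 then 0 else tau (f0.eval x + if e then x⁻¹ else 0)) = 2 * (m : ℝ) := by
    have h5 : ∀ c ∈ Y \ Z, ∑ x ∈ ln s c,
        (if e = true ∧ x = 0 then 0 else tau (f0.eval x + if e then x⁻¹ else 0)) = (b c : ℝ) := by
      intro c hc
      have hcY := (Finset.mem_sdiff.1 hc).1
      rw [← hv c (hYF hcY)]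
      refine Finset.sum_congr rfl fun x hx => ?_
      rw [mem_ln] at hx
      have hx0 : x ≠ 0 := by
        rintro rfl
        rw [h0s] at hx
        rw [← hx] at hcY
        exact hY0 hcY
      rw [if_neg (fun h => hx0 h.2), hf x (by
        rw [hTd, Finset.mem_filter, hx]
        exact ⟨Finset.mem_univ _, hcY⟩), sub_add_cancel]
    rw [Finset.sum_congr rfl h5]
    exact_mod_cast hZs
  rw [hlines, hs] at hC
  have hfin : (C.numPoints : ℝ) = N := by
    rw [hC, hmz2]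
    push_cast
    linear_combination -ha
  exact_mod_cast hfin

end Pool.Agent.H45.VS
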