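import Pool.Agent.H45.VS.FinO
import Pool.Agent.H45.VS.FinE

/-!
# The theorem for square `q`
-/

namespace Pool.Agent.H45.VS

open Finset Polynomial Pool.Agent.H35.VQ

theorem main (k : Type) [Field k] [Finite k] (s : ℕ) (hs : Nat.card k = s ^ 2) (g : ℕ)
    (hg : 300000 * s * (Nat.log 2 s + 1) ≤ g) (N : ℕ)
    (hN : 4 * |(N : ℝ) - (s ^ 2 + 1)| ≤ √((min g (s ^ 2) : ℕ) * (s : ℝ) ^ 2)) :
    ∃ C : Hyp k g, C.numPoints = N := by
  classical
  have := Fintype.ofFinite k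
  rw [Nat.card_eq_fintype_card] at hs
  have hs2 : 2 ≤ s := two_le_s s hs
  have hN2 : g ≥ s ^ 2 → N ≤ 2 * Fintype.card k + 2 := by
    intro h
    rw [min_eq_right h] at hN
    have h1 : √(((s ^ 2 : ℕ) : ℝ) * (s : ℝ) ^ 2) = (s : ℝ) ^ 2 := by
      have : ((s ^ 2 : ℕ) : ℝ) * (s : ℝ) ^ 2 = ((s : ℝ) ^ 2) ^ 2 := by push_cast; ring
      rw [this, Real.sqrt_sq (by positivity)]
    rw [h1] at hN
    have h2 := (abs_le.1 (show |(N : ℝ) - (s ^ 2 + 1)| ≤ (s : ℝ) ^ 2 / 4 by linarith)).2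
    have h3 : (N : ℝ) ≤ 2 * (s : ℝ) ^ 2 + 2 := by nlinarith
    rw [hs]
    exact_mod_cast h3
  by_cases hgq : g < s ^ 2
  · have hN3 : |(N : ℝ) - (s ^ 2 + 1)| ≤ √((g : ℝ) * s ^ 2) / 4 := by
      rw [min_eq_left hgq.le] at hN
      linarith
    by_cases h2 : (2 : k) = 0
    · exact final_even h2 s hs g hg hgq N hN3
    · exact final_odd h2 s hs g hg hgq N hN3
  · push Not at hgq
    by_cases h2 : (2 : k) = 0
    · refine exact_two h2 g ?_ N (hN2 hgq)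
      have h4 : 4 ≤ s ^ 2 := by nlinarith
      rw [hs]
      calc 2 ^ (s ^ 2) ≤ 2 ^ (2 * (g - 1)) := Nat.pow_le_pow_right (by norm_num) (by omega)
        _ = 4 ^ (g - 1) := by rw [pow_mul]; norm_num
        _ ≤ (s ^ 2) ^ (g - 1) := Nat.pow_le_pow_left h4 _
    · refine exact_odd h2 g ?_ N (hN2 hgq)
      obtain ⟨p, j, hp, hc, hsp, hj⟩ := exists_p s hs
      have h5 : ringChar k = p := ringChar.eq k p
      have h6 : p ≤ s := by
        rw [hsp]
        exact Nat.le_self_pow (by omega) p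
      rw [h5, hs]
      nlinarith

end Pool.Agent.H45.VS
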