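import Pool.Agent.H45.VS.Sq

/-!
# Assembling the polynomial, odd characteristic

PROOF. `f = f₀ * (∏ c ∈ Z, lp s c) * T`, monic of degree `2 g₀ + 1 + |Z| s + deg T = 2 g + 1`.
`∏ c ∈ Z, lp s c = ∏ c ∈ Z, mS (ln s c) = mS W`, `W` the set of the `x` with `x ^ s + x ∈ Z`
(`lp_eq`, disjoint lines, `Finset.prod_biUnion` or `prod_fiberwise`): a product of distinct linear
factors, squarefree (`Polynomial.separable_prod_X_sub_C_iff`-type facts). It is coprime to `f₀`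
(`f₀.eval x ≠ 0` for `x ∈ W`) and to `T` (no roots in `k`), `T` is coprime to `f₀`; so `f` is squarefree.
Then `oddHyp`, `oddHyp_numPoints` of `H35/VQ/Model` give `N = q + 1 + ∑ x, chi (f.eval x)`. If
`x ^ s + x ∈ Z` then `f.eval x = 0` and `chi 0 = 0`; otherwise `f.eval x = f₀.eval x * u`,
`u = ∏ c ∈ Z, (lp s c).eval x * T.eval x` a nonzero element of `Fx` (`lp_eval_mem`, `Fx_mul`), `chi u = 1`
(`chi_Fx`, `chi_mul`).
-/

namespace Pool.Agent.H45.VS

open Finset Polynomial Pool.Agent.H35.VQ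

variable {k : Type} [Field k] [Fintype k] [DecidableEq k]

private lemma aso_one_mem (s : ℕ) : (1 : k) ∈ Fx k s := by
  rw [mem_Fx, one_pow]

private lemma aso_prod_mem (s : ℕ) (Z : Finset k) (u : k → k) (hu : ∀ c ∈ Z, u c ∈ Fx k s) :
    ∏ c ∈ Z, u c ∈ Fx k s :=
  Finset.prod_induction _ (fun z => z ∈ Fx k s) (fun _ _ ha hb => Fx_mul s ha hb)
    (aso_one_mem s) hu

private lemma aso_sep (s : ℕ) (hs : Fintype.card k = s ^ 2) (Z : Finset k) :
    (∏ c ∈ Z, lp s c).Separable := by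
  refine Polynomial.separable_prod' ?_ ?_
  · intro c _ d _ hcd
    have hne : d - c ≠ 0 := sub_ne_zero.2 (Ne.symm hcd)
    refine ⟨C ((d - c)⁻¹), -C ((d - c)⁻¹), ?_⟩
    have e : C ((d - c)⁻¹) * lp s c + -C ((d - c)⁻¹) * lp s d = C ((d - c)⁻¹) * C (d - c) := by
      unfold lp
      rw [C_sub]
      ring
    rw [e, ← C_mul, inv_mul_cancel₀ hne, C_1]
  · intro c _
    have h1 : IsCoprime (lp s c) (derivative (lp s c)) := by
      rw [lp_derivative s hs c]
      exact isCoprime_one_right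
    exact h1

private lemma aso_cop (s : ℕ) (hs : Fintype.card k = s ^ 2) (Z : Finset k) (hZ : Z ⊆ Fx k s)
    (F : k[X]) (hF : ∀ x, x ^ s + x ∈ Z → F.eval x ≠ 0) : IsCoprime (∏ c ∈ Z, lp s c) F := by
  refine IsCoprime.prod_left fun c hc => ?_
  rw [lp_eq s hs c (hZ hc)]
  unfold mS
  refine IsCoprime.prod_left fun x hx => ?_
  rw [mem_ln] at hx
  rw [(irreducible_X_sub_C x).coprime_iff_not_dvd, dvd_iff_isRoot]
  exact hF x (by rw [hx]; exact hc)

theorem odd_assemble (hk : (2 : k) ≠ 0) (s : ℕ) (hs : Fintype.card k = s ^ 2) (g0 g : ℕ) (f0 : k[X])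
    (hm : f0.Monic) (hd : f0.natDegree = 2 * g0 + 1) (hsq : Squarefree f0) (Z : Finset k)
    (hZ : Z ⊆ Fx k s) (hf : ∀ x, x ^ s + x ∈ Z → f0.eval x ≠ 0) (T : k[X]) (hTm : T.Monic)
    (hTs : Squarefree T) (hTc : IsCoprime T f0) (hTv : ∀ x : k, T.eval x ≠ 0 ∧ T.eval x ∈ Fx k s)
    (hdeg : 2 * g0 + 1 + Z.card * s + T.natDegree = 2 * g + 1) :
    ∃ C : Hyp k g, (C.numPoints : ℝ) = Fintype.card k + 1 +
      ∑ x ∈ Finset.univ.filter (fun x : k => x ^ s + x ∉ Z), chi (f0.eval x) := by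
  have hL : (∏ c ∈ Z, lp s c).Monic := monic_prod_of_monic _ _ fun c _ => lp_monic s hs c
  have hLd : (∏ c ∈ Z, lp s c).natDegree = Z.card * s := by
    rw [Polynomial.natDegree_prod_of_monic _ _ fun c _ => lp_monic s hs c,
      Finset.sum_congr rfl fun c _ => lp_natDegree s hs c, Finset.sum_const, smul_eq_mul]
  have hfL : IsCoprime (∏ c ∈ Z, lp s c) f0 := aso_cop s hs Z hZ f0 hf
  have hTL : IsCoprime (∏ c ∈ Z, lp s c) T := aso_cop s hs Z hZ T fun x _ => (hTv x).1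
  have hmon : (f0 * (∏ c ∈ Z, lp s c) * T).Monic := (hm.mul hL).mul hTm
  have hdegf : (f0 * (∏ c ∈ Z, lp s c) * T).natDegree = 2 * g + 1 := by
    rw [(hm.mul hL).natDegree_mul hTm, hm.natDegree_mul hL, hd, hLd]
    exact hdeg
  have hsqf : Squarefree (f0 * (∏ c ∈ Z, lp s c) * T) := by
    rw [squarefree_mul_iff, squarefree_mul_iff]
    refine ⟨?_, ⟨hfL.symm.isRelPrime, hsq, (aso_sep s hs Z).squarefree⟩, hTs⟩
    exact (IsCoprime.mul_left hTc.symm hTL).isRelPrime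
  refine ⟨oddHyp hk g _ hmon hdegf hsqf, ?_⟩
  rw [oddHyp_numPoints hk g _ hmon hdegf hsqf]
  congr 1
  rw [Finset.sum_filter]
  refine Finset.sum_congr rfl fun x _ => ?_
  by_cases hx : x ^ s + x ∈ Z
  · rw [if_neg (not_not.2 hx)]
    have h0 : (f0 * (∏ c ∈ Z, lp s c) * T).eval x = 0 := by
      rw [eval_mul, eval_mul, eval_prod, Finset.prod_eq_zero hx, mul_zero, zero_mul]
      rw [lp_eval, sub_self]
    rw [h0]
    unfold chi
    simp
  · rw [if_pos hx]
    have h1 : (f0 * (∏ c ∈ Z, lp s c) * T).eval x =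
        f0.eval x * ((∏ c ∈ Z, (lp s c).eval x) * T.eval x) := by
      rw [eval_mul, eval_mul, eval_prod, mul_assoc]
    rw [h1, chi_mul, chi_Fx hk s hs _
      (Fx_mul s (aso_prod_mem s Z _ fun c hc => lp_eval_mem s hs c (hZ hc) x) (hTv x).2), mul_one]
    refine mul_ne_zero (Finset.prod_ne_zero_iff.2 fun c hc h0 => ?_) (hTv x).1
    rw [lp_eval, sub_eq_zero] at h0
    rw [h0] at hx
    exact hx hc

end Pool.Agent.H45.VS
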