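import Pool.Agent.H45.VS.FamB

/-!
# Polynomials with prescribed values on `T` and approximate trace sum outside, characteristic two

PROOF. Adapt `exists_even` of `H35/VQ/Even` (read it first): index type `κ = {x // x ∉ T}`,
`q' = card κ = card k - |T|`, sample space `Sp k n`, `n = 2 g + 1 - |T|`, signs
`esg T v (fun x a _ => tau (a + sf x)) ω`, which are unbiased because `∑ a, tau (a + sf x) = ∑ a, tau a = 0`
(`Equiv.addRight`, `sum_tau`); use `unb`, `norm_sum`, `mul_lin_radial` on `κ`. `2 (M + 1) ≤ n`.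
-/

namespace Pool.Agent.H45.VS

open Finset Polynomial Pool.Agent.H35.VQ

variable {k : Type} [Field k] [Fintype k] [DecidableEq k]

theorem exists_even_pre (h2 : (2 : k) = 0) (T : Finset k) (v sf : k → k) (g M : ℕ)
    (hM : 2 * M + T.card + 1 ≤ g) (t : ℝ) (a : ℕ → ℂ)
    (ha : ∀ n, M < n → a n = 0) (q' : ℕ) (hq' : q' = Fintype.card k - T.card)
    (hpos : 0 < ∑ n ∈ range (q' + 1), (q'.choose n : ℝ) * ‖a n‖ ^ 2) (R : ℝ)
    (hj : ∑ n ∈ range (q' + 1), (q'.choose n : ℝ) * ‖jop q' t a n‖ ^ 2 ≤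
      R * ∑ n ∈ range (q' + 1), (q'.choose n : ℝ) * ‖a n‖ ^ 2) :
    ∃ f : k[X], f.Monic ∧ f.natDegree = 2 * g + 1 ∧ (∀ x ∈ T, f.eval x = v x) ∧
      (∑ x ∈ Tᶜ, tau (f.eval x + sf x) - t) ^ 2 ≤ R := by
  classical
  have hκ : Fintype.card {x : k // x ∉ T} = q' := by
    rw [hq', Fintype.card_subtype_compl (fun x => x ∈ T), Fintype.card_coe]
  set n := 2 * g + 1 - T.card with hn
  set e : Sp k n → {x : k // x ∉ T} → ℝ := fun ω => esg T v (fun x a _ => tau (a + sf x)) ω with he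
  set α : Finset {x : k // x ∉ T} → ℂ := fun A => a A.card with hα
  have hαM : ∀ A : Finset {x : k // x ∉ T}, M < A.card → α A = 0 := fun A hA => ha _ hA
  set A0 : ℝ := ∑ A : Finset {x : k // x ∉ T}, ‖α A‖ ^ 2 with hA0
  have hA0' : A0 = ∑ n ∈ range (q' + 1), (q'.choose n : ℝ) * ‖a n‖ ^ 2 := by
    rw [← hκ]
    exact sum_card_eq (fun n => ‖a n‖ ^ 2)
  have hA0pos : 0 < A0 := hA0' ▸ hpos
  have hTpos : 0 < tot k n := by
    unfold tot
    have : 0 < Fintype.card k := Fintype.card_pos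
    positivity
  have hso : ∀ (ω : Sp k n) (x : {x : k // x ∉ T}), e ω x ^ 2 = 1 := fun ω x => tau_sq h2 _
  have h0 : ∀ x : k, x ∉ T → ∑ a : k, ∑ _b : Bool, tau (a + sf x) = 0 := by
    intro x _
    rw [Finset.sum_congr rfl fun a _ => show ∑ _b : Bool, tau (a + sf x) = 2 * tau (a + sf x) by simp [two_mul],
      ← Finset.mul_sum, Fintype.sum_equiv (Equiv.addRight (sf x)) (fun a => tau (a + sf x)) tau (fun a => rfl),
      sum_tau, mul_zero]
  have hub : ∀ D : Finset {x : k // x ∉ T}, D.card ≤ n →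
      ∑ ω : Sp k n, (fun _ => (1 : ℝ)) ω * mon D (e ω) = if D = ∅ then tot k n else 0 := by
    intro D hD
    simpa using unb T v n (fun x a _ => tau (a + sf x)) h0 D hD
  have hsum : ∀ ω : Sp k n, ∑ x ∈ Tᶜ, tau ((fam T v ω.1).eval x + sf x) = ∑ x, e ω x := by
    intro ω
    exact Finset.sum_subtype Tᶜ (fun x => Finset.mem_compl) (fun x => tau ((fam T v ω.1).eval x + sf x))
  clear_value e
  have h1 : ∑ ω : Sp k n, ‖lin α (e ω)‖ ^ 2 = tot k n * A0 := by
    have := norm_sum (Ω := Sp k n) e hso (fun _ => 1) (tot k n) n M (by omega) hub α hαM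
    simpa using this
  have h2' : ∑ ω : Sp k n, (∑ x, e ω x - t) ^ 2 * ‖lin α (e ω)‖ ^ 2 ≤ tot k n * (R * A0) := by
    have e1 : ∀ ω : Sp k n, (∑ x, e ω x - t) ^ 2 * ‖lin α (e ω)‖ ^ 2 =
        ‖lin (fun A => jop q' t a A.card) (e ω)‖ ^ 2 := by
      intro ω
      rw [← hκ, ← mul_lin_radial a _ (hso ω) t, norm_mul, mul_pow, Complex.norm_real, Real.norm_eq_abs,
        sq_abs]
    rw [Finset.sum_congr rfl fun ω _ => e1 ω]
    have e2 := norm_sum (Ω := Sp k n) e hso (fun _ => 1) (tot k n) n (M + 1) (by omega) hub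
      (fun A => jop q' t a A.card) (fun A hA => by
        unfold jop
        rw [ha _ (by omega), ha _ (by omega), ha _ (by omega)]
        simp)
    simp only [one_mul] at e2
    rw [e2, sum_card_eq (fun n => ‖jop q' t a n‖ ^ 2), hκ, hA0']
    exact mul_le_mul_of_nonneg_left hj hTpos.le
  by_contra hcon
  push Not at hcon
  have h3 : ∀ ω : Sp k n, R < (∑ x, e ω x - t) ^ 2 := by
    intro ω
    rw [← hsum ω]
    refine hcon (fam T v ω.1) (fam_monic T v ω.1) ?_ (fun x hx => fam_eval_mem T v ω.1 x hx)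
    rw [fam_natDegree]
    omega
  have h4 : 0 < ∑ ω : Sp k n, ((∑ x, e ω x - t) ^ 2 - R) * ‖lin α (e ω)‖ ^ 2 := by
    have h5 : ∃ ω : Sp k n, 0 < ‖lin α (e ω)‖ ^ 2 := by
      by_contra hc
      push Not at hc
      have : ∑ ω : Sp k n, ‖lin α (e ω)‖ ^ 2 ≤ 0 := Finset.sum_nonpos fun ω _ => hc ω
      rw [h1] at this
      have : 0 < tot k n * A0 := mul_pos hTpos hA0pos
      linarith
    obtain ⟨ω, hω⟩ := h5
    refine Finset.sum_pos' (fun ω _ => mul_nonneg (sub_nonneg.2 (h3 ω).le) (sq_nonneg _))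
      ⟨ω, Finset.mem_univ _, mul_pos (sub_pos.2 (h3 ω)) hω⟩
  have h6 : ∑ ω : Sp k n, ((∑ x, e ω x - t) ^ 2 - R) * ‖lin α (e ω)‖ ^ 2 =
      ∑ ω : Sp k n, (∑ x, e ω x - t) ^ 2 * ‖lin α (e ω)‖ ^ 2 -
      R * ∑ ω : Sp k n, ‖lin α (e ω)‖ ^ 2 := by
    rw [Finset.mul_sum, ← Finset.sum_sub_distrib]
    refine Finset.sum_congr rfl fun ω _ => ?_
    ring
  rw [h6, h1] at h4
  nlinarith

end Pool.Agent.H45.VS
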