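import Pool.Agent.H45.VS.OddPre
import Pool.Agent.H45.VS.EvenPre

/-!
# The base polynomial

PROOF. Let `q' = card k - |T|`, `g' = g - |T|`. Apply `exists_vector q' g' _ _ t ht` of `H35/VQ/Approx`:
`M`, `a`, `R` with `2 M + 1 ≤ g'` (so `2 M + |T| + 1 ≤ g`), `0 ≤ R ≤ 14400 (q' / min g' q')`. Then
`exists_odd_pre` resp. `exists_even_pre`. Since `q' / min g' q' ≥ 1`, `4 (R + 2) ≤ 57608 q' / m' ≤ 241 ^ 2 q' / m'`;
take square roots (`abs_le_of_sq_le_sq`, see `approx` in `H35/VQ/Approx`).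
-/

namespace Pool.Agent.H45.VS

open Finset Polynomial Pool.Agent.H35.VQ

variable {k : Type} [Field k] [Fintype k] [DecidableEq k]

theorem base_odd (hk : (2 : k) ≠ 0) (hq : 9 ≤ Fintype.card k) (T : Finset k) (v : k → k)
    (hv : ∀ x ∈ T, v x ≠ 0) (g : ℕ) (hg : T.card + 1 ≤ g) (hT : T.card + 2 ≤ Fintype.card k) (t : ℝ)
    (ht : |t| ≤ √((min (g - T.card) (Fintype.card k - T.card) : ℕ) *
      ((Fintype.card k - T.card : ℕ) : ℝ)) / 3) :
    ∃ f : k[X], f.Monic ∧ f.natDegree = 2 * g + 1 ∧ Squarefree f ∧ (∀ x ∈ T, f.eval x = v x) ∧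
      |∑ x ∈ Tᶜ, chi (f.eval x) - t| ≤ 241 * √(((Fintype.card k - T.card : ℕ) : ℝ) /
        (min (g - T.card) (Fintype.card k - T.card) : ℕ)) := by
  obtain ⟨M, a, R, hM, ha, hpos, hj, hR0, hR, -⟩ :=
    exists_vector (Fintype.card k - T.card) (g - T.card) (by omega) (by omega) t ht
  have hr : ringChar k ≠ 2 := by
    intro h
    apply hk
    have := ringChar.Nat.cast_ringChar (R := k)
    rw [h] at this
    exact_mod_cast this
  obtain ⟨f, hm, hd, hs, hf, hb⟩ := exists_odd_pre hr hq T v hv g M (by omega) t a ha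
    (Fintype.card k - T.card) rfl hpos R hR0 hj
  refine ⟨f, hm, hd, hs, hf, ?_⟩
  apply abs_le_of_sq_le_sq _ (by positivity)
  rw [mul_pow, Real.sq_sqrt (by positivity)]
  have h1 : (1 : ℝ) ≤ ((Fintype.card k - T.card : ℕ) : ℝ) /
      (min (g - T.card) (Fintype.card k - T.card) : ℕ) := by
    rw [le_div_iff₀ (by exact_mod_cast (by omega : 0 < min (g - T.card) (Fintype.card k - T.card))),
      one_mul]
    exact_mod_cast min_le_right _ _
  linarith

theorem base_even (h2 : (2 : k) = 0) (T : Finset k) (v sf : k → k) (g : ℕ) (hg : T.card + 1 ≤ g)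
    (hT : T.card + 2 ≤ Fintype.card k) (t : ℝ)
    (ht : |t| ≤ √((min (g - T.card) (Fintype.card k - T.card) : ℕ) *
      ((Fintype.card k - T.card : ℕ) : ℝ)) / 3) :
    ∃ f : k[X], f.Monic ∧ f.natDegree = 2 * g + 1 ∧ (∀ x ∈ T, f.eval x = v x) ∧
      |∑ x ∈ Tᶜ, tau (f.eval x + sf x) - t| ≤ 241 * √(((Fintype.card k - T.card : ℕ) : ℝ) /
        (min (g - T.card) (Fintype.card k - T.card) : ℕ)) := by
  obtain ⟨M, a, R, hM, ha, hpos, hj, hR0, hR, -⟩ :=
    exists_vector (Fintype.card k - T.card) (g - T.card) (by omega) (by omega) t ht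
  obtain ⟨f, hm, hd, hf, hb⟩ := exists_even_pre h2 T v sf g M (by omega) t a ha
    (Fintype.card k - T.card) rfl hpos R hj
  refine ⟨f, hm, hd, hf, ?_⟩
  apply abs_le_of_sq_le_sq _ (by positivity)
  rw [mul_pow, Real.sq_sqrt (by positivity)]
  have h1 : (1 : ℝ) ≤ ((Fintype.card k - T.card : ℕ) : ℝ) /
      (min (g - T.card) (Fintype.card k - T.card) : ℕ) := by
    rw [le_div_iff₀ (by exact_mod_cast (by omega : 0 < min (g - T.card) (Fintype.card k - T.card))),
      one_mul]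
    exact_mod_cast min_le_right _ _
  linarith

end Pool.Agent.H45.VS
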