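import Pool.Agent.H35.VQ.Approx
import Pool.Agent.H35.VQ.Exact4

/-!
# Lines of trace `c` and monic polynomials with prescribed values

`q = s ^ 2`. `Fx k s` is the subfield with `s` elements, `ln s c` the line `x ^ s + x = c` and
`lp s c` its polynomial. `fam T v w`, for lower coefficients `w : Fin n → k`, runs through the monic
polynomials of degree `|T| + n` with the values `v` on `T`.
-/

namespace Pool.Agent.H45.VS

open Finset Polynomial Pool.Agent.H35.VQ

variable {k : Type} [Field k] [Fintype k] [DecidableEq k]

/-- the subfield of elements fixed by `x ↦ x ^ s` -/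
def Fx (k : Type) [Field k] [Fintype k] [DecidableEq k] (s : ℕ) : Finset k :=
  Finset.univ.filter fun z => z ^ s = z

/-- the line of trace `c` -/
def ln (s : ℕ) (c : k) : Finset k := Finset.univ.filter fun x => x ^ s + x = c

/-- the polynomial of the line of trace `c` -/
noncomputable def lp (s : ℕ) (c : k) : k[X] := X ^ s + X - C c

/-- the interpolation polynomial of the values `v` on `T` -/
noncomputable def vp (T : Finset k) (v : k → k) : k[X] := Lagrange.interpolate T id v

/-- the monic polynomials with the values `v` on `T` -/
noncomputable def fam (T : Finset k) (v : k → k) {n : ℕ} (w : Fin n → k) : k[X] :=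
  vp T v + mS T * pl w

/-- the signs at the points outside `T` -/
noncomputable def esg (T : Finset k) (v : k → k) {n : ℕ} (S : k → k → Bool → ℝ) (ω : Sp k n)
    (x : {x : k // x ∉ T}) : ℝ := S x ((fam T v ω.1).eval (x : k)) (ω.2 x)

/-- the number of square divisors -/
noncomputable def nsf (g : ℕ) (f : k[X]) : ℝ :=
  ∑ j ∈ Icc 1 g, ∑ p : Fin j → k, dv ((pl p) ^ 2) f

end Pool.Agent.H45.VS
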