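import Pool.Agent.H45.VS.Defs

/-!
# Monic polynomials with prescribed values: basic facts

PROOF. `mS T = ∏_{x ∈ T} (X - x)` is monic of degree `|T|` (`mS_natDegree` in `H35/VQ/Goppa`), vanishes
exactly at the points of `T`. `vp T v` has degree `< |T|` (`Lagrange.degree_interpolate_lt`, see the
proof of `evD_surj` in `H35/VQ/Poly` for its use with `id`) and takes the value `v x` at `x ∈ T`
(`Lagrange.eval_interpolate_at_node`). `pl w` is monic of degree `n`. Hence `fam T v w` is monic of
degree `|T| + n` (lower order perturbation of the monic `mS T * pl w`). Injective: cancel `vp` and the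
nonzero `mS T`, then `pl_injective`. Surjective: `f - vp T v` vanishes on `T`, so it is `mS T * r`
(`mS T` is a product of pairwise coprime `X - C x`, or `Polynomial` root multiset arguments:
`Finset.prod_dvd_of_coprime` with `Polynomial.pairwise_coprime_X_sub_C`), `r` is monic of degree `n`
because `f` is monic of degree `|T| + n` and `vp` has smaller degree than `|T|`; use `pl_of_monic`.
-/

namespace Pool.Agent.H45.VS

open Finset Polynomial Pool.Agent.H35.VQ

variable {k : Type} [Field k] [Fintype k] [DecidableEq k]

theorem mS_monic (T : Finset k) : (mS T).Monic := by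
  unfold mS
  exact Polynomial.monic_prod_of_monic _ _ fun x _ => Polynomial.monic_X_sub_C x

theorem mS_eval_mem (T : Finset k) (x : k) (hx : x ∈ T) : (mS T).eval x = 0 := by
  unfold mS
  rw [Polynomial.eval_prod]
  exact Finset.prod_eq_zero hx (by simp)

theorem mS_eval_ne (T : Finset k) (x : k) (hx : x ∉ T) : (mS T).eval x ≠ 0 := by
  unfold mS
  rw [Polynomial.eval_prod, Finset.prod_ne_zero_iff]
  intro y hy h
  rw [Polynomial.eval_sub, Polynomial.eval_X, Polynomial.eval_C, sub_eq_zero] at h
  exact hx (h ▸ hy)

theorem vp_degree (T : Finset k) (v : k → k) : (vp T v).degree < (T.card : WithBot ℕ) :=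
  Lagrange.degree_interpolate_lt v (Set.injOn_id _)

private theorem vp_eval (T : Finset k) (v : k → k) (x : k) (hx : x ∈ T) :
    (vp T v).eval x = v x := by
  have h := Lagrange.eval_interpolate_at_node v (s := T) (v := id) (Set.injOn_id _) hx
  simpa [vp] using h

theorem fam_eval (T : Finset k) (v : k → k) {n : ℕ} (w : Fin n → k) (x : k) :
    (fam T v w).eval x = (vp T v).eval x + (mS T).eval x * (pl w).eval x := by
  rw [fam, Polynomial.eval_add, Polynomial.eval_mul]

theorem fam_eval_mem (T : Finset k) (v : k → k) {n : ℕ} (w : Fin n → k) (x : k) (hx : x ∈ T) :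
    (fam T v w).eval x = v x := by
  rw [fam_eval, mS_eval_mem T x hx, vp_eval T v x hx, zero_mul, add_zero]

private theorem top_monic (T : Finset k) {n : ℕ} (w : Fin n → k) : (mS T * pl w).Monic :=
  (mS_monic T).mul (pl_monic w)

private theorem top_natDegree (T : Finset k) {n : ℕ} (w : Fin n → k) :
    (mS T * pl w).natDegree = T.card + n := by
  rw [Polynomial.Monic.natDegree_mul (mS_monic T) (pl_monic w), mS_natDegree, pl_natDegree]

private theorem vp_lt (T : Finset k) (v : k → k) {n : ℕ} (w : Fin n → k) :
    (vp T v).degree < (mS T * pl w).degree := by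
  rw [Polynomial.degree_eq_natDegree (top_monic T w).ne_zero, top_natDegree]
  refine (vp_degree T v).trans_le ?_
  exact_mod_cast Nat.le_add_right _ _

theorem fam_monic (T : Finset k) (v : k → k) {n : ℕ} (w : Fin n → k) : (fam T v w).Monic := by
  rw [fam, add_comm]
  exact (top_monic T w).add_of_left (vp_lt T v w)

theorem fam_natDegree (T : Finset k) (v : k → k) {n : ℕ} (w : Fin n → k) :
    (fam T v w).natDegree = T.card + n := by
  have h : (fam T v w).degree = (mS T * pl w).degree := by
    rw [fam, add_comm]
    exact Polynomial.degree_add_eq_left_of_degree_lt (vp_lt T v w)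
  rw [Polynomial.natDegree_eq_of_degree_eq h, top_natDegree]

theorem fam_injective (T : Finset k) (v : k → k) (n : ℕ) :
    Function.Injective (fun w : Fin n → k => fam T v w) := by
  intro w w' h
  simp only [fam] at h
  exact pl_injective (mul_left_cancel₀ (mS_monic T).ne_zero (add_left_cancel h))

theorem fam_of (T : Finset k) (v : k → k) (n : ℕ) (f : k[X]) (hm : f.Monic)
    (hd : f.natDegree = T.card + n) (hv : ∀ x ∈ T, f.eval x = v x) :
    ∃ w : Fin n → k, fam T v w = f := by
  have hdvd : mS T ∣ f - vp T v := by
    unfold mS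
    refine Finset.prod_dvd_of_coprime ?_ ?_
    · intro a _ b _ hab
      exact Polynomial.pairwise_coprime_X_sub_C Function.injective_id hab
    · intro x hx
      rw [Polynomial.dvd_iff_isRoot, Polynomial.IsRoot.def, Polynomial.eval_sub, hv x hx,
        vp_eval T v x hx, sub_self]
  obtain ⟨r, hr⟩ := hdvd
  have hlt : (vp T v).degree < f.degree := by
    rw [Polynomial.degree_eq_natDegree hm.ne_zero, hd]
    refine (vp_degree T v).trans_le ?_
    exact_mod_cast Nat.le_add_right _ _
  have hm2 : (f - vp T v).Monic := by
    rw [sub_eq_add_neg]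
    refine hm.add_of_left ?_
    rwa [Polynomial.degree_neg]
  have hd2 : (f - vp T v).natDegree = T.card + n := by
    rw [← hd]
    exact Polynomial.natDegree_eq_of_degree_eq (Polynomial.degree_sub_eq_left_of_degree_lt hlt)
  have hrm : r.Monic := by
    rw [hr] at hm2
    exact (mS_monic T).of_mul_monic_left hm2
  have hrd : r.natDegree = n := by
    rw [hr, Polynomial.Monic.natDegree_mul (mS_monic T) hrm, mS_natDegree] at hd2
    omega
  refine ⟨fun i => r.coeff i, ?_⟩
  rw [fam, pl_of_monic r hrm hrd, ← hr]
  ring

end Pool.Agent.H45.VS
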