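import Pool.Agent.H45.VS.FamA

/-!
# Independence of the values outside `T`

PROOF. `sum_fam`: apply `sum_sp n D hD` of `H35/VQ/Poly` to
`ψ' x a b = ψ x ((vp T v).eval x + (mS T).eval x * a) b` (use `fam_eval`); for `x ∈ D`, `x ∉ T` by
disjointness, so `a ↦ (vp T v).eval x + (mS T).eval x * a` is a bijection of `k` (`mS_eval_ne`) and
`∑ a, ∑ b, ψ' x a b = ∑ a, ∑ b, ψ x a b` (`Fintype.sum_equiv` or `Function.Bijective.sum_comp`).
`mon_esg`: for `D : Finset {x // x ∉ T}`, `mon D (esg T v S ω)` is the product over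
`D.map (Function.Embedding.subtype _)`, use `mon_eq_prod` and `Finset.prod_map`.
`unb`, `unb0` are then word for word `unbiased`, `unbiased_zeros` of `H35/VQ/Poly` with `sum_fam` in
the place of `sum_sp` (for `unb0` the set is `(D ∪ {y, z}).map _`, of card at most `D.card + 2`).
-/

namespace Pool.Agent.H45.VS

open Finset Polynomial Pool.Agent.H35.VQ

variable {k : Type} [Field k] [Fintype k] [DecidableEq k]

theorem sum_fam (T : Finset k) (v : k → k) (n : ℕ) (D : Finset k) (hT : Disjoint D T)
    (hD : D.card ≤ n) (ψ : k → k → Bool → ℝ) :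
    ∑ ω : Sp k n, ∏ x ∈ D, ψ x ((fam T v ω.1).eval x) (ω.2 x) =
      tot k n * ∏ x ∈ D, ((∑ a, ∑ b, ψ x a b) / (2 * (Fintype.card k : ℝ))) := by
  have h := sum_sp n D hD (fun x a b => ψ x ((vp T v).eval x + (mS T).eval x * a) b)
  have h1 : ∀ ω : Sp k n, ∏ x ∈ D, ψ x ((fam T v ω.1).eval x) (ω.2 x) =
      ∏ x ∈ D, (fun x a b => ψ x ((vp T v).eval x + (mS T).eval x * a) b) x
        ((pl ω.1).eval x) (ω.2 x) := by
    intro ω
    refine Finset.prod_congr rfl fun x _ => ?_
    rw [fam_eval]
  rw [Finset.sum_congr rfl fun ω _ => h1 ω, h, tot]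
  congr 1
  refine Finset.prod_congr rfl fun x hx => ?_
  have hxT : x ∉ T := Finset.disjoint_left.1 hT hx
  have hne := mS_eval_ne T x hxT
  have hb : Function.Bijective (fun a : k => (vp T v).eval x + (mS T).eval x * a) := by
    constructor
    · intro a b hab
      exact mul_left_cancel₀ hne (add_left_cancel hab)
    · intro c
      refine ⟨((mS T).eval x)⁻¹ * (c - (vp T v).eval x), ?_⟩
      change (vp T v).eval x + (mS T).eval x * (((mS T).eval x)⁻¹ * (c - (vp T v).eval x)) = c
      rw [mul_inv_cancel_left₀ hne]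
      ring
  have h2 : ∑ a, ∑ b, ψ x ((vp T v).eval x + (mS T).eval x * a) b = ∑ a, ∑ b, ψ x a b :=
    hb.sum_comp (fun a => ∑ b, ψ x a b)
  rw [h2]

private theorem mon_esg (T : Finset k) (v : k → k) {n : ℕ} (S : k → k → Bool → ℝ) (ω : Sp k n)
    (D : Finset {x : k // x ∉ T}) :
    mon D (esg T v S ω) = ∏ x ∈ D.map (Function.Embedding.subtype _),
      S x ((fam T v ω.1).eval x) (ω.2 x) := by
  rw [mon_eq_prod, Finset.prod_map]
  rfl

private theorem map_disj (T : Finset k) (D : Finset {x : k // x ∉ T}) :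
    Disjoint (D.map (Function.Embedding.subtype _)) T := by
  rw [Finset.disjoint_left]
  intro x hx
  rw [Finset.mem_map] at hx
  obtain ⟨y, _, rfl⟩ := hx
  exact y.2

theorem unb (T : Finset k) (v : k → k) (n : ℕ) (S : k → k → Bool → ℝ)
    (h0 : ∀ x, x ∉ T → ∑ a, ∑ b, S x a b = 0) (D : Finset {x : k // x ∉ T}) (hD : D.card ≤ n) :
    ∑ ω : Sp k n, mon D (esg T v S ω) = if D = ∅ then tot k n else 0 := by
  rw [Finset.sum_congr rfl fun ω _ => mon_esg T v S ω D,
    sum_fam T v n (D.map (Function.Embedding.subtype _)) (map_disj T D)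
      (by rw [Finset.card_map]; exact hD) S, Finset.prod_map]
  by_cases hD0 : D = ∅
  · subst hD0
    simp
  · obtain ⟨y, hy⟩ := Finset.nonempty_iff_ne_empty.2 hD0
    rw [if_neg hD0, Finset.prod_eq_zero hy, mul_zero]
    change (∑ a, ∑ b, S (y : k) a b) / (2 * (Fintype.card k : ℝ)) = 0
    rw [h0 y y.2, zero_div]

theorem unb0 (T : Finset k) (v : k → k) (n : ℕ) (S : k → k → Bool → ℝ)
    (h0 : ∀ x, x ∉ T → ∑ a, ∑ b, S x a b = 0) (h1 : ∀ x, x ∉ T → ∑ b, S x 0 b = 0)
    (y z : {x : k // x ∉ T}) (D : Finset {x : k // x ∉ T}) (hD : D.card + 2 ≤ n) :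
    ∑ ω : Sp k n, ((if (fam T v ω.1).eval (y : k) = 0 then (1 : ℝ) else 0) *
      (if (fam T v ω.1).eval (z : k) = 0 then (1 : ℝ) else 0)) * mon D (esg T v S ω) =
      if D = ∅ then tot k n * (if y = z then 1 / (Fintype.card k : ℝ)
        else 1 / (Fintype.card k : ℝ) ^ 2) else 0 := by
  classical
  set E : Finset {x : k // x ∉ T} := D ∪ {y, z} with hE
  have hEc : E.card ≤ n := by
    refine (Finset.card_union_le _ _).trans ?_
    have : ({y, z} : Finset {x : k // x ∉ T}).card ≤ 2 := Finset.card_le_two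
    omega
  set ψ : k → k → Bool → ℝ := fun x a b =>
    (if x = y ∨ x = z then (if a = 0 then 1 else 0) else 1) *
      (if x ∈ D.map (Function.Embedding.subtype _) then S x a b else 1) with hψ
  have hmem : ∀ x : {x : k // x ∉ T},
      ((x : k) ∈ D.map (Function.Embedding.subtype _)) ↔ x ∈ D := by
    intro x
    rw [Finset.mem_map]
    constructor
    · rintro ⟨u, hu, hux⟩
      have : u = x := Subtype.ext hux
      exact this ▸ hu
    · intro hx
      exact ⟨x, hx, rfl⟩
  have hyz' : ∀ x : {x : k // x ∉ T}, ((x : k) = y ∨ (x : k) = z) ↔ (x = y ∨ x = z) := by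
    intro x
    constructor
    · rintro (h | h)
      · exact Or.inl (Subtype.ext h)
      · exact Or.inr (Subtype.ext h)
    · rintro (h | h)
      · exact Or.inl (congrArg _ h)
      · exact Or.inr (congrArg _ h)
  have hprod : ∀ ω : Sp k n, ((if (fam T v ω.1).eval (y : k) = 0 then (1 : ℝ) else 0) *
      (if (fam T v ω.1).eval (z : k) = 0 then (1 : ℝ) else 0)) * mon D (esg T v S ω) =
      ∏ x ∈ E.map (Function.Embedding.subtype _), ψ x ((fam T v ω.1).eval x) (ω.2 x) := by
    intro ω
    rw [Finset.prod_map]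
    simp only [hψ, Function.Embedding.coe_subtype]
    rw [Finset.prod_mul_distrib]
    congr 1
    · have h2 : ∏ x ∈ E, (if (x : k) = y ∨ (x : k) = z then
            (if (fam T v ω.1).eval (x : k) = 0 then (1 : ℝ) else 0) else 1)
          = ∏ x ∈ ({y, z} : Finset {x : k // x ∉ T}),
            (if (fam T v ω.1).eval (x : k) = 0 then (1 : ℝ) else 0) := by
        rw [← Finset.prod_subset (s₁ := {y, z}) (s₂ := E) Finset.subset_union_right]
        · refine Finset.prod_congr rfl fun x hx => ?_
          rw [Finset.mem_insert, Finset.mem_singleton] at hx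
          rw [if_pos ((hyz' x).2 hx)]
        · intro x _ hx
          rw [Finset.mem_insert, Finset.mem_singleton] at hx
          rw [if_neg (fun h => hx ((hyz' x).1 h))]
      rw [h2]
      by_cases hyz : y = z
      · subst hyz
        simp
      · rw [Finset.prod_pair hyz]
    · rw [mon_eq_prod, ← Finset.prod_subset (s₁ := D) (s₂ := E) Finset.subset_union_left]
      · refine Finset.prod_congr rfl fun x hx => ?_
        rw [if_pos ((hmem x).2 hx)]
        rfl
      · intro x _ hx
        rw [if_neg (fun h => hx ((hmem x).1 h))]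
  rw [Finset.sum_congr rfl fun ω _ => hprod ω,
    sum_fam T v n (E.map (Function.Embedding.subtype _)) (map_disj T E)
      (by rw [Finset.card_map]; exact hEc) ψ, Finset.prod_map]
  simp only [Function.Embedding.coe_subtype]
  have hq : (0 : ℝ) < Fintype.card k := by exact_mod_cast Fintype.card_pos
  by_cases hD0 : D = ∅
  · subst hD0
    rw [if_pos rfl]
    have hE2 : E = {y, z} := by rw [hE, Finset.empty_union]
    have h3 : ∀ x ∈ E, (∑ a, ∑ b, ψ (x : k) a b) / (2 * (Fintype.card k : ℝ)) =
        1 / (Fintype.card k : ℝ) := by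
      intro x hx
      rw [hE2, Finset.mem_insert, Finset.mem_singleton] at hx
      have hx' := (hyz' x).2 hx
      have : ∑ a, ∑ b, ψ (x : k) a b = 2 := by
        simp only [hψ]
        simp [hx']
      rw [this]
      field_simp
    rw [Finset.prod_congr rfl h3, Finset.prod_const, hE2]
    by_cases hyz : y = z
    · subst hyz
      simp
    · rw [Finset.card_pair hyz, if_neg hyz]
      congr 1
      ring
  · obtain ⟨u, hu⟩ := Finset.nonempty_iff_ne_empty.2 hD0
    rw [if_neg hD0, Finset.prod_eq_zero (i := u) (Finset.mem_union_left _ hu), mul_zero]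
    have hu' := (hmem u).2 hu
    have : ∑ a, ∑ b, ψ (u : k) a b = 0 := by
      simp only [hψ]
      by_cases huy : (u : k) = y ∨ (u : k) = z
      · simp only [huy, if_true, hu']
        have h4 : ∀ a : k, ∑ b, (if a = 0 then (1 : ℝ) else 0) * S u a b =
            if a = 0 then ∑ b, S u 0 b else 0 := by
          intro a
          by_cases ha : a = 0
          · subst ha
            simp
          · simp [ha]
        rw [Finset.sum_congr rfl fun a _ => h4 a, h1 u u.2]
        simp
      · simp only [huy, if_false, hu', if_true, one_mul]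
        exact h0 u u.2
    rw [this, zero_div]

end Pool.Agent.H45.VS
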