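import Pool.Agent.H45.VS.Frob

/-!
# The parity tool: the polynomial

`tp s a = X ^ s - X ^ 2 - C a` and `tq s a = X ^ (2 s) - X + C (a ^ s)`, `tt s a x₀` is their product
composed with `X - C x₀`.

PROOF (`s` odd, `s ≥ 3`, `a` not of the form `x ^ s - x ^ 2`; in particular `a ≠ 0`). Both are monic, of
degree `s` and `2 s`. For `y ∈ k`: `(tp s a).eval y ≠ 0` and
`(tq s a).eval y = y ^ (2 s) - y + a ^ s = (y ^ 2 - y ^ s + a) ^ s = - ((tp s a).eval y) ^ s` (`s` odd,
`pow_ss`), so the product at `y` is `- ((tp s a).eval y) ^ (s + 1)`, a nonzero element of `Fx`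
(`norm_mem`, `Fx_neg`).
Squarefree: `derivative (tp s a) = - 2 X` (`cast_s`), and
`- C a = tp s a - X * (X ^ (s - 1) - X)`, so `tp` and its derivative are coprime (`a ≠ 0`, `2 ≠ 0`):
`Polynomial.Separable.squarefree`; `derivative (tq s a) = -1`, so `tq` is separable. Coprime to each other:
in `k[X]`, `(tp s a) ^ s = X ^ (s ^ 2) - X ^ (2 s) - C (a ^ s)` (`sub_pow_s` in `k[X]`), so
`tq s a = X ^ (s ^ 2) - X - (tp s a) ^ s`; and `tp s a` is coprime to
`X ^ card k - X = ∏ x, (X - C x)` (`prod_X_sub_C_univ` in `H35/VQ/Exact`) because it has no root in `k`.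
So the product is squarefree (`squarefree_mul_iff`-type lemma for coprime factors), and composition with
`X - C x₀` keeps this (it is a ring automorphism: `Polynomial.taylor`-like; or do everything directly
for the composed polynomials; or transport by `Polynomial.compRingHom`, `Polynomial.algEquivAevalXAddC`).
-/

namespace Pool.Agent.H45.VS

open Finset Polynomial Pool.Agent.H35.VQ

variable {k : Type} [Field k] [Fintype k] [DecidableEq k]

/-- first factor -/
noncomputable def tp (s : ℕ) (a : k) : k[X] := X ^ s - X ^ 2 - C a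

/-- second factor -/
noncomputable def tq (s : ℕ) (a : k) : k[X] := X ^ (2 * s) - X + C (a ^ s)

/-- the parity tool -/
noncomputable def tt (s : ℕ) (a x₀ : k) : k[X] := (tp s a * tq s a).comp (X - C x₀)

private theorem s_odd (hk : (2 : k) ≠ 0) (s : ℕ) (hs : Fintype.card k = s ^ 2) : Odd s := by
  rcases Nat.even_or_odd s with h | h
  · exfalso
    apply hk
    obtain ⟨p, j, hp, hc, rfl, hj⟩ := exists_p s hs
    have h2 : 2 ∣ p := Nat.prime_two.dvd_of_dvd_pow h.two_dvd
    have h3 : p = 2 := ((Nat.prime_dvd_prime_iff_eq Nat.prime_two hp).1 h2).symm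
    subst h3
    have := CharP.cast_eq_zero k 2
    exact_mod_cast this
  · exact h

private theorem three_le (hk : (2 : k) ≠ 0) (s : ℕ) (hs : Fintype.card k = s ^ 2) : 3 ≤ s := by
  obtain ⟨m, hm⟩ := s_odd hk s hs
  have := two_le_s s hs
  omega

omit [Fintype k] [DecidableEq k] in
private theorem tp_monic (s : ℕ) (h3 : 3 ≤ s) (a : k) : (tp s a).Monic ∧ (tp s a).natDegree = s := by
  have h : tp s a = X ^ s + (-X ^ 2 - C a) := by rw [tp]; ring
  have hd : (-X ^ 2 - C a : k[X]).degree < (s : WithBot ℕ) := by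
    have h1 : (-X ^ 2 - C a : k[X]).degree ≤ (2 : ℕ) := by
      refine (degree_sub_le _ _).trans (max_le ?_ ?_)
      · rw [degree_neg]
        exact degree_X_pow_le 2
      · exact (degree_C_le).trans (by norm_num)
    exact h1.trans_lt (by exact_mod_cast h3)
  rw [h]
  refine ⟨monic_X_pow_add hd, ?_⟩
  rw [natDegree_add_eq_left_of_degree_lt (by rw [degree_X_pow]; exact hd), natDegree_X_pow]

omit [Fintype k] [DecidableEq k] in
private theorem tq_monic (s : ℕ) (h3 : 3 ≤ s) (a : k) :
    (tq s a).Monic ∧ (tq s a).natDegree = 2 * s := by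
  have h : tq s a = X ^ (2 * s) + (-X + C (a ^ s)) := by rw [tq]; ring
  have hd : (-X + C (a ^ s) : k[X]).degree < ((2 * s : ℕ) : WithBot ℕ) := by
    have h1 : (-X + C (a ^ s) : k[X]).degree ≤ (1 : ℕ) := by
      refine (degree_add_le _ _).trans (max_le ?_ ?_)
      · rw [degree_neg]
        exact degree_X_le
      · exact (degree_C_le).trans (by norm_num)
    refine h1.trans_lt ?_
    have : 1 < 2 * s := by omega
    exact_mod_cast this
  rw [h]
  refine ⟨monic_X_pow_add hd, ?_⟩
  rw [natDegree_add_eq_left_of_degree_lt (by rw [degree_X_pow]; exact hd), natDegree_X_pow]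

theorem tt_monic (hk : (2 : k) ≠ 0) (s : ℕ) (hs : Fintype.card k = s ^ 2) (a x₀ : k) :
    (tt s a x₀).Monic := by
  have h3 := three_le hk s hs
  refine ((tp_monic s h3 a).1.mul (tq_monic s h3 a).1).comp (monic_X_sub_C x₀) ?_
  rw [natDegree_X_sub_C]
  exact one_ne_zero

theorem tt_natDegree (hk : (2 : k) ≠ 0) (s : ℕ) (hs : Fintype.card k = s ^ 2) (a x₀ : k) :
    (tt s a x₀).natDegree = 3 * s := by
  have h3 := three_le hk s hs
  rw [tt, natDegree_comp, natDegree_X_sub_C, mul_one,
    (tp_monic s h3 a).1.natDegree_mul (tq_monic s h3 a).1, (tp_monic s h3 a).2,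
    (tq_monic s h3 a).2]
  ring

omit [Fintype k] [DecidableEq k] in
private theorem tp_eval (s : ℕ) (a y : k) : (tp s a).eval y = y ^ s - y ^ 2 - a := by
  simp [tp]

private theorem tq_eval (s : ℕ) (hs : Fintype.card k = s ^ 2) (a y : k) :
    (tq s a).eval y = -((tp s a).eval y) ^ s := by
  rw [tp_eval, sub_pow_s s hs (A := k), sub_pow_s s hs (A := k), pow_ss s hs, tq]
  simp only [eval_add, eval_sub, eval_pow, eval_X, eval_C]
  rw [← pow_mul]
  ring

private theorem tt_eval (s : ℕ) (hs : Fintype.card k = s ^ 2) (a x₀ x : k) :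
    (tt s a x₀).eval x = -((tp s a).eval (x - x₀)) ^ (s + 1) := by
  rw [tt, eval_comp]
  simp only [eval_sub, eval_X, eval_C, eval_mul]
  rw [tq_eval s hs]
  ring

theorem tt_eval_ne (hk : (2 : k) ≠ 0) (s : ℕ) (hs : Fintype.card k = s ^ 2) (a x₀ : k)
    (ha : ∀ x : k, x ^ s - x ^ 2 ≠ a) (x : k) : (tt s a x₀).eval x ≠ 0 := by
  rw [tt_eval s hs]
  apply neg_ne_zero.2
  apply pow_ne_zero
  rw [tp_eval]
  exact sub_ne_zero.2 (ha _)

theorem tt_eval_mem (hk : (2 : k) ≠ 0) (s : ℕ) (hs : Fintype.card k = s ^ 2) (a x₀ : k)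
    (x : k) : (tt s a x₀).eval x ∈ Fx k s := by
  rw [tt_eval s hs]
  exact Fx_neg s hs (norm_mem s hs _)

omit [Fintype k] [DecidableEq k] in
private theorem sep_comp (f : k[X]) (hf : f.Separable) (x₀ : k) :
    (f.comp (X - C x₀)).Separable := by
  have h : IsCoprime ((compRingHom (X - C x₀ : k[X])) f)
      ((compRingHom (X - C x₀ : k[X])) (derivative f)) :=
    IsCoprime.map hf (compRingHom (X - C x₀ : k[X]))
  have h2 : derivative (f.comp (X - C x₀)) = (derivative f).comp (X - C x₀) := by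
    rw [derivative_comp]
    simp
  rw [Separable, h2]
  exact h

private theorem tp_sep (hk : (2 : k) ≠ 0) (s : ℕ) (hs : Fintype.card k = s ^ 2) (a : k)
    (ha : a ≠ 0) : (tp s a).Separable := by
  have h3 := three_le hk s hs
  have hd : derivative (tp s a) = -(C 2 * X) := by
    rw [tp, derivative_sub, derivative_sub, derivative_C, derivative_X_pow, derivative_X_pow,
      cast_s s hs]
    simp
  rw [Separable, hd]
  obtain ⟨m, rfl⟩ : ∃ m, s = m + 1 := ⟨s - 1, by omega⟩
  refine ⟨-C a⁻¹, -C a⁻¹ * C (2 : k)⁻¹ * (X ^ m - X), ?_⟩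
  have e1 : (C a⁻¹ * C a : k[X]) = 1 := by rw [← C_mul, inv_mul_cancel₀ ha, C_1]
  have e2 : (C (2 : k)⁻¹ * C 2 : k[X]) = 1 := by rw [← C_mul, inv_mul_cancel₀ hk, C_1]
  rw [tp]
  linear_combination e1 + (C a⁻¹ * (X ^ m - X) * X) * e2

private theorem tq_sep (s : ℕ) (hs : Fintype.card k = s ^ 2) (a : k) :
    (tq s a).Separable := by
  have hd : derivative (tq s a) = -1 := by
    rw [tq, derivative_add, derivative_sub, derivative_C, derivative_X_pow, derivative_X,
      Nat.cast_mul, cast_s s hs]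
    simp
  rw [Separable, hd]
  exact ⟨0, -1, by ring⟩

private theorem tp_tq (hk : (2 : k) ≠ 0) (s : ℕ) (hs : Fintype.card k = s ^ 2) (a : k)
    (ha : ∀ x : k, x ^ s - x ^ 2 ≠ a) : IsCoprime (tp s a) (tq s a) := by
  have h3 := three_le hk s hs
  have h1 : IsCoprime (tp s a) (X ^ Fintype.card k - X) := by
    rw [← prod_X_sub_C_univ]
    apply IsCoprime.prod_right
    intro x _
    apply IsCoprime.symm
    rw [(irreducible_X_sub_C x).coprime_iff_not_dvd, dvd_iff_isRoot, IsRoot.def, tp_eval]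
    exact sub_ne_zero.2 (ha x)
  have h2 : tq s a = (X ^ Fintype.card k - X) + tp s a * (-(tp s a) ^ (s - 1)) := by
    have h4 : tp s a * (-(tp s a) ^ (s - 1)) = -(tp s a) ^ s := by
      rw [mul_neg, ← pow_succ', Nat.sub_add_cancel (by omega)]
    have h5 : (tp s a) ^ s = X ^ (s ^ 2) - X ^ (2 * s) - C (a ^ s) := by
      rw [tp, sub_pow_s s hs (A := k[X]), sub_pow_s s hs (A := k[X]), ← pow_mul, ← pow_mul,
        C_pow, sq s]
    rw [h4, h5, hs, tq]
    ring
  rw [h2]
  exact h1.add_mul_left_right _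

theorem tt_squarefree (hk : (2 : k) ≠ 0) (s : ℕ) (hs : Fintype.card k = s ^ 2) (a x₀ : k)
    (ha : ∀ x : k, x ^ s - x ^ 2 ≠ a) : Squarefree (tt s a x₀) := by
  have h3 := three_le hk s hs
  have ha0 : a ≠ 0 := by
    intro h
    apply ha 0
    rw [h, zero_pow (by omega), zero_pow two_ne_zero, sub_zero]
  exact (sep_comp _ ((tp_sep hk s hs a ha0).mul (tq_sep s hs a) (tp_tq hk s hs a ha))
    x₀).squarefree

end Pool.Agent.H45.VS
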