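import Pool.Agent.H45.VS.TMiss
import Pool.Agent.H45.VS.TPol

/-!
# The parity tool can be chosen coprime to a given polynomial

PROOF. Let `K` be the algebraic closure of `k`, `q = s ^ 2`, `A` the set of the `a` not of the form
`x ^ s - x ^ 2`, `s |A| ≥ q - 1` (`card_missed`). Suppose `tt s a x₀` is not coprime to `f` for all `a ∈ A`,
`x₀ ∈ k`. Then for every pair `(a, x₀)` there is a common root `ρ ∈ K` of `f` and `tt s a x₀`
(`Polynomial.isCoprime_iff_aeval_ne_zero_of_isAlgClosed`): `(tp s a)(ρ - x₀) = 0` (type 1) or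
`(tq s a)(ρ - x₀) = 0` (type 2). CLAIM: `(ρ, type)` determines `(a, x₀)`. Hence
`q |A| ≤ 2 natDegree f` (the number of roots of `f` in `K` is at most its degree,
`Polynomial.card_roots'`, `Multiset.toFinset_card_le`), but `q |A| s ≥ q (q - 1)` and
`q (q - 1) / s ≥ q (s - 1)`: precisely `2 natDegree f < q (s - 1)` and `s (s - 1) ≤ q - 1 ≤ s |A|` give
`2 natDegree f < q |A|`. Contradiction.
CLAIM, type 1: `y = ρ - x₀` satisfies `y ^ s - y ^ 2 = a`. Raise to the power `q`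
(`(·) ^ q` is additive on `K`: `add_pow_s` twice, `a ^ q = a`, `x₀ ^ q = x₀` by `FiniteField.pow_card`):
`(y ^ q) ^ s - (y ^ q) ^ 2 = a`, and `y ^ q = ρ ^ q - x₀ = y + δ`, `δ = ρ ^ q - ρ`. Subtract:
`δ ^ s - 2 y δ - δ ^ 2 = 0`. `δ ≠ 0`, otherwise `ρ ∈ k` (`mem_of_pow_card` in `H35/VQ/Exact`) and
`tt s a x₀` has a root in `k` (`tt_eval_ne`). So `y = (δ ^ s - δ ^ 2) / (2 δ)` depends on `ρ` only, and so do
`x₀ = ρ - y` and `a = y ^ s - y ^ 2`.
Type 2: `y ^ (2 s) - y + a ^ s = 0`, again `(y + δ) ^ (2 s) - (y + δ) + a ^ s = 0`,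
`(y + δ) ^ (2 s) = (y ^ s + δ ^ s) ^ 2`, so `2 y ^ s δ ^ s + δ ^ (2 s) - δ = 0`: `y ^ s` depends on `ρ`
only, hence `y` (`y ^ s = y' ^ s` gives `(y - y') ^ s = 0`), `x₀`, `a ^ s` and `a` (same argument).
-/

namespace Pool.Agent.H45.VS

open Finset Polynomial Pool.Agent.H35.VQ

variable {k : Type} [Field k] [Fintype k] [DecidableEq k]

set_option linter.unusedSectionVars false

/-- the two types of roots -/
private def ty1 (K : Type) [Field K] [Algebra k K] (s : ℕ) (ρ : K) (a x₀ : k) : Prop :=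
  (ρ - algebraMap k K x₀) ^ s - (ρ - algebraMap k K x₀) ^ 2 = algebraMap k K a

private def ty2 (K : Type) [Field K] [Algebra k K] (s : ℕ) (ρ : K) (a x₀ : k) : Prop :=
  (ρ - algebraMap k K x₀) ^ (2 * s) - (ρ - algebraMap k K x₀) + algebraMap k K a ^ s = 0

private lemma sub_pow_q (s : ℕ) (hs : Fintype.card k = s ^ 2) {K : Type} [Field K] [Algebra k K]
    (x y : K) : (x - y) ^ (s ^ 2) = x ^ (s ^ 2) - y ^ (s ^ 2) := by
  rw [pow_two s, pow_mul, sub_pow_s s hs, sub_pow_s s hs, ← pow_mul, ← pow_mul]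

private lemma add_pow_q (s : ℕ) (hs : Fintype.card k = s ^ 2) {K : Type} [Field K] [Algebra k K]
    (x y : K) : (x + y) ^ (s ^ 2) = x ^ (s ^ 2) + y ^ (s ^ 2) := by
  rw [pow_two s, pow_mul, add_pow_s s hs, add_pow_s s hs, ← pow_mul, ← pow_mul]

private lemma map_pow_q (s : ℕ) (hs : Fintype.card k = s ^ 2) {K : Type} [Field K] [Algebra k K]
    (x : k) : algebraMap k K x ^ (s ^ 2) = algebraMap k K x := by
  rw [← map_pow, ← hs, FiniteField.pow_card]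

private lemma y_pow_q (s : ℕ) (hs : Fintype.card k = s ^ 2) {K : Type} [Field K] [Algebra k K]
    (ρ : K) (x₀ : k) : (ρ - algebraMap k K x₀) ^ (s ^ 2) =
      (ρ - algebraMap k K x₀) + (ρ ^ (s ^ 2) - ρ) := by
  rw [sub_pow_q s hs, map_pow_q s hs]
  ring

private lemma two_ne (hk : (2 : k) ≠ 0) {K : Type} [Field K] [Algebra k K] : (2 : K) ≠ 0 := by
  intro h
  apply hk
  have : algebraMap k K 2 = 0 := by rw [map_ofNat]; exact h
  exact (map_eq_zero (algebraMap k K)).1 this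

private lemma key1 (s : ℕ) (hs : Fintype.card k = s ^ 2) {K : Type} [Field K] [Algebra k K]
    (ρ : K) (a x₀ : k) (h : ty1 K s ρ a x₀) :
    2 * (ρ - algebraMap k K x₀) * (ρ ^ (s ^ 2) - ρ) =
      (ρ ^ (s ^ 2) - ρ) ^ s - (ρ ^ (s ^ 2) - ρ) ^ 2 := by
  unfold ty1 at h
  set y := ρ - algebraMap k K x₀ with hy
  set δ := ρ ^ (s ^ 2) - ρ with hδ
  have h1 : y ^ (s ^ 2) = y + δ := y_pow_q s hs ρ x₀
  have h2 : (y ^ s - y ^ 2) ^ (s ^ 2) = algebraMap k K a := by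
    rw [h, map_pow_q s hs]
  rw [sub_pow_q s hs, ← pow_mul, ← pow_mul, mul_comm s, mul_comm 2, pow_mul, pow_mul, h1,
    add_pow_s s hs] at h2
  linear_combination h - h2

private lemma key2 (s : ℕ) (hs : Fintype.card k = s ^ 2) {K : Type} [Field K] [Algebra k K]
    (ρ : K) (a x₀ : k) (h : ty2 K s ρ a x₀) :
    2 * (ρ - algebraMap k K x₀) ^ s * (ρ ^ (s ^ 2) - ρ) ^ s =
      (ρ ^ (s ^ 2) - ρ) - ((ρ ^ (s ^ 2) - ρ) ^ s) ^ 2 := by
  unfold ty2 at h
  set y := ρ - algebraMap k K x₀ with hy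
  set δ := ρ ^ (s ^ 2) - ρ with hδ
  have h1 : y ^ (s ^ 2) = y + δ := y_pow_q s hs ρ x₀
  have hs2 := two_le_s s hs
  have h2 : (y ^ (2 * s) - y + algebraMap k K a ^ s) ^ (s ^ 2) = 0 := by
    rw [h]
    exact zero_pow (by positivity)
  have e1 : (y ^ (2 * s)) ^ (s ^ 2) = ((y ^ (s ^ 2)) ^ s) ^ 2 := by ring
  have e2 : (algebraMap k K a ^ s) ^ (s ^ 2) = (algebraMap k K a ^ (s ^ 2)) ^ s := by ring
  rw [add_pow_q s hs, sub_pow_q s hs, e1, e2, h1, map_pow_q s hs, add_pow_s s hs] at h2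
  have h3 : (y ^ s) ^ 2 - y + algebraMap k K a ^ s = 0 := by
    rw [← pow_mul, mul_comm s 2]
    exact h
  linear_combination h2 - h3

private lemma uniq1 (hk : (2 : k) ≠ 0) (s : ℕ) (hs : Fintype.card k = s ^ 2) {K : Type} [Field K]
    [Algebra k K] (ρ : K) (hρ : ρ ^ (s ^ 2) - ρ ≠ 0) {a x₀ a' x₁ : k} (h : ty1 K s ρ a x₀)
    (h' : ty1 K s ρ a' x₁) : a = a' ∧ x₀ = x₁ := by
  have e := key1 s hs ρ a x₀ h
  have e' := key1 s hs ρ a' x₁ h'
  have e2 : 2 * (ρ - algebraMap k K x₀) * (ρ ^ (s ^ 2) - ρ) =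
      2 * (ρ - algebraMap k K x₁) * (ρ ^ (s ^ 2) - ρ) := e.trans e'.symm
  have e3 := mul_left_cancel₀ (two_ne hk) (mul_right_cancel₀ hρ e2)
  have e4 : x₀ = x₁ := (algebraMap k K).injective (by linear_combination -e3)
  refine ⟨?_, e4⟩
  unfold ty1 at h h'
  rw [e4] at h
  exact (algebraMap k K).injective (h.symm.trans h')

private lemma uniq2 (hk : (2 : k) ≠ 0) (s : ℕ) (hs : Fintype.card k = s ^ 2) {K : Type} [Field K]
    [Algebra k K] (ρ : K) (hρ : ρ ^ (s ^ 2) - ρ ≠ 0) {a x₀ a' x₁ : k} (h : ty2 K s ρ a x₀)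
    (h' : ty2 K s ρ a' x₁) : a = a' ∧ x₀ = x₁ := by
  have e := key2 s hs ρ a x₀ h
  have e' := key2 s hs ρ a' x₁ h'
  have e2 : 2 * (ρ - algebraMap k K x₀) ^ s * (ρ ^ (s ^ 2) - ρ) ^ s =
      2 * (ρ - algebraMap k K x₁) ^ s * (ρ ^ (s ^ 2) - ρ) ^ s := e.trans e'.symm
  have e3 := mul_left_cancel₀ (two_ne hk) (mul_right_cancel₀ (pow_ne_zero s hρ) e2)
  have hs2 := two_le_s s hs
  have e5 : ((ρ - algebraMap k K x₀) - (ρ - algebraMap k K x₁)) ^ s = 0 := by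
    rw [sub_pow_s s hs, e3, sub_self]
  have e6 : (ρ - algebraMap k K x₀) - (ρ - algebraMap k K x₁) = 0 :=
    pow_eq_zero_iff (by omega) |>.1 e5
  have e4 : x₀ = x₁ := (algebraMap k K).injective (by linear_combination -e6)
  refine ⟨?_, e4⟩
  unfold ty2 at h h'
  rw [e4] at h
  have e7 : algebraMap k K a ^ s = algebraMap k K a' ^ s := by linear_combination h - h'
  have e8 : a ^ s = a' ^ s := (algebraMap k K).injective (by rw [map_pow, map_pow]; exact e7)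
  rw [← pow_ss s hs a, e8, pow_ss s hs a']

private lemma tt_aeval (s : ℕ) (a x₀ : k) {K : Type} [Field K] [Algebra k K] (ρ : K)
    (h : aeval ρ (tt s a x₀) = 0) : ty1 K s ρ a x₀ ∨ ty2 K s ρ a x₀ := by
  unfold tt tp tq at h
  rw [Polynomial.aeval_comp] at h
  simp only [map_mul, map_sub, map_add, map_pow, aeval_X, aeval_C] at h
  rcases mul_eq_zero.1 h with h | h
  · left
    unfold ty1
    linear_combination h
  · right
    unfold ty2
    exact h

private lemma rho_ne (hk : (2 : k) ≠ 0) (s : ℕ) (hs : Fintype.card k = s ^ 2) (a x₀ : k)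
    (ha : ∀ x : k, x ^ s - x ^ 2 ≠ a) {K : Type} [Field K] [Algebra k K] (ρ : K)
    (h : aeval ρ (tt s a x₀) = 0) : ρ ^ (s ^ 2) - ρ ≠ 0 := by
  intro h0
  rw [← hs] at h0
  obtain ⟨x, rfl⟩ := mem_of_pow_card K ρ h0
  rw [Polynomial.aeval_algebraMap_apply, Polynomial.coe_aeval_eq_eval] at h
  exact tt_eval_ne hk s hs a x₀ ha x ((map_eq_zero (algebraMap k K)).1 h)

private lemma card_type {K : Type} (R : Finset K) (Q : Finset (k × k)) (P : K → k → k → Prop)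
    (hP : ∀ ρ a x₀ a' x₁, P ρ a x₀ → P ρ a' x₁ → a = a' ∧ x₀ = x₁)
    (hQ : ∀ z ∈ Q, ∃ ρ ∈ R, P ρ z.1 z.2) : Q.card ≤ R.card := by
  classical
  rcases Q.eq_empty_or_nonempty with h0 | ⟨z0, hz0⟩
  · rw [h0, Finset.card_empty]
    exact Nat.zero_le _
  obtain ⟨ρ0, _⟩ := hQ z0 hz0
  have : Nonempty K := ⟨ρ0⟩
  choose! g hg hp using hQ
  refine Finset.card_le_card_of_injOn g (fun z hz => hg z hz) ?_
  intro z hz z' hz' e
  have h1 := hp z hz
  have h2 := hp z' hz'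
  rw [← e] at h2
  obtain ⟨e1, e2⟩ := hP _ _ _ _ _ h1 h2
  exact Prod.ext e1 e2

theorem exists_tool (hk : (2 : k) ≠ 0) (s : ℕ) (hs : Fintype.card k = s ^ 2) (f : k[X])
    (hf : f ≠ 0) (hd : 2 * f.natDegree < Fintype.card k * (s - 1)) :
    ∃ T : k[X], T.Monic ∧ T.natDegree = 3 * s ∧ Squarefree T ∧ IsCoprime T f ∧
      ∀ x : k, T.eval x ≠ 0 ∧ T.eval x ∈ Fx k s := by
  classical
  set A := Finset.univ.filter fun a : k => ∀ x : k, x ^ s - x ^ 2 ≠ a with hA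
  have hcard := card_missed hk s hs
  rw [← hA] at hcard
  have hs2 := two_le_s s hs
  by_contra hcon
  have hnc : ∀ a ∈ A, ∀ x₀ : k, ¬ IsCoprime (tt s a x₀) f := by
    intro a ha x₀ hc
    have ha' : ∀ x : k, x ^ s - x ^ 2 ≠ a := (Finset.mem_filter.1 ha).2
    exact hcon ⟨tt s a x₀, tt_monic hk s hs a x₀, tt_natDegree hk s hs a x₀,
      tt_squarefree hk s hs a x₀ ha', hc,
      fun x => ⟨tt_eval_ne hk s hs a x₀ ha' x, tt_eval_mem hk s hs a x₀ x⟩⟩
  let K := AlgebraicClosure k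
  set R : Finset K := (f.map (algebraMap k K)).roots.toFinset with hR
  have hRc : R.card ≤ f.natDegree := by
    calc R.card ≤ Multiset.card (f.map (algebraMap k K)).roots := Multiset.toFinset_card_le _
      _ ≤ (f.map (algebraMap k K)).natDegree := Polynomial.card_roots' _
      _ = f.natDegree := Polynomial.natDegree_map _
  have hroot : ∀ z ∈ A ×ˢ (Finset.univ : Finset k), ∃ ρ ∈ R, ρ ^ (s ^ 2) - ρ ≠ 0 ∧
      (ty1 K s ρ z.1 z.2 ∨ ty2 K s ρ z.1 z.2) := by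
    intro z hz
    have hz1 : z.1 ∈ A := (Finset.mem_product.1 hz).1
    have hn := hnc z.1 hz1 z.2
    rw [Polynomial.isCoprime_iff_aeval_ne_zero_of_isAlgClosed k K] at hn
    push Not at hn
    obtain ⟨ρ, h1, h2⟩ := hn
    refine ⟨ρ, ?_, rho_ne hk s hs z.1 z.2 (Finset.mem_filter.1 hz1).2 ρ h1, tt_aeval s _ _ ρ h1⟩
    rw [hR, Multiset.mem_toFinset, Polynomial.mem_roots (by
      rw [Ne, Polynomial.map_eq_zero]; exact hf), Polynomial.IsRoot.def,
      Polynomial.eval_map_algebraMap]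
    exact h2
  set Q1 := (A ×ˢ (Finset.univ : Finset k)).filter fun z =>
    ∃ ρ ∈ R, ρ ^ (s ^ 2) - ρ ≠ 0 ∧ ty1 K s ρ z.1 z.2 with hQ1
  set Q2 := (A ×ˢ (Finset.univ : Finset k)).filter fun z =>
    ∃ ρ ∈ R, ρ ^ (s ^ 2) - ρ ≠ 0 ∧ ty2 K s ρ z.1 z.2 with hQ2
  have hsub : A ×ˢ (Finset.univ : Finset k) ⊆ Q1 ∪ Q2 := by
    intro z hz
    obtain ⟨ρ, h1, h2, h3⟩ := hroot z hz
    rcases h3 with h3 | h3
    · exact Finset.mem_union_left _ (Finset.mem_filter.2 ⟨hz, ρ, h1, h2, h3⟩)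
    · exact Finset.mem_union_right _ (Finset.mem_filter.2 ⟨hz, ρ, h1, h2, h3⟩)
  have c1 : Q1.card ≤ R.card := by
    refine card_type R Q1 (fun ρ a x₀ => ρ ^ (s ^ 2) - ρ ≠ 0 ∧ ty1 K s ρ a x₀) ?_ ?_
    · intro ρ a x₀ a' x₁ h h'
      exact uniq1 hk s hs ρ h.1 h.2 h'.2
    · intro z hz
      exact (Finset.mem_filter.1 hz).2
  have c2 : Q2.card ≤ R.card := by
    refine card_type R Q2 (fun ρ a x₀ => ρ ^ (s ^ 2) - ρ ≠ 0 ∧ ty2 K s ρ a x₀) ?_ ?_
    · intro ρ a x₀ a' x₁ h h'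
      exact uniq2 hk s hs ρ h.1 h.2 h'.2
    · intro z hz
      exact (Finset.mem_filter.1 hz).2
  have c3 : A.card * Fintype.card k ≤ 2 * f.natDegree := by
    calc A.card * Fintype.card k = (A ×ˢ (Finset.univ : Finset k)).card := by
          rw [Finset.card_product, Finset.card_univ]
      _ ≤ (Q1 ∪ Q2).card := Finset.card_le_card hsub
      _ ≤ Q1.card + Q2.card := Finset.card_union_le _ _
      _ ≤ R.card + R.card := Nat.add_le_add c1 c2
      _ ≤ f.natDegree + f.natDegree := Nat.add_le_add hRc hRc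
      _ = 2 * f.natDegree := by ring
  have c4 : s - 1 ≤ A.card := by
    by_contra hlt
    push Not at hlt
    rw [hs] at hcard
    obtain ⟨m, rfl⟩ : ∃ m, s = m + 1 := ⟨s - 1, by omega⟩
    have h1 : A.card + 1 ≤ m := by simpa using hlt
    have h2 : (m + 1) * A.card + (m + 1) ≤ (m + 1) * m := by
      calc (m + 1) * A.card + (m + 1) = (m + 1) * (A.card + 1) := by ring
        _ ≤ (m + 1) * m := Nat.mul_le_mul_left _ h1
    have h3 : (m + 1) ^ 2 = (m + 1) * m + (m + 1) := by ring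
    omega
  have c5 : Fintype.card k * (s - 1) ≤ A.card * Fintype.card k := by
    rw [mul_comm]
    exact Nat.mul_le_mul_right _ c4
  omega

end Pool.Agent.H45.VS
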