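import Pool.Agent.H45.VS.Base
import Pool.Agent.H45.VS.Pat
import Pool.Agent.H45.VS.TRoot
import Pool.Agent.H45.VS.Comb
import Pool.Agent.H45.VS.AsmO
import Pool.Agent.H45.VS.Num

/-!
# Odd characteristic

PROOF. `300000 ≤ s` (as in `num_base`), `j` from `choose_j`, `g₀ = g - (j + 3) / 2 * s` (`j + 3` is even, so
`2 g₀ + (j + 3) s = 2 g`), `Y`, `b` from `comb_odd` with `Φ = Fx k s` (`card_Fx`), `T` the set of the `x` with
`x ^ s + x ∈ Y`, `|T| = K = (2 j + 3) s` (`card_lines`). `num_base` with this `K`. `v` from `exists_pat` with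
`F = chi`, `u = 1`, `w` a nonsquare (`chi_one`, `exists_nonsq` of `H35/VQ/Exact2`), `b` odd and `s` odd (`odd_s`).
`T₀ = N - (s ^ 2 + 1)`, `t = T₀ - √s / 2`; `base_odd` gives `f₀`, `|S - t| ≤ √s / 2`, `S = ∑ x ∈ Tᶜ, chi (f₀ x)`, an
integer (`chi` is the cast of `quadraticChar`). So the integer `Δ = T₀ - S` satisfies `0 ≤ Δ ≤ √s ≤ 2 ^ j`
(`s ≤ 4 ^ j`).
If `Δ` is odd: `m = (Δ + j) / 2 < 2 ^ j` (`j + 1 < 2 ^ j`..: `Δ + j ≤ 2 ^ j + j < 2 * 2 ^ j`, `Nat.lt_two_pow_self`), `Z`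
with `|Z| = j + 3` from `comb_odd`, `odd_assemble` with `T = 1`. If `Δ` is even: `m = (Δ + j - 1) / 2`, `Z` with
`|Z| = j`, `odd_assemble` with the tool of `exists_tool` (`2 (2 g₀ + 1) < s ^ 2 (s - 1)` since `g₀ < s ^ 2`, `s ≥ 6`).
In both cases the sum over the `x` with `x ^ s + x ∉ Z` is `S + ∑ c ∈ Y \ Z, b c = S + Δ = T₀` by `sum_split`, because
`f₀ = v` on `T` (for `c ∈ Y \ Z`, `x ∈ ln s c` we have `x ∈ T`; `Y ⊆ Fx k s`). Hence `N = q + 1 + T₀`.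
-/

namespace Pool.Agent.H45.VS

open Finset Polynomial Pool.Agent.H35.VQ

variable {k : Type} [Field k] [Fintype k] [DecidableEq k]

private theorem chi_int (z : k) : chi z = ((quadraticChar k z : ℤ) : ℝ) := rfl

/-- the end of the argument: the sum over the points outside the killed lines -/
private theorem sum_end (s : ℕ) (f0 : k[X]) (v : k → k) (b : k → ℤ) (Y Z : Finset k) (hZ : Z ⊆ Y)
    (hYF : Y ⊆ Fx k s)
    (hv : ∀ c ∈ Fx k s, ∑ x ∈ ln s c, chi (v x) = (b c : ℝ))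
    (hf : ∀ x ∈ Finset.univ.filter (fun x : k => x ^ s + x ∈ Y), f0.eval x = v x) :
    ∑ x ∈ Finset.univ.filter (fun x : k => x ^ s + x ∉ Z), chi (f0.eval x) =
      ∑ x ∈ (Finset.univ.filter (fun x : k => x ^ s + x ∈ Y))ᶜ, chi (f0.eval x) +
        ((∑ c ∈ Y \ Z, b c : ℤ) : ℝ) := by
  rw [sum_split s (fun x => chi (f0.eval x)) Y Z hZ]
  congr 1
  rw [Int.cast_sum]
  refine Finset.sum_congr rfl fun c hc => ?_
  have hcY : c ∈ Y := (Finset.mem_sdiff.1 hc).1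
  rw [← hv c (hYF hcY)]
  refine Finset.sum_congr rfl fun x hx => ?_
  have hx' : x ^ s + x = c := (mem_ln s c x).1 hx
  rw [hf x (by
    rw [Finset.mem_filter]
    exact ⟨Finset.mem_univ _, by rw [hx']; exact hcY⟩)]

theorem final_odd (hk : (2 : k) ≠ 0) (s : ℕ) (hs : Fintype.card k = s ^ 2) (g : ℕ)
    (hg : 300000 * s * (Nat.log 2 s + 1) ≤ g) (hgq : g < s ^ 2) (N : ℕ)
    (hN : |(N : ℝ) - (s ^ 2 + 1)| ≤ √((g : ℝ) * s ^ 2) / 4) : ∃ C : Hyp k g, C.numPoints = N := by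
  classical
  have hs2 : 2 ≤ s := two_le_s (k := k) s hs
  have hs300 : 300000 ≤ s := by
    by_contra hlt
    push Not at hlt
    have h1 : 300000 * s ≤ 300000 * s * (Nat.log 2 s + 1) := Nat.le_mul_of_pos_right _ (by omega)
    have h2 : 300000 * s < s ^ 2 := lt_of_le_of_lt (h1.trans hg) hgq
    have h3 : s * s < 300000 * s := Nat.mul_lt_mul_of_pos_right hlt (by omega)
    rw [pow_two] at h2
    omega
  obtain ⟨j, hjodd, hj3, hsj, hjs, hjlog⟩ := choose_j s hs300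
  obtain ⟨i, hi⟩ := hjodd
  have hL : 300000 * s * (Nat.log 2 s + 1) = 300000 * (s * (Nat.log 2 s + 1)) := by ring
  have hi2 : (i + 2) * s ≤ g := by
    have h1 : i + 2 ≤ 300000 * (Nat.log 2 s + 1) := by omega
    calc (i + 2) * s ≤ 300000 * (Nat.log 2 s + 1) * s := Nat.mul_le_mul_right _ h1
      _ = 300000 * s * (Nat.log 2 s + 1) := by ring
      _ ≤ g := hg
  obtain ⟨g0, hg0⟩ : ∃ g0, g = g0 + (i + 2) * s := ⟨g - (i + 2) * s, by omega⟩
  have hj3s : (j + 3) * s = 2 * ((i + 2) * s) := by rw [hi]; ring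
  obtain ⟨hb1, hb2, hb3, hb4, hb5, hb6⟩ := num_base s g j g0 ((2 * j + 3) * s) (by omega) hg hgq.le
    hjlog le_rfl (by omega) (by omega)
  obtain ⟨Y, b, hYF, hYc, hbodd, hbs, hbm⟩ := comb_odd s j (Fx k s) (card_Fx s hs) (by omega) hjs
  set T : Finset k := Finset.univ.filter (fun x : k => x ^ s + x ∈ Y) with hT
  have hTc : T.card = (2 * j + 3) * s := by rw [hT, card_lines s hs Y hYF, hYc]
  have hr : ringChar k ≠ 2 := by
    intro h
    apply hk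
    have := ringChar.Nat.cast_ringChar (R := k)
    rw [h] at this
    exact_mod_cast this
  obtain ⟨w, hw0, hw⟩ := exists_nonsq hr
  have hsodd : Odd s := odd_s hk s hs
  obtain ⟨v, hvu, hvs⟩ := exists_pat s hs chi (1 : k) w chi_one hw b (fun c _ => hbs c)
    (fun c _ => (hbodd c).add_odd (by exact_mod_cast hsodd))
  have hv0 : ∀ x ∈ T, v x ≠ 0 := by
    intro x _
    rcases hvu x with h | h
    · rw [h]
      exact one_ne_zero
    · rw [h]
      exact hw0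
  set T0 : ℝ := (N : ℝ) - (s ^ 2 + 1) with hT0
  have hsq0 : 0 ≤ √(s : ℝ) := Real.sqrt_nonneg _
  have ht := hb6 T0 (T0 - √s / 2) hN (by
    rw [show T0 - √(s : ℝ) / 2 - T0 = -(√s / 2) by ring, abs_neg, abs_of_nonneg (by positivity)]
    linarith)
  have hsmul : 9 ≤ s ^ 2 := by nlinarith
  obtain ⟨f0, hm0, hd0, hsq, hfv, hS⟩ := base_odd hk (by rw [hs]; exact hsmul) T v hv0 g0
    (by rw [hTc]; exact hb3) (by rw [hTc, hs]; exact hb4) (T0 - √s / 2)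
    (by rw [hTc, hs]; exact ht)
  rw [hTc, hs] at hS
  have hS' := hS.trans hb5
  obtain ⟨Sz, hSz⟩ : ∃ Sz : ℤ, ∑ x ∈ Tᶜ, chi (f0.eval x) = (Sz : ℝ) := by
    refine ⟨∑ x ∈ Tᶜ, quadraticChar k (f0.eval x), ?_⟩
    rw [Int.cast_sum]
    rfl
  rw [hSz] at hS'
  obtain ⟨hS1, hS2⟩ := abs_le.1 hS'
  set Δ : ℤ := (N : ℤ) - (s ^ 2 + 1) - Sz with hΔ
  have hΔr : (Δ : ℝ) = T0 - Sz := by
    rw [hΔ, hT0]
    push_cast
    ring
  have hΔ0 : 0 ≤ Δ := by
    have h1 : (0 : ℝ) ≤ (Δ : ℝ) := by rw [hΔr]; linarith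
    exact_mod_cast h1
  have hsqj : √(s : ℝ) ≤ 2 ^ j := by
    rw [Real.sqrt_le_left (by positivity)]
    have h1 : (s : ℝ) ≤ ((4 ^ j : ℕ) : ℝ) := by exact_mod_cast hsj
    rw [show ((4 ^ j : ℕ) : ℝ) = (2 ^ j) ^ 2 by
      push_cast
      rw [← pow_mul, mul_comm, pow_mul]
      norm_num] at h1
    exact h1
  have hΔj : Δ ≤ 2 ^ j := by
    have h1 : (Δ : ℝ) ≤ 2 ^ j := by rw [hΔr]; linarith
    exact_mod_cast h1
  obtain ⟨D, hD⟩ := Int.eq_ofNat_of_zero_le hΔ0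
  have hDj : D ≤ 2 ^ j := by
    rw [hD] at hΔj
    exact_mod_cast hΔj
  have hjlt : j < 2 ^ j := Nat.lt_two_pow_self
  have hfin : ∀ Z : Finset k, Z ⊆ Y → ∑ c ∈ Y \ Z, b c = Δ →
      (∃ C : Hyp k g, (C.numPoints : ℝ) = Fintype.card k + 1 +
        ∑ x ∈ Finset.univ.filter (fun x : k => x ^ s + x ∉ Z), chi (f0.eval x)) →
      ∃ C : Hyp k g, C.numPoints = N := by
    rintro Z hZ hsum ⟨C, hC⟩
    refine ⟨C, ?_⟩
    rw [sum_end s f0 v b Y Z hZ hYF hvs hfv, hSz, hsum, hΔr, hs, hT0] at hC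
    have h1 : (C.numPoints : ℝ) = N := by
      rw [hC]
      push_cast
      ring
    exact_mod_cast h1
  have hnz : ∀ Z : Finset k, Z ⊆ Y → ∀ x, x ^ s + x ∈ Z → f0.eval x ≠ 0 := by
    intro Z hZ x hx
    have hxT : x ∈ T := by
      rw [hT, Finset.mem_filter]
      exact ⟨Finset.mem_univ _, hZ hx⟩
    rw [hfv x hxT]
    exact hv0 x hxT
  rcases Nat.even_or_odd D with hev | hod
  · -- `Δ` even
    obtain ⟨d, hd⟩ := hev
    obtain ⟨-, Z, hZY, hZc, hZs⟩ := hbm (d + i) (by omega)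
    refine hfin Z hZY ?_ ?_
    · rw [hZs, hD, hd, hi]
      push_cast
      ring
    · have hf0 : f0 ≠ 0 := hm0.ne_zero
      obtain ⟨Tl, hTm, hTd, hTs, hTco, hTv⟩ := exists_tool hk s hs f0 hf0 (by
        rw [hd0, hs]
        have h1 : g0 < s ^ 2 := by omega
        obtain ⟨u, rfl⟩ : ∃ u, s = u + 1 := ⟨s - 1, by omega⟩
        have h2 : 5 ≤ u := by omega
        rw [Nat.add_sub_cancel]
        calc 2 * (2 * g0 + 1) < (u + 1) ^ 2 * 5 := by omega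
          _ ≤ (u + 1) ^ 2 * u := Nat.mul_le_mul_left _ h2)
      refine odd_assemble hk s hs g0 g f0 hm0 hd0 hsq Z (hZY.trans hYF) (hnz Z hZY) Tl hTm hTs hTco
        hTv ?_
      rw [hZc, hTd]
      have h3 : j * s + 3 * s = (j + 3) * s := by ring
      omega
  · -- `Δ` odd
    obtain ⟨d, hd⟩ := hod
    obtain ⟨⟨Z, hZY, hZc, hZs⟩, -⟩ := hbm (d + i + 1) (by omega)
    refine hfin Z hZY ?_ ?_
    · rw [hZs, hD, hd, hi]
      push_cast
      ring
    · refine odd_assemble hk s hs g0 g f0 hm0 hd0 hsq Z (hZY.trans hYF) (hnz Z hZY) 1 monic_one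
        squarefree_one isCoprime_one_left ?_ ?_
      · intro x
        rw [eval_one]
        refine ⟨one_ne_zero, ?_⟩
        rw [mem_Fx, one_pow]
      · rw [hZc, natDegree_one]
        omega

end Pool.Agent.H45.VS
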