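import Pool.Agent.H45.VS.Defs

/-!
# The Frobenius map `x ↦ x ^ s` of a field with `s ^ 2` elements

PROOF. `card k = p ^ n` for a prime `p` with `CharP k p` (`FiniteField.card'`, or `FiniteField.card`),
so `s ^ 2 = p ^ n` gives `s = p ^ j`, `j ≥ 1` (`(Nat.dvd_prime_pow _).1`: `s ∣ p ^ n`; `s ≠ 1` since
`card k > 1`). In a domain `A` over `k` (`CharP A p` by `charP_of_injective_algebraMap`)
`(x + y) ^ (p ^ j) = x ^ (p ^ j) + y ^ (p ^ j)` (`add_pow_char_pow`, `sub_pow_char_pow`).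
`pow_ss`: `(x ^ s) ^ s = x ^ (s ^ 2) = x` (`FiniteField.pow_card`).
`card_Fx`, `card_ln`: `Fx k s` is contained in the roots of `X ^ s - X` (degree `s ≥ 2`), so it has at most
`s` elements; `ln s c` is contained in the roots of `X ^ s + X - C c`, at most `s` elements; `x ↦ x ^ s + x`
maps `k` to `Fx k s` (`tr_mem`), so `s ^ 2 = ∑ c ∈ Fx, |ln s c| ≤ |Fx| s ≤ s ^ 2` and equality holds
everywhere (`Finset.card_eq_sum_card_fiberwise`).
`lp_eq`: `lp s c` is monic of degree `s` and has the `s` distinct roots `ln s c`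
(`Polynomial.prod_multiset_X_sub_C_of_monic_of_roots_card_eq`, or: `mS (ln s c) ∣ lp s c`, both monic of
degree `s`, `Polynomial.eq_of_monic_of_dvd_of_natDegree_le`).
-/

namespace Pool.Agent.H45.VS

open Finset Polynomial Pool.Agent.H35.VQ

variable {k : Type} [Field k] [Fintype k] [DecidableEq k]

theorem exists_p (s : ℕ) (hs : Fintype.card k = s ^ 2) :
    ∃ p j : ℕ, p.Prime ∧ CharP k p ∧ s = p ^ j ∧ 1 ≤ j := by
  obtain ⟨p, hp⟩ := CharP.exists k
  obtain ⟨n, hpp, hn⟩ := FiniteField.card k p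
  have h1 : s ∣ p ^ (n : ℕ) := by
    rw [← hn, hs]
    exact dvd_pow_self s two_ne_zero
  obtain ⟨j, _, hj⟩ := (Nat.dvd_prime_pow hpp).1 h1
  refine ⟨p, j, hpp, hp, hj, ?_⟩
  by_contra hc
  have h0 : j = 0 := by omega
  rw [h0, pow_zero] at hj
  rw [hj, one_pow] at hs
  have h2 := Fintype.one_lt_card (α := k)
  omega

theorem two_le_s (s : ℕ) (hs : Fintype.card k = s ^ 2) : 2 ≤ s := by
  obtain ⟨p, j, hp, -, rfl, hj⟩ := exists_p s hs
  calc 2 ≤ p := hp.two_le
    _ = p ^ 1 := (pow_one p).symm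
    _ ≤ p ^ j := Nat.pow_le_pow_right hp.pos hj

theorem cast_s (s : ℕ) (hs : Fintype.card k = s ^ 2) : (s : k) = 0 := by
  obtain ⟨p, j, hp, hc, rfl, hj⟩ := exists_p s hs
  rw [Nat.cast_pow, CharP.cast_eq_zero, zero_pow (by omega)]

theorem add_pow_s (s : ℕ) (hs : Fintype.card k = s ^ 2) {A : Type} [CommRing A] [IsDomain A]
    [Algebra k A] (x y : A) : (x + y) ^ s = x ^ s + y ^ s := by
  obtain ⟨p, j, hp, hc, rfl, hj⟩ := exists_p s hs
  have : Fact p.Prime := ⟨hp⟩
  have : CharP A p := charP_of_injective_algebraMap (algebraMap k A).injective p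
  exact add_pow_char_pow x y p j

theorem sub_pow_s (s : ℕ) (hs : Fintype.card k = s ^ 2) {A : Type} [CommRing A] [IsDomain A]
    [Algebra k A] (x y : A) : (x - y) ^ s = x ^ s - y ^ s := by
  obtain ⟨p, j, hp, hc, rfl, hj⟩ := exists_p s hs
  have : Fact p.Prime := ⟨hp⟩
  have : CharP A p := charP_of_injective_algebraMap (algebraMap k A).injective p
  exact sub_pow_char_pow x y j

theorem neg_pow_s (s : ℕ) (hs : Fintype.card k = s ^ 2) {A : Type} [CommRing A] [IsDomain A]
    [Algebra k A] (x : A) : (-x) ^ s = -(x ^ s) := by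
  have h0 : s ≠ 0 := by have := two_le_s s hs; omega
  have h1 := sub_pow_s s hs (0 : A) x
  rwa [zero_sub, zero_pow h0, zero_sub] at h1

theorem pow_ss (s : ℕ) (hs : Fintype.card k = s ^ 2) (x : k) : (x ^ s) ^ s = x := by
  rw [← pow_mul, ← pow_two, ← hs]
  exact FiniteField.pow_card x

theorem mem_Fx (s : ℕ) (z : k) : z ∈ Fx k s ↔ z ^ s = z := by
  unfold Fx
  rw [Finset.mem_filter]
  exact and_iff_right (Finset.mem_univ z)

theorem mem_ln (s : ℕ) (c x : k) : x ∈ ln s c ↔ x ^ s + x = c := by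
  unfold ln
  rw [Finset.mem_filter]
  exact and_iff_right (Finset.mem_univ x)

theorem tr_mem (s : ℕ) (hs : Fintype.card k = s ^ 2) (x : k) : x ^ s + x ∈ Fx k s := by
  rw [mem_Fx, add_pow_s s hs, pow_ss s hs, add_comm]

theorem norm_mem (s : ℕ) (hs : Fintype.card k = s ^ 2) (x : k) : x ^ (s + 1) ∈ Fx k s := by
  rw [mem_Fx, pow_succ, mul_pow, pow_ss s hs, mul_comm]

theorem Fx_mul (s : ℕ) {z w : k} (hz : z ∈ Fx k s) (hw : w ∈ Fx k s) : z * w ∈ Fx k s := by
  rw [mem_Fx] at *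
  rw [mul_pow, hz, hw]

theorem Fx_inv (s : ℕ) {z : k} (hz : z ∈ Fx k s) : z⁻¹ ∈ Fx k s := by
  rw [mem_Fx] at *
  rw [inv_pow, hz]

theorem Fx_neg (s : ℕ) (hs : Fintype.card k = s ^ 2) {z : k} (hz : z ∈ Fx k s) : -z ∈ Fx k s := by
  rw [mem_Fx] at *
  rw [neg_pow_s s hs, hz]

theorem Fx_sub (s : ℕ) (hs : Fintype.card k = s ^ 2) {z w : k} (hz : z ∈ Fx k s) (hw : w ∈ Fx k s) :
    z - w ∈ Fx k s := by
  rw [mem_Fx] at *
  rw [sub_pow_s s hs, hz, hw]

theorem zero_mem_Fx (s : ℕ) (hs : Fintype.card k = s ^ 2) : (0 : k) ∈ Fx k s := by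
  rw [mem_Fx]
  exact zero_pow (by have := two_le_s s hs; omega)

theorem lp_eval (s : ℕ) (c x : k) : (lp s c).eval x = x ^ s + x - c := by
  unfold lp
  simp

private lemma lp_deg_lt (s : ℕ) (hs : Fintype.card k = s ^ 2) (c : k) :
    (X - C c : k[X]).degree < (X ^ s : k[X]).degree := by
  rw [degree_X_pow, degree_X_sub_C]
  exact_mod_cast two_le_s s hs

private lemma lp_split (s : ℕ) (c : k) : lp s c = X ^ s + (X - C c) := by
  unfold lp
  ring

theorem lp_monic (s : ℕ) (hs : Fintype.card k = s ^ 2) (c : k) : (lp s c).Monic := by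
  rw [lp_split]
  exact (monic_X_pow s).add_of_left (lp_deg_lt s hs c)

theorem lp_natDegree (s : ℕ) (hs : Fintype.card k = s ^ 2) (c : k) : (lp s c).natDegree = s := by
  rw [lp_split, natDegree_add_eq_left_of_degree_lt (lp_deg_lt s hs c), natDegree_X_pow]

theorem lp_derivative (s : ℕ) (hs : Fintype.card k = s ^ 2) (c : k) : derivative (lp s c) = 1 := by
  unfold lp
  rw [derivative_sub, derivative_add, derivative_X_pow, derivative_X, derivative_C, sub_zero,
    cast_s s hs, map_zero, zero_mul, zero_add]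

private lemma card_ln_le (s : ℕ) (hs : Fintype.card k = s ^ 2) (c : k) : (ln s c).card ≤ s := by
  have h0 : lp s c ≠ 0 := (lp_monic s hs c).ne_zero
  have h1 : (ln s c) ⊆ (lp s c).roots.toFinset := by
    intro x hx
    rw [mem_ln] at hx
    rw [Multiset.mem_toFinset, mem_roots h0, IsRoot.def, lp_eval, hx, sub_self]
  calc (ln s c).card ≤ (lp s c).roots.toFinset.card := Finset.card_le_card h1
    _ ≤ (Multiset.card (lp s c).roots) := Multiset.toFinset_card_le _
    _ ≤ (lp s c).natDegree := card_roots' _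
    _ = s := lp_natDegree s hs c

private lemma card_Fx_le (s : ℕ) (hs : Fintype.card k = s ^ 2) : (Fx k s).card ≤ s := by
  have hlt : (X : k[X]).degree < (X ^ s : k[X]).degree := by
    rw [degree_X_pow, degree_X]
    exact_mod_cast two_le_s s hs
  have hm : (X ^ s - X : k[X]).Monic := (monic_X_pow s).sub_of_left hlt
  have hd : (X ^ s - X : k[X]).natDegree = s := by
    rw [natDegree_sub_eq_left_of_natDegree_lt, natDegree_X_pow]
    rw [natDegree_X_pow, natDegree_X]
    have := two_le_s s hs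
    omega
  have h0 : (X ^ s - X : k[X]) ≠ 0 := hm.ne_zero
  have h1 : Fx k s ⊆ (X ^ s - X : k[X]).roots.toFinset := by
    intro x hx
    rw [mem_Fx] at hx
    rw [Multiset.mem_toFinset, mem_roots h0, IsRoot.def, eval_sub, eval_pow, eval_X, hx, sub_self]
  calc (Fx k s).card ≤ (X ^ s - X : k[X]).roots.toFinset.card := Finset.card_le_card h1
    _ ≤ (Multiset.card (X ^ s - X : k[X]).roots) := Multiset.toFinset_card_le _
    _ ≤ (X ^ s - X : k[X]).natDegree := card_roots' _
    _ = s := hd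

private lemma sum_ln (s : ℕ) (hs : Fintype.card k = s ^ 2) :
    s ^ 2 = ∑ c ∈ Fx k s, (ln s c).card := by
  have h1 := Finset.card_eq_sum_card_fiberwise (s := (Finset.univ : Finset k)) (t := Fx k s)
    (f := fun x => x ^ s + x) (fun x _ => tr_mem s hs x)
  rw [Finset.card_univ, hs] at h1
  exact h1

theorem card_Fx (s : ℕ) (hs : Fintype.card k = s ^ 2) : (Fx k s).card = s := by
  refine le_antisymm (card_Fx_le s hs) ?_
  have h1 : s ^ 2 ≤ (Fx k s).card * s := by
    calc s ^ 2 = ∑ c ∈ Fx k s, (ln s c).card := sum_ln s hs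
      _ ≤ ∑ _c ∈ Fx k s, s := Finset.sum_le_sum fun c _ => card_ln_le s hs c
      _ = (Fx k s).card * s := by rw [Finset.sum_const, smul_eq_mul]
  rw [pow_two] at h1
  have h2 := two_le_s s hs
  exact Nat.le_of_mul_le_mul_right h1 (by omega)

theorem card_ln (s : ℕ) (hs : Fintype.card k = s ^ 2) (c : k) (hc : c ∈ Fx k s) :
    (ln s c).card = s := by
  have h1 : ∑ c ∈ Fx k s, (ln s c).card = ∑ _c ∈ Fx k s, s := by
    rw [← sum_ln s hs, Finset.sum_const, smul_eq_mul, card_Fx s hs, pow_two]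
  exact (Finset.sum_eq_sum_iff_of_le fun c _ => card_ln_le s hs c).1 h1 c hc

theorem exists_tr (s : ℕ) (hs : Fintype.card k = s ^ 2) (c : k) (hc : c ∈ Fx k s) :
    ∃ x : k, x ^ s + x = c := by
  have h1 : (ln s c).Nonempty := by
    rw [← Finset.card_pos, card_ln s hs c hc]
    have := two_le_s s hs
    omega
  obtain ⟨x, hx⟩ := h1
  exact ⟨x, (mem_ln s c x).1 hx⟩

theorem lp_eval_mem (s : ℕ) (hs : Fintype.card k = s ^ 2) (c : k) (hc : c ∈ Fx k s) (x : k) :
    (lp s c).eval x ∈ Fx k s := by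
  rw [lp_eval]
  exact Fx_sub s hs (tr_mem s hs x) hc

theorem lp_eq (s : ℕ) (hs : Fintype.card k = s ^ 2) (c : k) (hc : c ∈ Fx k s) :
    lp s c = mS (ln s c) := by
  have h0 : lp s c ≠ 0 := (lp_monic s hs c).ne_zero
  have h1 : (ln s c).val ≤ (lp s c).roots := by
    rw [Multiset.le_iff_subset (ln s c).nodup]
    intro x hx
    have hx' : x ∈ ln s c := hx
    rw [mem_ln] at hx'
    rw [mem_roots h0, IsRoot.def, lp_eval, hx', sub_self]
  have hcard : Multiset.card (ln s c).val = s := card_ln s hs c hc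
  have h2 : Multiset.card (lp s c).roots ≤ s := (card_roots' _).trans (lp_natDegree s hs c).le
  have h3 : (ln s c).val = (lp s c).roots :=
    Multiset.eq_of_le_of_card_le h1 (by rw [hcard]; exact h2)
  have h4 := prod_multiset_X_sub_C_of_monic_of_roots_card_eq (lp_monic s hs c)
    (by rw [← h3, hcard, lp_natDegree s hs c])
  rw [← h4, ← h3]
  rfl

end Pool.Agent.H45.VS
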