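import Pool.Agent.H45.VS.Defs

/-!
# No square divisors

PROOF. This is `squarefree_of_nsq` of `H35/VQ/Odd` for a general monic polynomial `f` of degree
`2 g + 1` in the place of `pl ω.1` (same proof, word for word).
-/

namespace Pool.Agent.H45.VS

open Finset Polynomial Pool.Agent.H35.VQ

variable {k : Type} [Field k] [Fintype k] [DecidableEq k]

theorem squarefree_of_nsf (g : ℕ) (f : k[X]) (hm : f.Monic) (hd : f.natDegree = 2 * g + 1)
    (h : nsf g f < 1) : Squarefree f := by
  classical
  rw [squarefree_iff_emultiplicity_le_one]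
  intro p
  by_contra hc
  push Not at hc
  obtain ⟨hc1, hc2⟩ := hc
  have hp2 : p ^ 2 ∣ f := by
    have : ((2 : ℕ) : ℕ∞) ≤ emultiplicity p f := by
      have h1 : (1 : ℕ∞) + 1 ≤ emultiplicity p f := Order.add_one_le_of_lt hc1
      have h2 : ((2 : ℕ) : ℕ∞) = 1 + 1 := by norm_num
      rw [h2]
      exact h1
    exact pow_dvd_of_le_emultiplicity this
  have hp0 : p ≠ 0 := by
    rintro rfl
    rw [zero_pow two_ne_zero, zero_dvd_iff] at hp2
    exact hm.ne_zero hp2
  set P : k[X] := p * C p.leadingCoeff⁻¹ with hP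
  have hPm : P.Monic := Polynomial.monic_mul_leadingCoeff_inv hp0
  have hPp : P ∣ p := by
    have hu : IsUnit (C p.leadingCoeff⁻¹ : k[X]) :=
      Polynomial.isUnit_C.2 (isUnit_iff_ne_zero.2 (inv_ne_zero (Polynomial.leadingCoeff_ne_zero.2 hp0)))
    rw [hP]
    exact hu.mul_right_dvd.2 dvd_rfl
  have hP2 : P ^ 2 ∣ f := (pow_dvd_pow_of_dvd hPp 2).trans hp2
  have hPd : P.natDegree ≠ 0 := by
    intro h0
    apply hc2
    have h1 : P = 1 := Polynomial.eq_one_of_monic_natDegree_zero hPm h0
    have h2 : IsUnit (p * C p.leadingCoeff⁻¹) := by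
      rw [← hP, h1]
      exact isUnit_one
    exact isUnit_of_mul_isUnit_left h2
  have hle : P.natDegree ≤ g := by
    have h1 := Polynomial.natDegree_le_of_dvd hP2 hm.ne_zero
    rw [Polynomial.natDegree_pow, hd] at h1
    omega
  have h3 : (1 : ℝ) ≤ nsf g f := by
    unfold nsf
    have h4 : (1 : ℝ) ≤ ∑ p : Fin P.natDegree → k, dv ((pl p) ^ 2) f := by
      have h5 := Finset.single_le_sum (f := fun p : Fin P.natDegree → k =>
        dv ((pl p) ^ 2) f) (fun p _ => dv_nonneg _ _)
        (Finset.mem_univ (fun i : Fin P.natDegree => P.coeff i))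
      rw [pl_of_monic P hPm rfl] at h5
      unfold dv at h5
      rw [if_pos hP2] at h5
      exact h5
    refine h4.trans ?_
    exact Finset.single_le_sum (f := fun j => ∑ p : Fin j → k, dv ((pl p) ^ 2) f)
      (fun j _ => Finset.sum_nonneg fun p _ => dv_nonneg _ _)
      (Finset.mem_Icc.2 ⟨Nat.one_le_iff_ne_zero.2 hPd, hle⟩)
  linarith

end Pool.Agent.H45.VS
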