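import Pool.Agent.H45.VS.SqB
import Pool.Agent.H45.VS.SqC

/-!
# Squarefree polynomials with prescribed values on `T` and approximate character sum outside

PROOF. Adapt `exists_odd` of `H35/VQ/Odd` (read it first). Index type of the cube:
`κ = {x // x ∉ T}`, `q' = card κ = card k - |T|` (`Fintype.card_subtype_compl`-type facts), sample space
`Sp k n`, `n = 2 g + 1 - |T|`, signs `e ω = esg T v (fun _ => so) ω` (squares one by `so_sq`), weights
`‖lin α (e ω)‖ ^ 2` with `α A = a A.card`, `A0 = ∑ A, ‖α A‖ ^ 2` (`sum_card_eq` on `κ`).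
(1) `∑ ω ‖lin α (e ω)‖ ^ 2 = tot k n * A0` (`norm_sum`, `unb`, `sum_so`).
(2) `∑ ω (∑_{x : κ} e ω x - t) ^ 2 ‖lin‖ ^ 2 ≤ tot k n * (R * A0)` (`mul_lin_radial` on `κ`, `norm_sum`
with `M + 1`, `2 (M + 1) ≤ n`, `hj`).
(3) with `nz ω` = the number of `x : κ` with `(fam T v ω.1).eval x = 0`:
`∑ ω nz ω ^ 2 ‖lin‖ ^ 2 ≤ tot k n * (2 * A0)` (`unb0`, `norm_sum` with `N = 2 M`, `2 M + 2 ≤ n`; the sum over
`y z : κ` of `1 / q` (`y = z`) or `1 / q ^ 2` is at most `q' / q + q' ^ 2 / q ^ 2 ≤ 2`).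
(4) `∑ ω nsf g (fam ..) ‖lin‖ ^ 2 ≤ tot k n * A0 / 4` (`sum_nsf`).
(5) with `L = 2 (R + 2)`: `∑ ω (L (1 - nsf) - (∑ e - t) ^ 2 - nz ^ 2) ‖lin‖ ^ 2 > 0` since
`L (3 / 4) = 1.5 (R + 2) > R + 2` (`R ≥ 0`), so some `ω` has a positive bracket; then `nsf < 1`, so
`fam T v ω.1` is squarefree (`squarefree_of_nsf`; degree `|T| + n = 2 g + 1`), and
`(∑_{x ∉ T} χ - t) ^ 2 ≤ 2 ((∑ e - t) ^ 2 + nz ^ 2) ≤ 2 L = 4 (R + 2)`, because
`|∑_{x ∉ T} χ(f x) - ∑ e| ≤ nz` (`char_sum_diff`).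
-/

namespace Pool.Agent.H45.VS

open Finset Polynomial Pool.Agent.H35.VQ

variable {k : Type} [Field k] [Fintype k] [DecidableEq k]

private theorem card_out (T : Finset k) :
    Fintype.card {x : k // x ∉ T} = Fintype.card k - T.card := by
  rw [Fintype.card_subtype]
  have h : (Finset.univ.filter fun x : k => x ∉ T) = Tᶜ := by
    ext x
    simp
  rw [h, Finset.card_compl]

/-- the number of zeros outside `T` -/
private noncomputable def nzT (T : Finset k) (v : k → k) {n : ℕ} (ω : Sp k n) : ℝ :=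
  ∑ x : {x : k // x ∉ T}, if (fam T v ω.1).eval (x : k) = 0 then (1 : ℝ) else 0

private theorem nzT_nonneg (T : Finset k) (v : k → k) {n : ℕ} (ω : Sp k n) : 0 ≤ nzT T v ω :=
  Finset.sum_nonneg fun x _ => by split_ifs <;> norm_num

private theorem char_diff (T : Finset k) (v : k → k) {n : ℕ} (ω : Sp k n) :
    |∑ x ∈ Tᶜ, chi ((fam T v ω.1).eval x) - ∑ x, esg T v (fun _ => so) ω x| ≤ nzT T v ω := by
  have h0 : ∑ x ∈ Tᶜ, chi ((fam T v ω.1).eval x)
      = ∑ x : {x : k // x ∉ T}, chi ((fam T v ω.1).eval (x : k)) :=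
    Finset.sum_subtype Tᶜ (fun x => by simp) _
  rw [h0, ← Finset.sum_sub_distrib]
  refine (Finset.abs_sum_le_sum_abs _ _).trans ?_
  unfold nzT
  refine Finset.sum_le_sum fun x _ => ?_
  unfold esg so
  by_cases h : (fam T v ω.1).eval (x : k) = 0
  · rw [if_pos h]
    beta_reduce
    rw [if_pos h, h, chi_zero, zero_sub, abs_neg]
    cases ω.2 x <;> simp [sg]
  · rw [if_neg h]
    beta_reduce
    rw [if_neg h]
    simp

theorem exists_odd_pre (hk : ringChar k ≠ 2) (hq : 9 ≤ Fintype.card k) (T : Finset k) (v : k → k)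
    (hv : ∀ x ∈ T, v x ≠ 0) (g M : ℕ) (hM : 2 * M + T.card + 1 ≤ g) (t : ℝ) (a : ℕ → ℂ)
    (ha : ∀ n, M < n → a n = 0) (q' : ℕ) (hq' : q' = Fintype.card k - T.card)
    (hpos : 0 < ∑ n ∈ range (q' + 1), (q'.choose n : ℝ) * ‖a n‖ ^ 2) (R : ℝ) (hR : 0 ≤ R)
    (hj : ∑ n ∈ range (q' + 1), (q'.choose n : ℝ) * ‖jop q' t a n‖ ^ 2 ≤
      R * ∑ n ∈ range (q' + 1), (q'.choose n : ℝ) * ‖a n‖ ^ 2) :
    ∃ f : k[X], f.Monic ∧ f.natDegree = 2 * g + 1 ∧ Squarefree f ∧ (∀ x ∈ T, f.eval x = v x) ∧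
      (∑ x ∈ Tᶜ, chi (f.eval x) - t) ^ 2 ≤ 4 * (R + 2) := by
  classical
  have hcard : Fintype.card {x : k // x ∉ T} = q' := by rw [card_out, hq']
  set n := 2 * g + 1 - T.card with hn
  set q := Fintype.card k with hqdef
  have hq'q : q' ≤ q := by omega
  have hqR : (1 : ℝ) < q := by
    have : 1 < q := by omega
    exact_mod_cast this
  have hq'R : (q' : ℝ) ≤ q := by exact_mod_cast hq'q
  set α : Finset {x : k // x ∉ T} → ℂ := fun A => a A.card with hα
  have hαM : ∀ A : Finset {x : k // x ∉ T}, M < A.card → α A = 0 := fun A hA => ha _ hA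
  set A0 : ℝ := ∑ A : Finset {x : k // x ∉ T}, ‖α A‖ ^ 2 with hA0
  have hA0' : A0 = ∑ n ∈ range (q' + 1), (q'.choose n : ℝ) * ‖a n‖ ^ 2 := by
    have := sum_card_eq (k := {x : k // x ∉ T}) (fun n => ‖a n‖ ^ 2)
    rw [hcard] at this
    exact this
  have hA0pos : 0 < A0 := hA0' ▸ hpos
  have hTpos : 0 < tot k n := by
    unfold tot
    rw [← hqdef]
    positivity
  have hso : ∀ (ω : Sp k n) x, esg T v (fun _ => so) ω x ^ 2 = 1 := fun ω x => so_sq _ _
  have h0' : ∀ x, x ∉ T → ∑ a : k, ∑ b, (fun _ => so : k → k → Bool → ℝ) x a b = 0 :=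
    fun _ _ => sum_so hk
  -- (1)
  have h1 : ∑ ω : Sp k n, ‖lin α (esg T v (fun _ => so) ω)‖ ^ 2 = tot k n * A0 := by
    have := norm_sum (Ω := Sp k n) (fun ω => esg T v (fun _ => so) ω) hso (fun _ => 1)
      (tot k n) n M (by omega)
      (fun D hD => by simpa using unb T v n (fun _ => so) h0' D hD) α hαM
    simpa using this
  -- (2)
  have h2 : ∑ ω : Sp k n, (∑ x, esg T v (fun _ => so) ω x - t) ^ 2 *
      ‖lin α (esg T v (fun _ => so) ω)‖ ^ 2 ≤ tot k n * (R * A0) := by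
    have e1 : ∀ ω : Sp k n, (∑ x, esg T v (fun _ => so) ω x - t) ^ 2 *
        ‖lin α (esg T v (fun _ => so) ω)‖ ^ 2 =
        ‖lin (fun A => jop q' t a A.card) (esg T v (fun _ => so) ω)‖ ^ 2 := by
      intro ω
      rw [← hcard, ← mul_lin_radial a _ (hso ω) t, norm_mul, mul_pow, Complex.norm_real,
        Real.norm_eq_abs, sq_abs]
    rw [Finset.sum_congr rfl fun ω _ => e1 ω]
    have e2 := norm_sum (Ω := Sp k n) (fun ω => esg T v (fun _ => so) ω) hso (fun _ => 1)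
      (tot k n) n (M + 1) (by omega)
      (fun D hD => by simpa using unb T v n (fun _ => so) h0' D hD)
      (fun A => jop q' t a A.card) (fun A hA => by
        unfold jop
        rw [ha _ (by omega), ha _ (by omega), ha _ (by omega)]
        simp)
    simp only [one_mul] at e2
    rw [e2, sum_card_eq (fun n => ‖jop q' t a n‖ ^ 2), hcard, hA0']
    exact mul_le_mul_of_nonneg_left hj hTpos.le
  -- (3)
  have h3 : ∑ ω : Sp k n, nzT T v ω ^ 2 * ‖lin α (esg T v (fun _ => so) ω)‖ ^ 2 ≤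
      tot k n * (2 * A0) := by
    have e1 : ∀ ω : Sp k n, nzT T v ω ^ 2 * ‖lin α (esg T v (fun _ => so) ω)‖ ^ 2 =
        ∑ y : {x : k // x ∉ T}, ∑ z : {x : k // x ∉ T},
          ((if (fam T v ω.1).eval (y : k) = 0 then (1 : ℝ) else 0) *
          (if (fam T v ω.1).eval (z : k) = 0 then (1 : ℝ) else 0)) *
            ‖lin α (esg T v (fun _ => so) ω)‖ ^ 2 := by
      intro ω
      unfold nzT
      rw [sq, Finset.sum_mul_sum, Finset.sum_mul]
      refine Finset.sum_congr rfl fun y _ => ?_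
      rw [Finset.sum_mul]
    have e2 : ∀ y z : {x : k // x ∉ T},
        ∑ ω : Sp k n, ((if (fam T v ω.1).eval (y : k) = 0 then (1 : ℝ) else 0) *
          (if (fam T v ω.1).eval (z : k) = 0 then (1 : ℝ) else 0)) *
            ‖lin α (esg T v (fun _ => so) ω)‖ ^ 2 =
        (tot k n * (if y = z then 1 / (q : ℝ) else 1 / (q : ℝ) ^ 2)) * A0 := by
      intro y z
      exact norm_sum (Ω := Sp k n) (fun ω => esg T v (fun _ => so) ω) hso
        (fun ω => (if (fam T v ω.1).eval (y : k) = 0 then (1 : ℝ) else 0) *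
          (if (fam T v ω.1).eval (z : k) = 0 then (1 : ℝ) else 0)) _ (2 * M) M le_rfl
        (fun D hD => unb0 T v n (fun _ => so) h0'
          (fun _ _ => by simp only [so, if_true]; exact sum_sg) y z D (by omega)) α hαM
    rw [Finset.sum_congr rfl fun ω _ => e1 ω, Finset.sum_comm]
    have e3 : ∀ y : {x : k // x ∉ T}, ∑ ω : Sp k n, ∑ z : {x : k // x ∉ T},
        ((if (fam T v ω.1).eval (y : k) = 0 then (1 : ℝ) else 0) *
          (if (fam T v ω.1).eval (z : k) = 0 then (1 : ℝ) else 0)) *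
            ‖lin α (esg T v (fun _ => so) ω)‖ ^ 2 ≤
        tot k n * A0 * (1 / q + q' / (q : ℝ) ^ 2) := by
      intro y
      rw [Finset.sum_comm, Finset.sum_congr rfl fun z _ => e2 y z]
      have e4 : ∀ z : {x : k // x ∉ T},
          (tot k n * (if y = z then 1 / (q : ℝ) else 1 / (q : ℝ) ^ 2)) * A0 ≤
          tot k n * A0 * ((if y = z then 1 / (q : ℝ) else 0) + 1 / (q : ℝ) ^ 2) := by
        intro z
        have hc : 0 ≤ tot k n * A0 := (mul_pos hTpos hA0pos).le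
        have hx : (if y = z then 1 / (q : ℝ) else 1 / (q : ℝ) ^ 2) ≤
            (if y = z then 1 / (q : ℝ) else 0) + 1 / (q : ℝ) ^ 2 := by
          split_ifs
          · have : (0 : ℝ) ≤ 1 / (q : ℝ) ^ 2 := by positivity
            linarith
          · linarith
        calc _ = tot k n * A0 * (if y = z then 1 / (q : ℝ) else 1 / (q : ℝ) ^ 2) := by ring
          _ ≤ _ := mul_le_mul_of_nonneg_left hx hc
      refine (Finset.sum_le_sum fun z _ => e4 z).trans (le_of_eq ?_)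
      rw [← Finset.mul_sum, Finset.sum_add_distrib, Finset.sum_ite_eq]
      simp only [Finset.mem_univ, if_true, Finset.sum_const, Finset.card_univ, nsmul_eq_mul]
      rw [hcard]
      ring
    refine (Finset.sum_le_sum fun y _ => e3 y).trans ?_
    rw [Finset.sum_const, Finset.card_univ, nsmul_eq_mul, hcard]
    have hc : 0 ≤ tot k n * A0 := (mul_pos hTpos hA0pos).le
    have hx0 : 0 ≤ (q' : ℝ) / q := by positivity
    have hx1 : (q' : ℝ) / q ≤ 1 := (div_le_one (by linarith)).2 hq'R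
    have hx2 : ((q' : ℝ) / q) ^ 2 ≤ 1 := pow_le_one₀ hx0 hx1
    have hx3 : (q' : ℝ) * (1 / q + q' / (q : ℝ) ^ 2) = (q' : ℝ) / q + ((q' : ℝ) / q) ^ 2 := by
      rw [div_pow]
      ring
    calc (q' : ℝ) * (tot k n * A0 * (1 / q + q' / (q : ℝ) ^ 2))
        = tot k n * A0 * ((q' : ℝ) * (1 / q + q' / (q : ℝ) ^ 2)) := by ring
      _ ≤ tot k n * A0 * 2 := by
          rw [hx3]
          exact mul_le_mul_of_nonneg_left (by linarith) hc
      _ = _ := by ring
  -- (4)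
  have h4 : ∑ ω : Sp k n, nsf g (fam T v ω.1) * ‖lin α (esg T v (fun _ => so) ω)‖ ^ 2 ≤
      tot k n * (A0 / 4) := sum_nsf hk hq T v hv g M hM α hαM
  -- (5)
  set L : ℝ := 2 * (R + 2) with hL
  have hL0 : 0 < L := by linarith
  have h5 : 0 < ∑ ω : Sp k n, (L * (1 - nsf g (fam T v ω.1)) -
      (∑ x, esg T v (fun _ => so) ω x - t) ^ 2 - nzT T v ω ^ 2) *
        ‖lin α (esg T v (fun _ => so) ω)‖ ^ 2 := by
    have e1 : ∑ ω : Sp k n, (L * (1 - nsf g (fam T v ω.1)) -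
        (∑ x, esg T v (fun _ => so) ω x - t) ^ 2 - nzT T v ω ^ 2) *
          ‖lin α (esg T v (fun _ => so) ω)‖ ^ 2 =
        L * (∑ ω : Sp k n, ‖lin α (esg T v (fun _ => so) ω)‖ ^ 2) -
        L * (∑ ω : Sp k n, nsf g (fam T v ω.1) * ‖lin α (esg T v (fun _ => so) ω)‖ ^ 2) -
        (∑ ω : Sp k n, (∑ x, esg T v (fun _ => so) ω x - t) ^ 2 *
          ‖lin α (esg T v (fun _ => so) ω)‖ ^ 2) -
        (∑ ω : Sp k n, nzT T v ω ^ 2 * ‖lin α (esg T v (fun _ => so) ω)‖ ^ 2) := by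
      rw [Finset.mul_sum, Finset.mul_sum, ← Finset.sum_sub_distrib, ← Finset.sum_sub_distrib,
        ← Finset.sum_sub_distrib]
      refine Finset.sum_congr rfl fun ω _ => ?_
      ring
    rw [e1, h1]
    have e2 : L * (∑ ω : Sp k n, nsf g (fam T v ω.1) *
        ‖lin α (esg T v (fun _ => so) ω)‖ ^ 2) ≤ L * (tot k n * (A0 / 4)) :=
      mul_le_mul_of_nonneg_left h4 hL0.le
    have hc : 0 < tot k n * A0 := mul_pos hTpos hA0pos
    have hc2 : 0 < (R + 2) * (tot k n * A0) := mul_pos (by linarith) hc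
    have e3 : L * (tot k n * (A0 / 4)) = (R + 2) * (tot k n * A0) / 2 := by
      rw [hL]
      ring
    have e4 : L * (tot k n * A0) = 2 * ((R + 2) * (tot k n * A0)) := by
      rw [hL]
      ring
    have e5 : tot k n * (R * A0) + tot k n * (2 * A0) = (R + 2) * (tot k n * A0) := by ring
    linarith
  obtain ⟨ω, _, hω⟩ := Finset.exists_lt_of_sum_lt (s := Finset.univ)
    (f := fun _ : Sp k n => (0 : ℝ))
    (g := fun ω => (L * (1 - nsf g (fam T v ω.1)) - (∑ x, esg T v (fun _ => so) ω x - t) ^ 2 -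
      nzT T v ω ^ 2) * ‖lin α (esg T v (fun _ => so) ω)‖ ^ 2) (by simpa using h5)
  have hbr : 0 < L * (1 - nsf g (fam T v ω.1)) - (∑ x, esg T v (fun _ => so) ω x - t) ^ 2
      - nzT T v ω ^ 2 := by
    by_contra hc
    push Not at hc
    have : (L * (1 - nsf g (fam T v ω.1)) - (∑ x, esg T v (fun _ => so) ω x - t) ^ 2 -
      nzT T v ω ^ 2) * ‖lin α (esg T v (fun _ => so) ω)‖ ^ 2 ≤ 0 :=
      mul_nonpos_of_nonpos_of_nonneg hc (by positivity)
    linarith
  have hns : nsf g (fam T v ω.1) < 1 := by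
    by_contra hc
    push Not at hc
    nlinarith [sq_nonneg (∑ x, esg T v (fun _ => so) ω x - t), sq_nonneg (nzT T v ω)]
  have hns0 : 0 ≤ nsf g (fam T v ω.1) := by
    unfold nsf
    exact Finset.sum_nonneg fun j _ => Finset.sum_nonneg fun p _ => dv_nonneg _ _
  have hdeg : (fam T v ω.1).natDegree = 2 * g + 1 := by
    rw [fam_natDegree]
    omega
  refine ⟨fam T v ω.1, fam_monic T v ω.1, hdeg, squarefree_of_nsf g _ (fam_monic T v ω.1) hdeg hns,
    fun x hx => fam_eval_mem T v ω.1 x hx, ?_⟩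
  have hd := char_diff T v ω
  have hnz := nzT_nonneg T v ω
  rw [abs_le] at hd
  have hLn : L * (1 - nsf g (fam T v ω.1)) ≤ L := by nlinarith
  have hfin : (∑ x ∈ Tᶜ, chi ((fam T v ω.1).eval x) - t) ^ 2 ≤ 2 * L := by
    nlinarith [sq_nonneg ((∑ x, esg T v (fun _ => so) ω x - t) -
      (∑ x ∈ Tᶜ, chi ((fam T v ω.1).eval x) - ∑ x, esg T v (fun _ => so) ω x)),
      mul_nonneg (sub_nonneg.2 hd.2)
      (by linarith [hd.1] : 0 ≤ nzT T v ω + (∑ x ∈ Tᶜ, chi ((fam T v ω.1).eval x) -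
        ∑ x, esg T v (fun _ => so) ω x))]
  rw [hL] at hfin
  linarith

end Pool.Agent.H45.VS
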