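import Pool.Agent.H45.VS.FamB

/-!
# Dividing by a square

PROOF. Let `P = pl p`, of degree `j`, and `P ^ 2 ∣ fam T v w`. At `x ∈ T` the value is `v x ≠ 0`, so
`P.eval x ≠ 0`. (a) If `2 j ≤ n` the quotient is monic of degree `|T| + (n - 2 j)` with the values
`v x / (P.eval x) ^ 2` on `T`, hence it is `fam T (v / P ^ 2) w'` by `fam_of`.
`sum_div2` is `sum_div` of `H35/VQ/Odd` with `fam` in the place of `pl`: the map `(w, σ) ↦ (w', σ)` is
injective on the set where `P ^ 2` divides, and there the signs are the signs `sP P` of the quotient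
(`sgs_mul_sq` in `H35/VQ/Odd`: if `P.eval x = 0` both are `sg (σ x)`; otherwise the character of
`P ^ 2 * r` is that of `r` and the zeros are the same).
(b) `card_div`: the set of the `w` with `P ^ 2 ∣ fam T v w` has at most `q ^ (n - 2 j)` elements
(natural subtraction; so at most one element if `2 j > n`). If it is empty, fine. Otherwise fix `w₀` in
it. `fam T v w - fam T v w₀ = mS T * (pl w - pl w₀)` and `P` is coprime to `mS T` (no common root:
`P.eval x ≠ 0` for `x ∈ T`, `IsCoprime.prod_right` and `Polynomial.isCoprime_X_sub_C...` or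
`(Polynomial.irreducible_X_sub_C x).coprime_iff_not_dvd`), so `P ^ 2 ∣ pl w - pl w₀`, which has degree
`< n`. If `2 j ≥ n + 1` (or `2 j = n`) this gives `pl w = pl w₀`. Otherwise the quotient has degree
`< n - 2 j` and `w ↦` its coefficients `Fin (n - 2 j) → k` is injective.
-/

namespace Pool.Agent.H45.VS

open Finset Polynomial Pool.Agent.H35.VQ

variable {k : Type} [Field k] [Fintype k] [DecidableEq k]

private theorem eval_ne (T : Finset k) (v : k → k) (hv : ∀ x ∈ T, v x ≠ 0) {n j : ℕ}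
    (p : Fin j → k) (w : Fin n → k) (h : (pl p) ^ 2 ∣ fam T v w) (x : k) (hx : x ∈ T) :
    (pl p).eval x ≠ 0 := by
  intro h0
  have h1 := fam_eval_mem T v w x hx
  obtain ⟨r, hr⟩ := h
  rw [hr, Polynomial.eval_mul, Polynomial.eval_pow, h0] at h1
  apply hv x hx
  rw [← h1]
  ring

private theorem so_mul (P : k[X]) (x a : k) (b : Bool) :
    so ((P.eval x) ^ 2 * a) b = sP P x a b := by
  unfold sP so
  by_cases hP : P.eval x = 0
  · rw [hP]
    simp
  · rw [if_neg hP]
    by_cases ha : a = 0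
    · rw [ha]
      simp
    · rw [if_neg ha, if_neg (mul_ne_zero (pow_ne_zero 2 hP) ha)]
      unfold chi
      rw [map_mul, map_pow, quadraticChar_sq_one hP, one_mul]

private theorem quot_fam (T : Finset k) (v : k → k) (hv : ∀ x ∈ T, v x ≠ 0) {n j : ℕ}
    (hj : 2 * j ≤ n) (p : Fin j → k) (w : Fin n → k) (h : (pl p) ^ 2 ∣ fam T v w) :
    ∃ w' : Fin (n - 2 * j) → k,
      fam T v w = (pl p) ^ 2 * fam T (fun x => v x / ((pl p).eval x) ^ 2) w' := by
  have hne := eval_ne T v hv p w h
  obtain ⟨r, hr⟩ := h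
  have hm : ((pl p) ^ 2 : k[X]).Monic := (pl_monic p).pow 2
  have hrm : r.Monic := hm.of_mul_monic_left (hr ▸ fam_monic T v w)
  have hd : r.natDegree = T.card + (n - 2 * j) := by
    have h1 := fam_natDegree T v w
    rw [hr, hm.natDegree_mul hrm, (pl_monic p).natDegree_pow, pl_natDegree] at h1
    omega
  obtain ⟨w', hw'⟩ := fam_of T (fun x => v x / ((pl p).eval x) ^ 2) (n - 2 * j) r hrm hd (by
    intro x hx
    have h1 := fam_eval_mem T v w x hx
    rw [hr, Polynomial.eval_mul, Polynomial.eval_pow] at h1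
    have h2 := hne x hx
    rw [← h1]
    field_simp)
  exact ⟨w', by rw [hw', hr]⟩

private theorem dvd_sub (T : Finset k) (v : k → k) (hv : ∀ x ∈ T, v x ≠ 0) {n j : ℕ}
    (p : Fin j → k) (w w0 : Fin n → k) (h : (pl p) ^ 2 ∣ fam T v w)
    (h0 : (pl p) ^ 2 ∣ fam T v w0) : (pl p) ^ 2 ∣ pl w - pl w0 := by
  have hne := eval_ne T v hv p w h
  have h1 : (pl p) ^ 2 ∣ mS T * (pl w - pl w0) := by
    have h2 : mS T * (pl w - pl w0) = fam T v w - fam T v w0 := by
      unfold fam
      ring
    rw [h2]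
    exact _root_.dvd_sub h h0
  have h3 : IsCoprime ((pl p : k[X]) ^ 2) (mS T) := by
    refine IsCoprime.pow_left ?_
    unfold mS
    refine IsCoprime.prod_right fun x hx => ?_
    refine IsCoprime.symm (((Polynomial.irreducible_X_sub_C x).coprime_iff_not_dvd).2 ?_)
    rw [Polynomial.dvd_iff_isRoot]
    exact hne x hx
  exact h3.dvd_of_dvd_mul_left h1

private theorem deg_quot {n j : ℕ} (p : Fin j → k) (w w0 : Fin n → k) (r : k[X])
    (hr : pl w - pl w0 = (pl p) ^ 2 * r) (i : ℕ) (hi : n - 2 * j ≤ i) : r.coeff i = 0 := by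
  by_cases h0 : r = 0
  · rw [h0, Polynomial.coeff_zero]
  · refine Polynomial.coeff_eq_zero_of_natDegree_lt ?_
    have hm : ((pl p) ^ 2 : k[X]).Monic := (pl_monic p).pow 2
    have h1 : (pl w - pl w0).degree < (n : WithBot ℕ) := by
      have h2 : (pl w).degree = (n : WithBot ℕ) := by
        rw [Polynomial.degree_eq_natDegree (pl_monic w).ne_zero, pl_natDegree]
      have h3 : (pl w0).degree = (n : WithBot ℕ) := by
        rw [Polynomial.degree_eq_natDegree (pl_monic w0).ne_zero, pl_natDegree]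
      rw [← h2]
      refine Polynomial.degree_sub_lt ?_ ?_ ?_
      · rw [h2, h3]
      · exact (pl_monic w).ne_zero
      · rw [(pl_monic w).leadingCoeff, (pl_monic w0).leadingCoeff]
    have h4 : (pl p) ^ 2 * r ≠ 0 := mul_ne_zero hm.ne_zero h0
    rw [hr, Polynomial.degree_eq_natDegree h4, Nat.cast_lt, hm.natDegree_mul' h0,
      (pl_monic p).natDegree_pow, pl_natDegree] at h1
    omega

theorem sum_div2 (T : Finset k) (v : k → k) (hv : ∀ x ∈ T, v x ≠ 0) (n j : ℕ) (hj : 2 * j ≤ n)
    (p : Fin j → k) (F : ({x : k // x ∉ T} → ℝ) → ℝ) (hF : ∀ e, 0 ≤ F e) :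
    ∑ ω : Sp k n, dv ((pl p) ^ 2) (fam T v ω.1) * F (esg T v (fun _ => so) ω) ≤
      ∑ ω : Sp k (n - 2 * j),
        F (esg T (fun x => v x / ((pl p).eval x) ^ 2) (sP (pl p)) ω) := by
  classical
  let q' : Sp k n → Sp k (n - 2 * j) := fun ω =>
    if h : (pl p) ^ 2 ∣ fam T v ω.1 then ((quot_fam T v hv hj p ω.1 h).choose, ω.2) else (0, ω.2)
  have hq' : ∀ ω : Sp k n, (pl p) ^ 2 ∣ fam T v ω.1 →
      fam T v ω.1 = (pl p) ^ 2 * fam T (fun x => v x / ((pl p).eval x) ^ 2) (q' ω).1 ∧
      (q' ω).2 = ω.2 := by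
    intro ω h
    have hq1 : q' ω = ((quot_fam T v hv hj p ω.1 h).choose, ω.2) := dif_pos h
    rw [hq1]
    exact ⟨(quot_fam T v hv hj p ω.1 h).choose_spec, rfl⟩
  set U : Finset (Sp k n) := Finset.univ.filter fun ω => (pl p) ^ 2 ∣ fam T v ω.1 with hU
  have h1 : ∑ ω : Sp k n, dv ((pl p) ^ 2) (fam T v ω.1) * F (esg T v (fun _ => so) ω) =
      ∑ ω ∈ U, F (esg T (fun x => v x / ((pl p).eval x) ^ 2) (sP (pl p)) (q' ω)) := by
    rw [hU, Finset.sum_filter]
    refine Finset.sum_congr rfl fun ω _ => ?_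
    unfold dv
    split_ifs with h
    · rw [one_mul]
      refine congrArg F (funext fun x => ?_)
      have h2 := hq' ω h
      unfold esg
      rw [h2.1, h2.2, Polynomial.eval_mul, Polynomial.eval_pow]
      exact so_mul (pl p) _ _ _
    · rw [zero_mul]
  rw [h1]
  have hinj : Set.InjOn q' (U : Set (Sp k n)) := by
    intro ω hω ω' hω' h
    rw [Finset.mem_coe, hU, Finset.mem_filter] at hω hω'
    have e1 := hq' ω hω.2
    have e2 := hq' ω' hω'.2
    refine Prod.ext (fam_injective T v n ?_) ?_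
    · beta_reduce
      rw [e1.1, e2.1, h]
    · rw [← e1.2, ← e2.2, h]
  rw [← Finset.sum_image
    (f := fun ω => F (esg T (fun x => v x / ((pl p).eval x) ^ 2) (sP (pl p)) ω)) hinj]
  exact Finset.sum_le_sum_of_subset_of_nonneg (Finset.subset_univ _) fun ω _ _ => hF _

open Classical in
theorem card_div (T : Finset k) (v : k → k) (hv : ∀ x ∈ T, v x ≠ 0) (n j : ℕ) (hj : 1 ≤ j)
    (p : Fin j → k) :
    (Finset.univ.filter fun w : Fin n → k => (pl p) ^ 2 ∣ fam T v w).card ≤
      Fintype.card k ^ (n - 2 * j) := by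
  classical
  rcases Finset.eq_empty_or_nonempty
    (Finset.univ.filter fun w : Fin n → k => (pl p) ^ 2 ∣ fam T v w) with he | ⟨w0, hw0⟩
  · rw [he, Finset.card_empty]
    exact Nat.zero_le _
  rw [Finset.mem_filter] at hw0
  have hq : ∀ w : Fin n → k, (pl p) ^ 2 ∣ fam T v w → ∃ r : k[X], pl w - pl w0 = (pl p) ^ 2 * r :=
    fun w hw => dvd_sub T v hv p w w0 hw hw0.2
  let R : (Fin n → k) → k[X] := fun w =>
    if h : (pl p) ^ 2 ∣ fam T v w then (hq w h).choose else 0
  have hR : ∀ w : Fin n → k, (pl p) ^ 2 ∣ fam T v w → pl w - pl w0 = (pl p) ^ 2 * R w := by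
    intro w h
    have h1 : R w = (hq w h).choose := dif_pos h
    rw [h1]
    exact (hq w h).choose_spec
  have hle := Finset.card_le_card_of_injOn
    (s := Finset.univ.filter fun w : Fin n → k => (pl p) ^ 2 ∣ fam T v w)
    (t := (Finset.univ : Finset (Fin (n - 2 * j) → k)))
    (fun w => fun i : Fin (n - 2 * j) => (R w).coeff i) (fun w _ => Finset.mem_coe.2 (Finset.mem_univ _)) (by
      intro w hw w' hw' h
      rw [Finset.mem_coe, Finset.mem_filter] at hw hw'
      have e1 := hR w hw.2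
      have e2 := hR w' hw'.2
      have e3 : R w = R w' := by
        ext i
        by_cases hi : i < n - 2 * j
        · exact congrFun h ⟨i, hi⟩
        · rw [deg_quot p w w0 _ e1 i (by omega), deg_quot p w' w0 _ e2 i (by omega)]
      apply pl_injective
      have e4 : pl w - pl w0 = pl w' - pl w0 := by rw [e1, e2, e3]
      exact sub_left_injective e4)
  refine hle.trans (le_of_eq ?_)
  rw [Finset.card_univ, Fintype.card_fun, Fintype.card_fin]

end Pool.Agent.H45.VS
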