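import Pool.Agent.H45.VS.SqA

/-!
# The weighted number of square divisors

PROOF. `n = 2 g + 1 - |T|`. Swap the sums. Let `A0 = ∑ A, ‖α A‖ ^ 2`, `P = pl p`, `deg P = j`.
(1) If `2 j + 2 M ≤ n`: by `sum_div2` with `F e = ‖lin α e‖ ^ 2` and by `norm_sum` (`H35/VQ/Cube`,
`w = 1`, `W = tot k (n - 2 j)`, `N = n - 2 j`, unbiasedness `unb` with `sum_sP` of `H35/VQ/Odd`, squares
by `sP_sq`) the `p`-term is at most `tot k (n - 2 j) * A0 = tot k n * q ^ (- 2 j) * A0`; there are
`q ^ j` terms, so the sum over `p` is at most `tot k n * A0 * (1 / q) ^ j`. Total `≤ tot k n * A0 / (q - 1)`.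
(2) If `2 j + 2 M ≥ n + 1`: `‖lin α (esg ..)‖ ^ 2 ≤ (q' ^ M + 1) * A0 ≤ 2 q ^ M A0` by
`norm_lin_sq_le` (`q' = card {x // x ∉ T} ≤ q`, `so_sq`), and by `card_div` the number of `ω = (w, σ)`
with `P ^ 2 ∣ fam` is at most `q ^ (n - 2 j) * 2 ^ q`. Sum over the `q ^ j` values of `p`:
`2 ^ q * 2 q ^ M A0 * q ^ j * q ^ (n - 2 j)`, and `q ^ j * q ^ (n - 2 j) ≤ q ^ (n - j) + q ^ j`
(equal to the first if `2 j ≤ n`, to the second otherwise; for `j ≤ n` the exponent `n - j` is a true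
subtraction; note `j ≤ g ≤ n` since `|T| ≤ g`).
Since `2 M + |T| + 1 ≤ g` we have `n ≥ 4 M + |T| + 3`, so `2 j ≥ n + 1 - 2 M` gives `j ≥ M + 2`; precisely
`n - j ≤ n - M - 2 - (j - j₁)` where `j₁ = (n + 2 - 2 M) / 2 ≥ M + 2` is the least such `j`; and
`∑_{j ≤ g} q ^ j ≤ 2 q ^ g`, `M + g ≤ n - 2`. So the total of (2) is at most
`2 ^ q * 2 q ^ M A0 * (2 q ^ (n - M - 2) + 2 q ^ g) ≤ 8 * 2 ^ q * q ^ (n - 2) * A0 = 8 q ^ (-2) tot k n A0`.
Altogether `≤ (1 / (q - 1) + 8 / q ^ 2) tot k n A0 ≤ tot k n A0 / 4` for `q ≥ 9`.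
Any other way to the constant `1 / 4` (or a smaller one) is fine. See step (4) of `exists_odd` in
`H35/VQ/Odd` for the same computation without `T`.
-/

namespace Pool.Agent.H45.VS

open Finset Polynomial Pool.Agent.H35.VQ

variable {k : Type} [Field k] [Fintype k] [DecidableEq k]

private theorem sum_geo {x : ℝ} (hx0 : 0 ≤ x) (hx1 : x < 1) (S : Finset ℕ) (φ : ℕ → ℕ)
    (hinj : Set.InjOn φ S) (m : ℕ) (hm : ∀ j ∈ S, m ≤ φ j) :
    ∑ j ∈ S, x ^ φ j ≤ x ^ m / (1 - x) := by
  rw [← Finset.sum_image (f := fun i => x ^ i) hinj]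
  have hsub : S.image φ ⊆ Ico m ((S.image φ).sup id + 1) := by
    intro i hi
    obtain ⟨j, hj, rfl⟩ := Finset.mem_image.1 hi
    rw [Finset.mem_Ico]
    exact ⟨hm j hj, Nat.lt_succ_of_le (Finset.le_sup (f := id) hi)⟩
  refine (Finset.sum_le_sum_of_subset_of_nonneg hsub fun i _ _ => pow_nonneg hx0 i).trans ?_
  exact geom_sum_Ico_le_of_lt_one hx0 hx1

open Classical in
private theorem sum_dv (n : ℕ) (G : (Fin n → k) → k[X]) (P : k[X]) :
    ∑ ω : Sp k n, dv P (G ω.1) =
      2 ^ Fintype.card k * ((Finset.univ.filter fun w : Fin n → k => P ∣ G w).card : ℝ) := by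
  have h1 : ∑ ω : Sp k n, dv P (G ω.1) = ∑ w : Fin n → k, ∑ _σ : k → Bool, dv P (G w) :=
    Fintype.sum_prod_type _
  rw [h1]
  have h2 : ∀ w : Fin n → k, ∑ _σ : k → Bool, dv P (G w) =
      2 ^ Fintype.card k * (if P ∣ G w then (1 : ℝ) else 0) := by
    intro w
    rw [Finset.sum_const, Finset.card_univ, Fintype.card_fun, Fintype.card_bool, nsmul_eq_mul]
    unfold dv
    push_cast
    rfl
  rw [Finset.sum_congr rfl fun w _ => h2 w, ← Finset.mul_sum]
  congr 1
  rw [Finset.sum_boole]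

theorem sum_nsf (hk : ringChar k ≠ 2) (hq : 9 ≤ Fintype.card k) (T : Finset k) (v : k → k)
    (hv : ∀ x ∈ T, v x ≠ 0) (g M : ℕ) (hM : 2 * M + T.card + 1 ≤ g)
    (α : Finset {x : k // x ∉ T} → ℂ) (hα : ∀ A : Finset {x : k // x ∉ T}, M < A.card → α A = 0) :
    ∑ ω : Sp k (2 * g + 1 - T.card), nsf g (fam T v ω.1) *
      ‖lin α (esg T v (fun _ => so) ω)‖ ^ 2 ≤
      tot k (2 * g + 1 - T.card) * ((∑ A, ‖α A‖ ^ 2) / 4) := by
  classical
  set q := Fintype.card k with hqd
  set n := 2 * g + 1 - T.card with hn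
  set A0 : ℝ := ∑ A, ‖α A‖ ^ 2 with hA0
  have hA0n : 0 ≤ A0 := Finset.sum_nonneg fun A _ => by positivity
  have hqR : (9 : ℝ) ≤ q := by exact_mod_cast hq
  have hq0 : (0 : ℝ) < q := by linarith
  set x : ℝ := 1 / (q : ℝ) with hx
  have hx0 : 0 < x := by positivity
  have hx9 : x ≤ 1 / 9 := by
    rw [hx]
    exact one_div_le_one_div_of_le (by norm_num) hqR
  have hx1 : x < 1 := by linarith
  have hqx : (q : ℝ) * x = 1 := by rw [hx]; field_simp
  have htotn : tot k n = (q : ℝ) ^ n * 2 ^ q := rfl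
  have htot0 : 0 < tot k n := by rw [htotn]; positivity
  -- one polynomial
  have hterm : ∀ j ∈ Icc 1 g, ∀ p : Fin j → k,
      ∑ ω : Sp k n, dv ((pl p) ^ 2) (fam T v ω.1) * ‖lin α (esg T v (fun _ => so) ω)‖ ^ 2 ≤
      tot k n * A0 * (x ^ j * (x ^ j + (if M + 2 ≤ j then 2 * x ^ (j - M) else 0) +
        2 * x ^ (g - j + 2))) := by
    intro j hj p
    rw [Finset.mem_Icc] at hj
    by_cases h1 : 2 * j + 2 * M ≤ n
    · have e1 := sum_div2 T v hv n j (by omega) p (fun e => ‖lin α e‖ ^ 2) (fun e => by positivity)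
      have e2 := norm_sum (Ω := Sp k (n - 2 * j))
        (fun ω => esg T (fun x => v x / ((pl p).eval x) ^ 2) (sP (pl p)) ω)
        (fun ω x => sP_sq _ _ _ _) (fun _ => 1) (tot k (n - 2 * j)) (n - 2 * j) M (by omega)
        (fun D hD => by
          simpa using unb T (fun x => v x / ((pl p).eval x) ^ 2) (n - 2 * j) (sP (pl p))
            (fun x _ => sum_sP hk (pl p) x) D hD) α hα
      simp only [one_mul] at e2
      rw [e2] at e1
      refine e1.trans ?_
      have e3 : tot k (n - 2 * j) = tot k n * (x ^ j * x ^ j) := by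
        unfold tot
        rw [← hqd]
        have h5 : (q : ℝ) ^ n = (q : ℝ) ^ (n - 2 * j) * (q : ℝ) ^ (2 * j) := by
          rw [← pow_add]
          congr 1
          omega
        have h6 : (q : ℝ) ^ (2 * j) * (x ^ j * x ^ j) = 1 := by
          rw [← pow_add, ← two_mul, ← mul_pow, hqx, one_pow]
        calc (q : ℝ) ^ (n - 2 * j) * 2 ^ q
            = (q : ℝ) ^ (n - 2 * j) * 2 ^ q * ((q : ℝ) ^ (2 * j) * (x ^ j * x ^ j)) := by
              rw [h6, mul_one]
          _ = (q : ℝ) ^ (n - 2 * j) * (q : ℝ) ^ (2 * j) * 2 ^ q * (x ^ j * x ^ j) := by ring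
          _ = _ := by rw [← h5]
      rw [e3]
      have h7 : 0 ≤ (if M + 2 ≤ j then 2 * x ^ (j - M) else 0) + 2 * x ^ (g - j + 2) := by
        split_ifs <;> positivity
      calc tot k n * (x ^ j * x ^ j) * A0 = tot k n * A0 * (x ^ j * x ^ j) := by ring
        _ ≤ _ := by
          apply mul_le_mul_of_nonneg_left _ (by positivity)
          apply mul_le_mul_of_nonneg_left _ (by positivity)
          linarith
    · -- few polynomials
      have e1 : ∀ ω : Sp k n, dv ((pl p) ^ 2) (fam T v ω.1) *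
          ‖lin α (esg T v (fun _ => so) ω)‖ ^ 2 ≤
          dv ((pl p) ^ 2) (fam T v ω.1) * (2 * (q : ℝ) ^ M * A0) := by
        intro ω
        apply mul_le_mul_of_nonneg_left _ (dv_nonneg _ _)
        refine (norm_lin_sq_le M α hα _ fun x => so_sq _ _).trans ?_
        apply mul_le_mul_of_nonneg_right _ hA0n
        have h8 : (Fintype.card {x : k // x ∉ T} : ℝ) ≤ q := by
          rw [hqd]
          exact_mod_cast Fintype.card_subtype_le (fun x : k => x ∉ T)
        have h9 : (Fintype.card {x : k // x ∉ T} : ℝ) ^ M ≤ (q : ℝ) ^ M :=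
          pow_le_pow_left₀ (by positivity) h8 M
        have h10 : (1 : ℝ) ≤ (q : ℝ) ^ M := one_le_pow₀ (by linarith)
        linarith
      refine (Finset.sum_le_sum fun ω _ => e1 ω).trans ?_
      rw [← Finset.sum_mul, sum_dv n (fun w => fam T v w)]
      have h2 := card_div T v hv n j hj.1 p
      have h3 : ((Finset.univ.filter fun w : Fin n → k => (pl p) ^ 2 ∣ fam T v w).card : ℝ) ≤
          (q : ℝ) ^ (n - 2 * j) := by exact_mod_cast h2
      have h4 : 2 ^ Fintype.card k *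
          ((Finset.univ.filter fun w : Fin n → k => (pl p) ^ 2 ∣ fam T v w).card : ℝ) *
          (2 * (q : ℝ) ^ M * A0) ≤ 2 ^ q * (q : ℝ) ^ (n - 2 * j) * (2 * (q : ℝ) ^ M * A0) := by
        rw [← hqd]
        gcongr
      refine h4.trans ?_
      by_cases h5 : 2 * j ≤ n
      · have h6 : M + 2 ≤ j := by omega
        rw [if_pos h6]
        have e5 : (q : ℝ) ^ (n - 2 * j) * (q : ℝ) ^ M = (q : ℝ) ^ n * (x ^ j * x ^ (j - M)) := by
          have h7 : (q : ℝ) ^ n = (q : ℝ) ^ (n - 2 * j) * ((q : ℝ) ^ M * ((q : ℝ) ^ j *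
              (q : ℝ) ^ (j - M))) := by
            rw [← pow_add, ← pow_add, ← pow_add]
            congr 1
            omega
          have h8 : (q : ℝ) ^ j * x ^ j = 1 := by rw [← mul_pow, hqx, one_pow]
          have h9 : (q : ℝ) ^ (j - M) * x ^ (j - M) = 1 := by rw [← mul_pow, hqx, one_pow]
          rw [h7]
          calc (q : ℝ) ^ (n - 2 * j) * (q : ℝ) ^ M
              = (q : ℝ) ^ (n - 2 * j) * (q : ℝ) ^ M * (((q : ℝ) ^ j * x ^ j) *
                ((q : ℝ) ^ (j - M) * x ^ (j - M))) := by rw [h8, h9]; ring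
            _ = _ := by ring
        have e6 : 0 ≤ x ^ j + 2 * x ^ (g - j + 2) := by positivity
        calc 2 ^ q * (q : ℝ) ^ (n - 2 * j) * (2 * (q : ℝ) ^ M * A0)
            = 2 ^ q * ((q : ℝ) ^ (n - 2 * j) * (q : ℝ) ^ M) * (2 * A0) := by ring
          _ = tot k n * A0 * (x ^ j * (2 * x ^ (j - M))) := by rw [e5, htotn]; ring
          _ ≤ _ := by
            apply mul_le_mul_of_nonneg_left _ (by positivity)
            apply mul_le_mul_of_nonneg_left _ (by positivity)
            linarith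
      · have h6 : n - 2 * j = 0 := by omega
        rw [h6, pow_zero, mul_one]
        have e5 : (q : ℝ) ^ M ≤ (q : ℝ) ^ n * (x ^ j * x ^ (g - j + 2)) := by
          have h7 : (q : ℝ) ^ n * (x ^ j * x ^ (g - j + 2)) =
              (q : ℝ) ^ (n - (g + 2)) := by
            have h8 : (q : ℝ) ^ n = (q : ℝ) ^ (n - (g + 2)) * ((q : ℝ) ^ j * (q : ℝ) ^ (g - j + 2)) := by
              rw [← pow_add, ← pow_add]
              congr 1
              omega
            have h9 : (q : ℝ) ^ j * x ^ j = 1 := by rw [← mul_pow, hqx, one_pow]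
            have h10 : (q : ℝ) ^ (g - j + 2) * x ^ (g - j + 2) = 1 := by
              rw [← mul_pow, hqx, one_pow]
            rw [h8]
            calc (q : ℝ) ^ (n - (g + 2)) * ((q : ℝ) ^ j * (q : ℝ) ^ (g - j + 2)) *
                  (x ^ j * x ^ (g - j + 2))
                = (q : ℝ) ^ (n - (g + 2)) * (((q : ℝ) ^ j * x ^ j) *
                  ((q : ℝ) ^ (g - j + 2) * x ^ (g - j + 2))) := by ring
              _ = _ := by rw [h9, h10]; ring
          rw [h7]
          exact pow_le_pow_right₀ (by linarith) (by omega)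
        have e6 : 0 ≤ x ^ j + (if M + 2 ≤ j then 2 * x ^ (j - M) else 0) := by
          split_ifs <;> positivity
        calc 2 ^ q * (2 * (q : ℝ) ^ M * A0) = 2 ^ q * (2 * A0) * (q : ℝ) ^ M := by ring
          _ ≤ 2 ^ q * (2 * A0) * ((q : ℝ) ^ n * (x ^ j * x ^ (g - j + 2))) := by gcongr
          _ = tot k n * A0 * (x ^ j * (2 * x ^ (g - j + 2))) := by rw [htotn]; ring
          _ ≤ _ := by
            apply mul_le_mul_of_nonneg_left _ (by positivity)
            apply mul_le_mul_of_nonneg_left _ (by positivity)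
            linarith
  -- all polynomials
  have e1 : ∀ ω : Sp k n, nsf g (fam T v ω.1) * ‖lin α (esg T v (fun _ => so) ω)‖ ^ 2 =
      ∑ j ∈ Icc 1 g, ∑ p : Fin j → k, dv ((pl p) ^ 2) (fam T v ω.1) *
        ‖lin α (esg T v (fun _ => so) ω)‖ ^ 2 := by
    intro ω
    unfold nsf
    rw [Finset.sum_mul]
    refine Finset.sum_congr rfl fun j _ => ?_
    rw [Finset.sum_mul]
  rw [Finset.sum_congr rfl fun ω _ => e1 ω, Finset.sum_comm]
  have e2 : ∀ j ∈ Icc 1 g, ∑ ω : Sp k n, ∑ p : Fin j → k,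
      dv ((pl p) ^ 2) (fam T v ω.1) * ‖lin α (esg T v (fun _ => so) ω)‖ ^ 2 ≤
      tot k n * A0 * (x ^ j + (if M + 2 ≤ j then 2 * x ^ (j - M) else 0) +
        2 * x ^ (g - j + 2)) := by
    intro j hj
    rw [Finset.sum_comm]
    refine (Finset.sum_le_sum fun p _ => hterm j hj p).trans (le_of_eq ?_)
    rw [Finset.sum_const, Finset.card_univ, nsmul_eq_mul, Fintype.card_fun, Fintype.card_fin, ← hqd]
    push_cast
    have h8 : (q : ℝ) ^ j * x ^ j = 1 := by rw [← mul_pow, hqx, one_pow]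
    calc (q : ℝ) ^ j * (tot k n * A0 * (x ^ j * (x ^ j +
          (if M + 2 ≤ j then 2 * x ^ (j - M) else 0) + 2 * x ^ (g - j + 2))))
        = ((q : ℝ) ^ j * x ^ j) * (tot k n * A0 * (x ^ j +
          (if M + 2 ≤ j then 2 * x ^ (j - M) else 0) + 2 * x ^ (g - j + 2))) := by ring
      _ = _ := by rw [h8, one_mul]
  refine (Finset.sum_le_sum e2).trans ?_
  rw [← Finset.mul_sum, Finset.sum_add_distrib, Finset.sum_add_distrib]
  have g1 : ∑ j ∈ Icc 1 g, x ^ j ≤ x ^ 1 / (1 - x) :=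
    sum_geo hx0.le hx1 (Icc 1 g) (fun j => j) (fun a _ b _ h => h) 1
      (fun j hj => (Finset.mem_Icc.1 hj).1)
  have g2 : ∑ j ∈ Icc 1 g, (if M + 2 ≤ j then 2 * x ^ (j - M) else 0) ≤ 2 * (x ^ 2 / (1 - x)) := by
    rw [← Finset.sum_filter, ← Finset.mul_sum]
    apply mul_le_mul_of_nonneg_left _ (by norm_num)
    apply sum_geo hx0.le hx1 _ (fun j => j - M)
    · intro a ha b hb h
      rw [Finset.mem_coe, Finset.mem_filter] at ha hb
      have h' : a - M = b - M := h
      omega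
    · intro j hj
      rw [Finset.mem_filter] at hj
      show 2 ≤ j - M
      omega
  have g3 : ∑ j ∈ Icc 1 g, 2 * x ^ (g - j + 2) ≤ 2 * (x ^ 2 / (1 - x)) := by
    rw [← Finset.mul_sum]
    apply mul_le_mul_of_nonneg_left _ (by norm_num)
    apply sum_geo hx0.le hx1 _ (fun j => g - j + 2)
    · intro a ha b hb h
      rw [Finset.mem_coe, Finset.mem_Icc] at ha hb
      have h' : g - a + 2 = g - b + 2 := h
      omega
    · intro j _
      show 2 ≤ g - j + 2
      omega
  have hb1 : x ^ 1 / (1 - x) ≤ 1 / 8 := by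
    rw [div_le_iff₀ (by linarith), pow_one]
    linarith
  have hb2 : x ^ 2 / (1 - x) ≤ 1 / 72 := by
    rw [div_le_iff₀ (by linarith)]
    nlinarith
  have hc : 0 ≤ tot k n * A0 := by positivity
  calc _ ≤ tot k n * A0 * (1 / 4) := by
        apply mul_le_mul_of_nonneg_left _ hc
        linarith
    _ = _ := by ring

end Pool.Agent.H45.VS
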