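import Pool.Agent.H45.VS.Frob

/-!
# The map `x ↦ x ^ s - x ^ 2` misses at least `(q - 1) / s` values

PROOF. Let `φ x = x ^ s - x ^ 2`. Each fibre of `φ` has at most `s` elements: for `s ≥ 3` it consists of
roots of the polynomial `X ^ s - X ^ 2 - C v` of degree `s`. (`s` is odd here, `s ≥ 3`.)
For each `d ≠ 0` put `x = (d ^ (s - 1) + d) / 2`, `x' = (d ^ (s - 1) - d) / 2`: `x - x' = d`,
`x + x' = d ^ (s - 1)`, so `φ x - φ x' = d ^ s - d * d ^ (s - 1) = 0` (`sub_pow_s`). So there are at least
`q - 1` ordered pairs `(x, x')`, `x ≠ x'`, with `φ x = φ x'`: `∑ v, N v * (N v - 1) ≥ q - 1`, `N v` the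
cardinality of the fibre. As `N v (N v - 1) ≤ s (N v - 1)` for `N v ≥ 1`,
`q - 1 ≤ s * ∑_{v in the image} (N v - 1) = s * (q - |image|)`, and `q - |image|` is the number of missed values.
-/

namespace Pool.Agent.H45.VS

open Finset Polynomial Pool.Agent.H35.VQ

variable {k : Type} [Field k] [Fintype k] [DecidableEq k]

private theorem three_le (hk : (2 : k) ≠ 0) (s : ℕ) (hs : Fintype.card k = s ^ 2) : 3 ≤ s := by
  have h2 := two_le_s (k := k) s hs
  have h3 := cast_s (k := k) s hs
  rcases Nat.lt_or_ge 2 s with h | h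
  · exact h
  · have h4 : s = 2 := le_antisymm h h2
    rw [h4] at h3
    exact absurd (by exact_mod_cast h3) hk

private theorem fib_le (s : ℕ) (h3 : 3 ≤ s) (v : k) :
    (Finset.univ.filter fun x : k => x ^ s - x ^ 2 = v).card ≤ s := by
  classical
  have hne : (X ^ s - X ^ 2 - C v : k[X]) ≠ 0 := by
    intro h
    have hc := congrArg (fun f : k[X] => f.coeff s) h
    simp only [coeff_sub, coeff_X_pow, coeff_C, coeff_zero] at hc
    rw [if_neg (by omega : ¬ s = 2), if_neg (by omega : ¬ s = 0)] at hc
    simp at hc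
  have hd : (X ^ s - X ^ 2 - C v : k[X]).natDegree ≤ s := by
    refine (natDegree_sub_le _ _).trans (max_le ((natDegree_sub_le _ _).trans (max_le ?_ ?_)) ?_)
    · exact natDegree_X_pow_le s
    · exact (natDegree_X_pow_le 2).trans (by omega)
    · rw [natDegree_C]; omega
  have hsub : (Finset.univ.filter fun x : k => x ^ s - x ^ 2 = v) ⊆
      (X ^ s - X ^ 2 - C v : k[X]).roots.toFinset := by
    intro x hx
    rw [Finset.mem_filter] at hx
    rw [Multiset.mem_toFinset, mem_roots hne, IsRoot.def]
    simp only [eval_sub, eval_pow, eval_X, eval_C]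
    rw [hx.2, sub_self]
  calc (Finset.univ.filter fun x : k => x ^ s - x ^ 2 = v).card
      ≤ (X ^ s - X ^ 2 - C v : k[X]).roots.toFinset.card := Finset.card_le_card hsub
    _ ≤ Multiset.card (X ^ s - X ^ 2 - C v : k[X]).roots := Multiset.toFinset_card_le _
    _ ≤ (X ^ s - X ^ 2 - C v : k[X]).natDegree := card_roots' _
    _ ≤ s := hd

theorem card_missed (hk : (2 : k) ≠ 0) (s : ℕ) (hs : Fintype.card k = s ^ 2) :
    Fintype.card k - 1 ≤
      s * (Finset.univ.filter fun a : k => ∀ x : k, x ^ s - x ^ 2 ≠ a).card := by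
  classical
  have h3 := three_le hk s hs
  set F : k → Finset k := fun v => Finset.univ.filter fun x : k => x ^ s - x ^ 2 = v with hF
  set P : Finset (k × k) := Finset.univ.filter fun z => z.1 ≠ z.2 ∧ z.1 ^ s - z.1 ^ 2 = z.2 ^ s - z.2 ^ 2 with hP
  have hPcard : P.card = ∑ v : k, (F v).offDiag.card := by
    rw [Finset.card_eq_sum_card_fiberwise (f := fun z : k × k => z.1 ^ s - z.1 ^ 2) (t := Finset.univ)
      (fun _ _ => Finset.mem_coe.mpr (Finset.mem_univ _))]
    refine Finset.sum_congr rfl fun v _ => ?_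
    congr 1
    ext z
    simp only [hP, hF, Finset.mem_filter, Finset.mem_univ, true_and, Finset.mem_offDiag]
    constructor
    · rintro ⟨⟨h1, h2⟩, h4⟩
      exact ⟨h4, by rw [← h2, h4], h1⟩
    · rintro ⟨h1, h2, h4⟩
      exact ⟨⟨h4, by rw [h1, h2]⟩, h1⟩
  have hPge : Fintype.card k - 1 ≤ P.card := by
    have h1 : (Finset.univ.erase (0 : k)).card = Fintype.card k - 1 := by
      rw [Finset.card_erase_of_mem (Finset.mem_univ _), Finset.card_univ]
    rw [← h1]
    refine Finset.card_le_card_of_injOn
      (fun d => ((d ^ (s - 1) + d) / 2, (d ^ (s - 1) - d) / 2)) ?_ ?_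
    · intro d hd
      have hd0 : d ≠ 0 := (Finset.mem_erase.mp hd).1
      have hsub : (d ^ (s - 1) + d) / 2 - (d ^ (s - 1) - d) / 2 = d := by
        field_simp
        ring
      have hadd : (d ^ (s - 1) + d) / 2 + (d ^ (s - 1) - d) / 2 = d ^ (s - 1) := by
        field_simp
        ring
      rw [Finset.mem_coe, hP, Finset.mem_filter]
      refine ⟨Finset.mem_univ _, ?_, ?_⟩
      · intro he
        have he' : (d ^ (s - 1) + d) / 2 = (d ^ (s - 1) - d) / 2 := he
        rw [he', sub_self] at hsub
        exact hd0 hsub.symm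
      · show ((d ^ (s - 1) + d) / 2) ^ s - ((d ^ (s - 1) + d) / 2) ^ 2 =
          ((d ^ (s - 1) - d) / 2) ^ s - ((d ^ (s - 1) - d) / 2) ^ 2
        generalize (d ^ (s - 1) + d) / 2 = a at hsub hadd
        generalize (d ^ (s - 1) - d) / 2 = b at hsub hadd
        have e1 : a ^ s - b ^ s = d ^ s := by
          rw [← sub_pow_s s hs a b, hsub]
        have e2 : a ^ 2 - b ^ 2 = d ^ s := by
          have : a ^ 2 - b ^ 2 = (a - b) * (a + b) := by ring
          rw [this, hsub, hadd, ← pow_succ', Nat.sub_add_cancel (by omega)]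
        linear_combination e1 - e2
    · intro d _ d' _ he
      have he' : ((d ^ (s - 1) + d) / 2, (d ^ (s - 1) - d) / 2) =
        ((d' ^ (s - 1) + d') / 2, (d' ^ (s - 1) - d') / 2) := he
      rw [Prod.mk.injEq] at he'
      have h1 : (d ^ (s - 1) + d) / 2 - (d ^ (s - 1) - d) / 2 = d := by
        field_simp
        ring
      have h2 : (d' ^ (s - 1) + d') / 2 - (d' ^ (s - 1) - d') / 2 = d' := by
        field_simp
        ring
      rw [← h1, ← h2, he'.1, he'.2]
  have hsum : ∑ v : k, (F v).card = Fintype.card k := by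
    rw [← Finset.card_univ (α := k)]
    exact (Finset.card_eq_sum_card_fiberwise (f := fun x : k => x ^ s - x ^ 2) (t := Finset.univ)
      (fun _ _ => Finset.mem_coe.mpr (Finset.mem_univ _))).symm
  have hterm : ∀ v : k, (F v).offDiag.card + s ≤
      s * (F v).card + s * (if (F v).card = 0 then 1 else 0) := by
    intro v
    rw [Finset.offDiag_card]
    have hle : (F v).card ≤ s := fib_le s h3 v
    generalize (F v).card = N at hle
    rcases Nat.eq_zero_or_pos N with h | h
    · subst h
      simp
    · rw [if_neg (by omega)]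
      obtain ⟨M, rfl⟩ : ∃ M, N = M + 1 := ⟨N - 1, by omega⟩
      have e1 : (M + 1) * (M + 1) - (M + 1) = (M + 1) * M := by
        rw [← Nat.mul_sub_one]
        rfl
      rw [e1]
      nlinarith
  have htot := Finset.sum_le_sum fun v (_ : v ∈ (Finset.univ : Finset k)) => hterm v
  rw [Finset.sum_add_distrib, Finset.sum_add_distrib, ← hPcard, ← Finset.mul_sum, ← Finset.mul_sum, hsum,
    Finset.sum_const, Finset.card_univ, smul_eq_mul, ← Finset.card_filter] at htot
  have hmiss : (Finset.univ.filter fun v : k => (F v).card = 0) =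
      Finset.univ.filter fun a : k => ∀ x : k, x ^ s - x ^ 2 ≠ a := by
    ext v
    simp only [hF, Finset.mem_filter, Finset.mem_univ, true_and, Finset.card_eq_zero,
      Finset.filter_eq_empty_iff]
    constructor
    · intro h x
      exact h trivial
    · intro h x _
      exact h x
  rw [hmiss] at htot
  have hc : Fintype.card k * s = s * Fintype.card k := Nat.mul_comm _ _
  omega

end Pool.Agent.H45.VS
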